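import Pool.Agent.H2.AV.Mch

/-!
# [H2 AV ACC] When the machine accepts

PROOF, `result_up`. Write `u = c (d+3) + r`, `c < q q`, `r < d+3`, `a = c/q < q`, `b = c % q < q`. For `r < d+2` all weights `upW` vanish
(`u <> q q (d+3)`, `r <> d+2`), so the result is `upG` of a counting number: `r = 0`: `nA x a`, result 0 iff `nA = 1`
(a natural number between 1/2 and 3/2); `r = 1`: `nB x b`; `r = k + 2`: `nk x a b k`, result 1 iff it is `>= 2`; all results are 0 or 1.
`r = d+2`: `upF = 0`, the sum is over the `t < u` with `t / (d+3) = c`, i.e. `t = c (d+3) + r'`, `r' < d+2`, so it is `< 1/2` iff all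
these results are 0 (they are 0 or 1). `u = q q (d+3)`: `upF = 0`, the sum of the results of the `t = c (d+3) + d+2`, `c < q q`
(0 or 1), is `> 1/2` iff one of them is 1. Every pair `a, b < q` is `c = a q + b`.
-/

set_option autoImplicit false

namespace Pool.Agent.H2.AV

variable {n d : ℕ}

open Classical in
/-- number of low vectors in a group of one side -/
noncomputable def nLow (low : Vec d → Prop) (h : ℕ) (x : Input n d) (s : Bool) (a : ℕ) : ℕ :=
  (Finset.univ.filter fun i : Fin n => (i : ℕ) / h = a ∧ low (x (s, i))).card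

open Classical in
/-- number of low vectors in both groups which have the bit `k` -/
noncomputable def nBit (low : Vec d → Prop) (h : ℕ) (x : Input n d) (a b : ℕ) (k : Fin d) : ℕ :=
  (Finset.univ.filter fun z : Pos n =>
    ((z.2 : ℕ) / h = if z.1 then b else a) ∧ low (x z) ∧ x z k = true).card

private theorem sum01 {ι : Type} [Fintype ι] (f : ι → ℝ) (h : ∀ i, f i = 0 ∨ f i = 1) :
    (∑ i, f i = 0 ∧ ∀ i, f i = 0) ∨ (1 ≤ ∑ i, f i ∧ ∃ i, f i = 1) := by
  by_cases h1 : ∀ i, f i = 0
  · exact Or.inl ⟨Finset.sum_eq_zero fun i _ => h1 i, h1⟩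
  · push Not at h1
    obtain ⟨i, hi⟩ := h1
    have hi1 := (h i).resolve_left hi
    refine Or.inr ⟨?_, i, hi1⟩
    rw [← hi1]
    exact Finset.single_le_sum (f := f) (fun j _ => by
      rcases h j with h | h <;> rw [h]
      exact zero_le_one) (Finset.mem_univ i)

private theorem ite_eq' {P Q : Prop} [Decidable P] [Decidable Q] (h : P ↔ Q) :
    (if P then (1 : ℝ) else 0) = if Q then 1 else 0 := if_congr h rfl rfl

private theorem half_nat (m : ℕ) : (1 / 2 < (m : ℝ) ∧ (m : ℝ) < 3 / 2) ↔ m = 1 := by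
  constructor
  · rintro ⟨h1, h2⟩
    have h3 : (0 : ℝ) < m := by linarith
    have h4 : (m : ℝ) < 2 := by linarith
    have h5 : 0 < m := by exact_mod_cast h3
    have h6 : m < 2 := by exact_mod_cast h4
    omega
  · rintro rfl; norm_num

private theorem three_half_nat (m : ℕ) : 3 / 2 < (m : ℝ) ↔ ¬ m ≤ 1 := by
  constructor
  · intro h1 h2
    have h3 : (m : ℝ) ≤ 1 := by exact_mod_cast h2
    linarith
  · intro h1
    have h2 : 2 ≤ m := by omega
    have h3 : (2 : ℝ) ≤ m := by exact_mod_cast h2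
    linarith

private theorem blk {c r q : ℕ} (d : ℕ) (hc : c < q * q) (hr : r < d + 3) :
    c * (d + 3) + r < q * q * (d + 3) ∧ (c * (d + 3) + r) / (d + 3) = c ∧
      (c * (d + 3) + r) % (d + 3) = r := by
  refine ⟨?_, ?_, ?_⟩
  · have h1 : (c + 1) * (d + 3) ≤ q * q * (d + 3) := Nat.mul_le_mul_right _ hc
    rw [Nat.add_mul] at h1
    omega
  · rw [Nat.mul_comm, Nat.mul_add_div (by omega), Nat.div_eq_of_lt hr, Nat.add_zero]
  · rw [Nat.mul_comm, Nat.mul_add_mod, Nat.mod_eq_of_lt hr]

private theorem upG01 (d q u : ℕ) (s : ℝ) : upG d q u s = 0 ∨ upG d q u s = 1 := by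
  unfold upG
  split_ifs <;> simp

private theorem res01 (low : Vec d → Prop) (h q : ℕ) (x : Input n d) (u : ℕ) :
    (up n low h q).result x u = 0 ∨ (up n low h q).result x u = 1 := by
  rw [result_up]
  exact upG01 _ _ _ _

private theorem res_low (low : Vec d → Prop) (h q : ℕ) (x : Input n d) {c r : ℕ}
    (hc : c < q * q) (hr : r < d + 2) :
    (up n low h q).result x (c * (d + 3) + r) =
      upG d q (c * (d + 3) + r) (∑ z, upF low h q (c * (d + 3) + r) z (x z)) := by
  obtain ⟨h1, h2, h3⟩ := blk d hc (show r < d + 3 by omega)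
  rw [result_up]
  congr 1
  rw [add_eq_left]
  refine Finset.sum_eq_zero fun t _ => ?_
  rw [upW, if_neg h1.ne, if_neg (by rw [h3]; omega), zero_mul]

private theorem sum0 (low : Vec d → Prop) (h q : ℕ) (x : Input n d) {c : ℕ}
    (hc : c < q * q) : ∑ z, upF low h q (c * (d + 3) + 0) z (x z) =
      (nLow low h x false (c / q) : ℝ) := by
  classical
  obtain ⟨h1, h2, h3⟩ := blk d hc (show 0 < d + 3 by omega)
  rw [nLow, Finset.card_filter, Fintype.sum_prod_type, Fintype.sum_bool]
  push_cast
  have hA : ∀ i, upF low h q (c * (d + 3) + 0) (true, i) (x (true, i)) = 0 := by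
    intro i
    rw [upF, if_neg]
    rintro ⟨_, _, h | h | ⟨k, h⟩⟩
    · exact absurd h.2 (by simp)
    · rw [h3] at h; omega
    · rw [h3] at h; omega
  have hB : ∀ i, upF low h q (c * (d + 3) + 0) (false, i) (x (false, i)) =
      if (i : ℕ) / h = c / q ∧ low (x (false, i)) then 1 else 0 := by
    intro i
    unfold upF
    refine ite_eq' ?_
    unfold upSel
    rw [h3, h2]
    constructor
    · rintro ⟨⟨_, ha⟩, hb, _⟩
      exact ⟨by simpa using ha, hb⟩
    · rintro ⟨ha, hb⟩
      exact ⟨⟨h1, by simpa using ha⟩, hb, Or.inl ⟨rfl, rfl⟩⟩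
  rw [Finset.sum_congr rfl fun i _ => hA i, Finset.sum_congr rfl fun i _ => hB i,
    Finset.sum_const_zero, zero_add]

private theorem sum1 (low : Vec d → Prop) (h q : ℕ) (x : Input n d) {c : ℕ}
    (hc : c < q * q) : ∑ z, upF low h q (c * (d + 3) + 1) z (x z) =
      (nLow low h x true (c % q) : ℝ) := by
  classical
  obtain ⟨h1, h2, h3⟩ := blk d hc (show 1 < d + 3 by omega)
  rw [nLow, Finset.card_filter, Fintype.sum_prod_type, Fintype.sum_bool]
  push_cast
  have hA : ∀ i, upF low h q (c * (d + 3) + 1) (false, i) (x (false, i)) = 0 := by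
    intro i
    rw [upF, if_neg]
    rintro ⟨_, _, h | h | ⟨k, h⟩⟩
    · rw [h3] at h; omega
    · exact absurd h.2 (by simp)
    · rw [h3] at h; omega
  have hB : ∀ i, upF low h q (c * (d + 3) + 1) (true, i) (x (true, i)) =
      if (i : ℕ) / h = c % q ∧ low (x (true, i)) then 1 else 0 := by
    intro i
    unfold upF
    refine ite_eq' ?_
    unfold upSel
    rw [h3, h2]
    constructor
    · rintro ⟨⟨_, ha⟩, hb, _⟩
      exact ⟨by simpa using ha, hb⟩
    · rintro ⟨ha, hb⟩
      exact ⟨⟨h1, by simpa using ha⟩, hb, Or.inr (Or.inl ⟨rfl, rfl⟩)⟩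
  rw [Finset.sum_congr rfl fun i _ => hA i, Finset.sum_congr rfl fun i _ => hB i,
    Finset.sum_const_zero, add_zero]

private theorem sum2 (low : Vec d → Prop) (h q : ℕ) (x : Input n d) {c : ℕ}
    (hc : c < q * q) (k : Fin d) : ∑ z, upF low h q (c * (d + 3) + (k + 2)) z (x z) =
      (nBit low h x (c / q) (c % q) k : ℝ) := by
  classical
  obtain ⟨h1, h2, h3⟩ := blk d hc (show (k : ℕ) + 2 < d + 3 by omega)
  rw [nBit, Finset.card_filter]
  push_cast
  refine Finset.sum_congr rfl fun z _ => ?_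
  unfold upF
  refine ite_eq' ?_
  unfold upSel
  rw [h3, h2]
  constructor
  · rintro ⟨⟨_, ha⟩, hb, h | h | ⟨k', h, hk⟩⟩
    · omega
    · omega
    · have : k = k' := Fin.ext (by omega)
      subst this
      exact ⟨ha, hb, hk⟩
  · rintro ⟨ha, hb, hk⟩
    exact ⟨⟨h1, ha⟩, hb, Or.inr (Or.inr ⟨k, rfl, hk⟩)⟩

private theorem res0 (low : Vec d → Prop) (h q : ℕ) (x : Input n d) {c : ℕ} (hc : c < q * q) :
    (up n low h q).result x (c * (d + 3) + 0) = 0 ↔ nLow low h x false (c / q) = 1 := by
  obtain ⟨h1, h2, h3⟩ := blk d hc (show 0 < d + 3 by omega)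
  rw [res_low low h q x hc (by omega), sum0 low h q x hc, upG, if_neg h1.ne,
    if_neg (by rw [h3]; omega), if_pos (by rw [h3]; omega), ← half_nat]
  split_ifs with h4
  · exact ⟨fun _ => h4, fun _ => rfl⟩
  · exact ⟨fun h => absurd h one_ne_zero, fun h => absurd h h4⟩

private theorem res1 (low : Vec d → Prop) (h q : ℕ) (x : Input n d) {c : ℕ} (hc : c < q * q) :
    (up n low h q).result x (c * (d + 3) + 1) = 0 ↔ nLow low h x true (c % q) = 1 := by
  obtain ⟨h1, h2, h3⟩ := blk d hc (show 1 < d + 3 by omega)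
  rw [res_low low h q x hc (by omega), sum1 low h q x hc, upG, if_neg h1.ne,
    if_neg (by rw [h3]; omega), if_pos (by rw [h3]; omega), ← half_nat]
  split_ifs with h4
  · exact ⟨fun _ => h4, fun _ => rfl⟩
  · exact ⟨fun h => absurd h one_ne_zero, fun h => absurd h h4⟩

private theorem res2 (low : Vec d → Prop) (h q : ℕ) (x : Input n d) {c : ℕ} (hc : c < q * q)
    (k : Fin d) : (up n low h q).result x (c * (d + 3) + (k + 2)) = 0 ↔
      nBit low h x (c / q) (c % q) k ≤ 1 := by
  obtain ⟨h1, h2, h3⟩ := blk d hc (show (k : ℕ) + 2 < d + 3 by omega)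
  rw [res_low low h q x hc (by omega), sum2 low h q x hc, upG, if_neg h1.ne,
    if_neg (by rw [h3]; omega), if_neg (by rw [h3]; omega)]
  split_ifs with h4
  · have h5 := (three_half_nat _).1 h4
    simp [h5]
  · rw [three_half_nat, not_not] at h4
    simp [h4]

private theorem res_top (low : Vec d → Prop) (h q : ℕ) (x : Input n d) {c : ℕ} (hc : c < q * q) :
    (up n low h q).result x (c * (d + 3) + (d + 2)) = 1 ↔
      ∀ r, r < d + 2 → (up n low h q).result x (c * (d + 3) + r) = 0 := by
  obtain ⟨h1, h2, h3⟩ := blk d hc (show d + 2 < d + 3 by omega)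
  have hF : ∑ z, upF low h q (c * (d + 3) + (d + 2)) z (x z) = 0 := by
    refine Finset.sum_eq_zero fun z _ => ?_
    rw [upF, if_neg]
    rintro ⟨_, _, h | h | ⟨k, h⟩⟩
    · rw [h3] at h; omega
    · rw [h3] at h; omega
    · rw [h3] at h
      have := k.2
      omega
  have hf : ∀ t : Fin (c * (d + 3) + (d + 2)), upW d q (c * (d + 3) + (d + 2)) t *
      (up n low h q).result x t =
        if (t : ℕ) / (d + 3) = c then (up n low h q).result x t else 0 := by
    intro t
    rw [upW, if_neg h1.ne, h2, h3]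
    split_ifs with h4 h5 h5
    · rw [one_mul]
    · exact absurd h4.2 h5
    · exact absurd ⟨rfl, h5⟩ h4
    · rw [zero_mul]
  rw [result_up, hF, zero_add, upG, if_neg h1.ne, if_pos h3, Finset.sum_congr rfl fun t _ => hf t]
  have h01 : ∀ t : Fin (c * (d + 3) + (d + 2)),
      (if (t : ℕ) / (d + 3) = c then (up n low h q).result x t else 0) = 0 ∨
      (if (t : ℕ) / (d + 3) = c then (up n low h q).result x t else 0) = 1 := by
    intro t
    split_ifs
    · exact res01 low h q x t
    · exact Or.inl rfl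
  rcases sum01 _ h01 with ⟨h4, h5⟩ | ⟨h4, t, h5⟩
  · rw [h4, if_pos (by norm_num)]
    refine ⟨fun _ r hr => ?_, fun _ => rfl⟩
    obtain ⟨h6, h7, h8⟩ := blk d hc (show r < d + 3 by omega)
    have := h5 ⟨c * (d + 3) + r, by omega⟩
    rwa [if_pos h7] at this
  · rw [if_neg (by linarith)]
    refine ⟨fun h => absurd h (by norm_num), fun h6 => ?_⟩
    split_ifs at h5 with h7
    · have h8 := Nat.div_add_mod (t : ℕ) (d + 3)
      rw [h7, Nat.mul_comm] at h8
      have ht := t.2
      have h9 := h6 ((t : ℕ) % (d + 3)) (by omega)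
      rw [h8, h5] at h9
      exact absurd h9 (by norm_num)
    · exact absurd h5 (by norm_num)

private theorem res_last (low : Vec d → Prop) (h q : ℕ) (x : Input n d) :
    0 < (up n low h q).result x (q * q * (d + 3)) ↔
      ∃ c, c < q * q ∧ (up n low h q).result x (c * (d + 3) + (d + 2)) = 1 := by
  have hF : ∑ z, upF low h q (q * q * (d + 3)) z (x z) = 0 := by
    refine Finset.sum_eq_zero fun z _ => ?_
    rw [upF, if_neg]
    rintro ⟨⟨h, _⟩, _⟩
    exact lt_irrefl _ h
  have hf : ∀ t : Fin (q * q * (d + 3)), upW d q (q * q * (d + 3)) t *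
      (up n low h q).result x t =
        if (t : ℕ) % (d + 3) = d + 2 then (up n low h q).result x t else 0 := by
    intro t
    rw [upW, if_pos rfl]
    split_ifs
    · rw [one_mul]
    · rw [zero_mul]
  rw [result_up, hF, zero_add, upG, if_pos rfl, Finset.sum_congr rfl fun t _ => hf t]
  have h01 : ∀ t : Fin (q * q * (d + 3)),
      (if (t : ℕ) % (d + 3) = d + 2 then (up n low h q).result x t else 0) = 0 ∨
      (if (t : ℕ) % (d + 3) = d + 2 then (up n low h q).result x t else 0) = 1 := by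
    intro t
    split_ifs
    · exact res01 low h q x t
    · exact Or.inl rfl
  rcases sum01 _ h01 with ⟨h4, h5⟩ | ⟨h4, t, h5⟩
  · rw [h4, if_neg (by norm_num)]
    refine ⟨fun h => absurd h (by norm_num), ?_⟩
    rintro ⟨c, hc, h6⟩
    obtain ⟨h1, h2, h3⟩ := blk d hc (show d + 2 < d + 3 by omega)
    have := h5 ⟨c * (d + 3) + (d + 2), h1⟩
    rw [if_pos h3] at this
    rw [this] at h6
    exact absurd h6 (by norm_num)
  · rw [if_pos (by linarith)]
    refine ⟨fun _ => ?_, fun _ => by norm_num⟩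
    split_ifs at h5 with h7
    · have h8 := Nat.div_add_mod (t : ℕ) (d + 3)
      rw [h7, Nat.mul_comm] at h8
      refine ⟨(t : ℕ) / (d + 3), ?_, ?_⟩
      · exact (Nat.div_lt_iff_lt_mul (by omega)).2 t.2
      · rw [h8, h5]
    · exact absurd h5 (by norm_num)

private theorem res_block (low : Vec d → Prop) (h q : ℕ) (x : Input n d) {c : ℕ}
    (hc : c < q * q) : (up n low h q).result x (c * (d + 3) + (d + 2)) = 1 ↔
      nLow low h x false (c / q) = 1 ∧ nLow low h x true (c % q) = 1 ∧
        ∀ k, nBit low h x (c / q) (c % q) k ≤ 1 := by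
  rw [res_top low h q x hc]
  constructor
  · intro h1
    exact ⟨(res0 low h q x hc).1 (h1 0 (by omega)), (res1 low h q x hc).1 (h1 1 (by omega)),
      fun k => (res2 low h q x hc k).1 (h1 (k + 2) (by omega))⟩
  · rintro ⟨h1, h2, h3⟩ r hr
    rcases r with _ | _ | r
    · exact (res0 low h q x hc).2 h1
    · exact (res1 low h q x hc).2 h2
    · exact (res2 low h q x hc ⟨r, by omega⟩).2 (h3 ⟨r, by omega⟩)

theorem acc_iff (low : Vec d → Prop) (h q : ℕ) (x : Input n d) :
    0 < (up n low h q).result x (up n low h q).last ↔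
      ∃ a b, a < q ∧ b < q ∧ nLow low h x false a = 1 ∧ nLow low h x true b = 1 ∧
        ∀ k, nBit low h x a b k ≤ 1 := by
  have hl : (up n low h q).last = q * q * (d + 3) := rfl
  rw [hl, res_last]
  constructor
  · rintro ⟨c, hc, h1⟩
    rw [res_block low h q x hc] at h1
    have hq : 0 < q := by
      rcases Nat.eq_zero_or_pos q with h2 | h2
      · subst h2; simp at hc
      · exact h2
    exact ⟨c / q, c % q, (Nat.div_lt_iff_lt_mul hq).2 hc, Nat.mod_lt _ hq, h1⟩
  · rintro ⟨a, b, ha, hb, h1⟩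
    have hc : a * q + b < q * q := by
      have h2 : (a + 1) * q ≤ q * q := Nat.mul_le_mul_right _ ha
      rw [Nat.add_mul] at h2
      omega
    have hd : (a * q + b) / q = a := by
      rw [Nat.mul_comm, Nat.mul_add_div (by omega), Nat.div_eq_of_lt hb, Nat.add_zero]
    have hm : (a * q + b) % q = b := by
      rw [Nat.mul_comm, Nat.mul_add_mod, Nat.mod_eq_of_lt hb]
    refine ⟨a * q + b, hc, ?_⟩
    rw [res_block low h q x hc, hd, hm]
    exact h1

end Pool.Agent.H2.AV
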