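import Pool.Agent.H2.AV.Defs

/-!
# [H2 AV ALP] The exponent lies between 1 and 2

PROOFS. `A = -log(1-p) > 0`, `B = log(1+p) > 0`, `D = -log(1-p^2) = A - B > 0` (`log((1-p)(1+p))`), `alpha = 2 p A/((1+p) D)`.
`alpha > 1` iff `2 p A > (1+p)(A - B)` iff `(1+p) B - (1-p) A > 0`. By `log x < x - 1` for `x <> 1`, `x > 0`
(`Real.log_lt_sub_one_of_pos`) at `x = 1/(1+p)`: `(1+p) B > p`; at `x = 1/(1-p)`: `A < 1/(1-p) - 1`, `(1-p) A < p`. So it is `> 0`.
`alpha < 2` iff `p A < (1+p)(A - B)` iff `(1+p) B < A` iff `p B < A - B = D`: `p log(1+p) = log((1+p)^p) <= log(1 + p p)`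
(`Real.rpow_one_add_le_one_add_mul_self`), and `log(1+p^2) + log(1-p^2) = log(1-p^4) < 0`.
-/

set_option autoImplicit false

namespace Pool.Agent.H2.AV

private theorem logs {p : ℝ} (h0 : 0 < p) (h1 : p < 1) :
    Real.log (1 - p ^ 2) = Real.log (1 - p) + Real.log (1 + p) := by
  rw [← Real.log_mul (by linarith) (by linarith)]
  congr 1
  ring

private theorem D_neg {p : ℝ} (h0 : 0 < p) (h1 : p < 1) : Real.log (1 - p ^ 2) < 0 := by
  apply Real.log_neg
  · nlinarith
  · nlinarith

theorem one_lt_alpha {p : ℝ} (h0 : 0 < p) (h1 : p < 1) : 1 < alpha p := by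
  have hD := D_neg h0 h1
  have hl := logs h0 h1
  have hneg : (1 + p) * Real.log (1 - p ^ 2) < 0 := mul_neg_of_pos_of_neg (by linarith) hD
  unfold alpha
  rw [lt_div_iff_of_neg hneg, one_mul]
  have a1 : p < (1 + p) * Real.log (1 + p) := by
    have h := Real.log_lt_sub_one_of_pos (x := (1 + p)⁻¹) (by positivity) (by
      intro h
      have : (1 + p) = 1 := by
        rw [← inv_inv (1 + p), h, inv_one]
      linarith)
    rw [Real.log_inv] at h
    have h2 := mul_lt_mul_of_pos_left h (show (0 : ℝ) < 1 + p by linarith)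
    have e : (1 + p) * ((1 + p)⁻¹ - 1) = -p := by
      field_simp
      ring
    rw [e] at h2
    linarith
  have a2 : -((1 - p) * Real.log (1 - p)) < p := by
    have h := Real.log_lt_sub_one_of_pos (x := (1 - p)⁻¹) (by
      have : 0 < 1 - p := by linarith
      positivity) (by
      intro h
      have : (1 - p) = 1 := by
        rw [← inv_inv (1 - p), h, inv_one]
      linarith)
    rw [Real.log_inv] at h
    have h2 := mul_lt_mul_of_pos_left h (show (0 : ℝ) < 1 - p by linarith)
    have e : (1 - p) * ((1 - p)⁻¹ - 1) = p := by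
      have : (1 - p) ≠ 0 := by linarith
      field_simp
      ring
    rw [e] at h2
    linarith
  rw [hl]
  nlinarith

theorem alpha_lt_two {p : ℝ} (h0 : 0 < p) (h1 : p < 1) : alpha p < 2 := by
  have hD := D_neg h0 h1
  have hl := logs h0 h1
  have hneg : (1 + p) * Real.log (1 - p ^ 2) < 0 := mul_neg_of_pos_of_neg (by linarith) hD
  unfold alpha
  rw [div_lt_iff_of_neg hneg]
  have b1 : p * Real.log (1 + p) ≤ Real.log (1 + p * p) := by
    rw [← Real.log_rpow (by linarith)]
    apply Real.log_le_log (Real.rpow_pos_of_pos (by linarith) _)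
    exact rpow_one_add_le_one_add_mul_self (by linarith) h0.le h1.le
  have b2 : Real.log (1 + p * p) + Real.log (1 - p ^ 2) < 0 := by
    rw [← Real.log_mul (by positivity) (by nlinarith)]
    apply Real.log_neg
    · have : 0 < 1 - p ^ 2 := by nlinarith
      positivity
    · nlinarith [pow_pos h0 4]
  nlinarith

end Pool.Agent.H2.AV
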