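import Pool.Agent.H2.AV.Defs

/-!
# [H2 AV] Basic notions: expectation over one vector, weight, indicator of orthogonality

MP_0f984e_lc, theorem AverageCase (notes 723 and the one of 15:05). NOTATION: `m = (1-p^2)^d`, `lam = n^2 m` (expected number of
orthogonal pairs), `M = (1-p)^w`, `kappa`, `q = p/(1+p)`, `A = -log(1-p)`, `D = -log(1-p^2)`, `alpha = 2 q A / D`. PLAN OF (a): for a machine with output `acc x` in `{0,1}` the probability of
`acc = 1` and no orthogonal pair is `exp(-lam) P(acc = 1) + o(1)`. Rows: the vectors `x (true,i)`; `cnt x i` = number of the
`x (false,j)` orthogonal to `x (true,i)`. `Row`: `acc`, as a function of the vector at `(true,i)`, lies in a small family which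
does not depend on the other vectors, so `cnt x i` may be replaced by its mean `n gg(x (true,i))` (`Soft`: exponential moments).
`Tel`: telescoping over the rows replaces the indicator of no orthogonal pair by `exp(-n sum gg)`; `Cnc`: this is nearly constant.
-/

set_option autoImplicit false

namespace Pool.Agent.H2.AV

variable {n d : ℕ}

/-- probability of a vector -/
def bv (p : ℝ) (z : Vec d) : ℝ := ∏ k, if z k then p else 1 - p

/-- expectation over one vector -/
def ev (p : ℝ) (f : Vec d → ℝ) : ℝ := ∑ z, bv p z * f z

/-- number of ones -/
def wt (z : Vec d) : ℕ := (Finset.univ.filter fun k => z k = true).card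

/-- indicator of orthogonality -/
def oi (u v : Vec d) : ℝ := ∏ k, if (u k && v k) then 0 else 1

/-- probability that a random vector is orthogonal to `z` -/
def gg (p : ℝ) (z : Vec d) : ℝ := (1 - p) ^ wt z

/-- number of the vectors of `A` which are orthogonal to the `i`-th vector of `B` -/
def cnt (x : Input n d) (i : Fin n) : ℝ := ∑ j, oi (x (false, j)) (x (true, i))

/-- the part of the expectation of `gg` with weight less than `w` -/
noncomputable def kappa (d : ℕ) (p : ℝ) (w : ℕ) : ℝ :=
  ev p fun v : Vec d => gg p v * if wt v < w then 1 else 0

end Pool.Agent.H2.AV
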