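import Pool.Agent.H2.AV.Vc

/-!
# [H2 AV CHE] Exponential bounds for the weight

PROOFS, `q = p/(1+p)`. By `ev_pow` with `y = (1-p) t`: `ev (gg * t^wt) = ((1-p)(1+p t))^d = (1-p^2)^d (1 + q (t-1))^d`, as
`1 - p + p (1-p) t = (1-p)(1+p t)` and `1 + p t = (1+p)(1 + q (t-1))`.
`kappa_le`: `t = exp(-b)`, `b = del`: if `wt < ceil(d (q - del))` then `wt < d (q-del)` (`Nat.lt_ceil`), so the indicator is
`<= t^wt exp(b d (q-del))`; `1 + q (t - 1) <= exp(q (t-1))`, `t - 1 = exp(-b) - 1 <= -b + b^2/2`; the exponent is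
`d (b (q - del) + q (-b + b^2/2)) = d (-b del + q b^2/2) <= -d del^2/2` (`q <= 1`).
`high_le`: `t = exp(b)`, `b = del/2 <= 1/2`: the indicator of `d (q+del) < wt` is `<= t^wt exp(-b d (q+del))`, `exp(b) - 1 <= b + b^2`
(`Real.abs_exp_sub_one_sub_id_le`): exponent `d (-b (q+del) + q (b + b^2)) <= d (-b del + b^2) = -d del^2/4`.
`low_le`: the indicator of `wt <= tau` is `<= (1-p)^wt exp(A tau)`, `A = -log(1-p)` (`(1-p)^wt = exp(-A wt)`), and
`ev (1-p)^wt = (1-p^2)^d` (`ev_gg`).
-/

set_option autoImplicit false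

namespace Pool.Agent.H2.AV

private theorem ev_tilt (p t : ℝ) (h0 : 0 < p) (d : ℕ) :
    ev p (fun u : Vec d => gg p u * t ^ wt u) =
      (1 - p ^ 2) ^ d * (1 + p / (1 + p) * (t - 1)) ^ d := by
  have e : ∀ u : Vec d, gg p u * t ^ wt u = ((1 - p) * t) ^ wt u := by
    intro u
    unfold gg
    rw [mul_pow]
  simp_rw [e]
  rw [ev_pow, ← mul_pow]
  congr 1
  have : (1 + p) ≠ 0 := by positivity
  field_simp
  ring

private theorem tilt_le {p b : ℝ} (h0 : 0 < p) (h1 : p < 1) (d : ℕ) :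
    ev p (fun u : Vec d => gg p u * Real.exp b ^ wt u) ≤
      (1 - p ^ 2) ^ d * Real.exp (d * (p / (1 + p) * (Real.exp b - 1))) := by
  rw [ev_tilt p _ h0]
  apply mul_le_mul_of_nonneg_left _ (pow_nonneg (by nlinarith) _)
  rw [Real.exp_nat_mul]
  apply pow_le_pow_left₀
  · have hq1 : p / (1 + p) ≤ 1 := by
      rw [div_le_one (by linarith)]
      linarith
    have hq0 : 0 < p / (1 + p) := by positivity
    have := Real.exp_pos b
    nlinarith
  · have := Real.add_one_le_exp (p / (1 + p) * (Real.exp b - 1))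
    linarith

theorem kappa_le {p : ℝ} (h0 : 0 < p) (h1 : p < 1) {δ : ℝ} (hδ : 0 < δ) (d : ℕ) :
    kappa d p ⌈(d : ℝ) * (p / (1 + p) - δ)⌉₊ ≤
      (1 - p ^ 2) ^ d * Real.exp (-(d * (δ ^ 2 / 2))) := by
  have hq1 : p / (1 + p) ≤ 1 := by
    rw [div_le_one (by linarith)]
    linarith
  have hq0 : 0 < p / (1 + p) := by positivity
  unfold kappa
  have h2 : ev p (fun v : Vec d => gg p v *
      if wt v < ⌈(d : ℝ) * (p / (1 + p) - δ)⌉₊ then 1 else 0) ≤
      ev p (fun v : Vec d => Real.exp (δ * (d * (p / (1 + p) - δ))) *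
        (gg p v * Real.exp (-δ) ^ wt v)) := by
    apply ev_mono h0.le h1.le
    intro v
    have hg := gg_nonneg (p := p) h1.le v
    split_ifs with hw
    · rw [Nat.lt_ceil] at hw
      have e : Real.exp (δ * (d * (p / (1 + p) - δ))) * (gg p v * Real.exp (-δ) ^ wt v) =
          gg p v * Real.exp (δ * (d * (p / (1 + p) - δ) - wt v)) := by
        rw [← Real.exp_nat_mul]
        rw [mul_comm, mul_assoc, ← Real.exp_add]
        congr 2
        ring
      rw [e]
      apply mul_le_mul_of_nonneg_left _ hg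
      apply Real.one_le_exp
      apply mul_nonneg hδ.le
      linarith
    · rw [mul_zero]
      positivity
  refine h2.trans ?_
  rw [ev_mul]
  have h3 := tilt_le (b := -δ) h0 h1 d
  have h4 : Real.exp (-δ) - 1 ≤ -δ + δ ^ 2 / 2 := by
    have := Real.quadratic_le_exp_of_nonneg hδ.le
    have hpos := Real.exp_pos (-δ)
    have he : Real.exp (-δ) * Real.exp δ = 1 := by
      rw [← Real.exp_add]
      simp
    have h5 : Real.exp (-δ) * (1 + δ + δ ^ 2 / 2) ≤ 1 :=
      (mul_le_mul_of_nonneg_left this hpos.le).trans he.le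
    have h6 : (1 + δ + δ ^ 2 / 2) * (1 - δ + δ ^ 2 / 2) = 1 + δ ^ 4 / 4 := by ring
    have h7 : 0 < 1 + δ + δ ^ 2 / 2 := by positivity
    have h8 : Real.exp (-δ) ≤ 1 - δ + δ ^ 2 / 2 := by
      by_contra hcon
      push Not at hcon
      have := mul_lt_mul_of_pos_right hcon h7
      have h9 : 0 ≤ δ ^ 4 / 4 := by positivity
      nlinarith
    linarith
  have hm : 0 ≤ (1 - p ^ 2) ^ d := pow_nonneg (by nlinarith) _
  calc Real.exp (δ * (d * (p / (1 + p) - δ))) *
        ev p (fun v : Vec d => gg p v * Real.exp (-δ) ^ wt v)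
      ≤ Real.exp (δ * (d * (p / (1 + p) - δ))) *
        ((1 - p ^ 2) ^ d * Real.exp (d * (p / (1 + p) * (Real.exp (-δ) - 1)))) :=
        mul_le_mul_of_nonneg_left h3 (Real.exp_pos _).le
    _ = (1 - p ^ 2) ^ d * Real.exp (d * (δ * (p / (1 + p) - δ) +
          p / (1 + p) * (Real.exp (-δ) - 1))) := by
        rw [mul_comm, mul_assoc, ← Real.exp_add]
        congr 2
        ring
    _ ≤ (1 - p ^ 2) ^ d * Real.exp (-(d * (δ ^ 2 / 2))) := by
        apply mul_le_mul_of_nonneg_left _ hm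
        apply Real.exp_le_exp.2
        have h10 : δ * (p / (1 + p) - δ) + p / (1 + p) * (Real.exp (-δ) - 1) ≤ -(δ ^ 2 / 2) := by
          have h11 := mul_le_mul_of_nonneg_left h4 hq0.le
          have h12 : p / (1 + p) * (δ ^ 2 / 2) ≤ 1 * (δ ^ 2 / 2) :=
            mul_le_mul_of_nonneg_right hq1 (by positivity)
          nlinarith
        have h13 := mul_le_mul_of_nonneg_left h10 (Nat.cast_nonneg (α := ℝ) d)
        linarith

theorem high_le {p : ℝ} (h0 : 0 < p) (h1 : p < 1) {δ : ℝ} (hδ : 0 < δ) (hδ1 : δ ≤ 1) (d : ℕ) :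
    ev p (fun u : Vec d => gg p u * if (d : ℝ) * (p / (1 + p) + δ) < wt u then 1 else 0) ≤
      (1 - p ^ 2) ^ d * Real.exp (-(d * (δ ^ 2 / 4))) := by
  have hq1 : p / (1 + p) ≤ 1 := by
    rw [div_le_one (by linarith)]
    linarith
  have hq0 : 0 < p / (1 + p) := by positivity
  have h2 : ev p (fun v : Vec d => gg p v *
      if (d : ℝ) * (p / (1 + p) + δ) < wt v then 1 else 0) ≤
      ev p (fun v : Vec d => Real.exp (-(δ / 2 * (d * (p / (1 + p) + δ)))) *
        (gg p v * Real.exp (δ / 2) ^ wt v)) := by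
    apply ev_mono h0.le h1.le
    intro v
    have hg := gg_nonneg (p := p) h1.le v
    split_ifs with hw
    · have e : Real.exp (-(δ / 2 * (d * (p / (1 + p) + δ)))) *
          (gg p v * Real.exp (δ / 2) ^ wt v) =
          gg p v * Real.exp (δ / 2 * (wt v - d * (p / (1 + p) + δ))) := by
        rw [← Real.exp_nat_mul]
        rw [mul_comm, mul_assoc, ← Real.exp_add]
        congr 2
        ring
      rw [e]
      apply mul_le_mul_of_nonneg_left _ hg
      apply Real.one_le_exp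
      apply mul_nonneg (by linarith)
      linarith
    · rw [mul_zero]
      positivity
  refine h2.trans ?_
  rw [ev_mul]
  have h3 := tilt_le (b := δ / 2) h0 h1 d
  have h4 : Real.exp (δ / 2) - 1 ≤ δ / 2 + (δ / 2) ^ 2 := by
    have h := Real.abs_exp_sub_one_sub_id_le (x := δ / 2) (by
      rw [abs_of_pos (by linarith)]
      linarith)
    rw [abs_le] at h
    linarith [h.2]
  have hm : 0 ≤ (1 - p ^ 2) ^ d := pow_nonneg (by nlinarith) _
  calc Real.exp (-(δ / 2 * (d * (p / (1 + p) + δ)))) *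
        ev p (fun v : Vec d => gg p v * Real.exp (δ / 2) ^ wt v)
      ≤ Real.exp (-(δ / 2 * (d * (p / (1 + p) + δ)))) *
        ((1 - p ^ 2) ^ d * Real.exp (d * (p / (1 + p) * (Real.exp (δ / 2) - 1)))) :=
        mul_le_mul_of_nonneg_left h3 (Real.exp_pos _).le
    _ = (1 - p ^ 2) ^ d * Real.exp (d * (-(δ / 2 * (p / (1 + p) + δ)) +
          p / (1 + p) * (Real.exp (δ / 2) - 1))) := by
        rw [mul_comm, mul_assoc, ← Real.exp_add]
        congr 2
        ring
    _ ≤ (1 - p ^ 2) ^ d * Real.exp (-(d * (δ ^ 2 / 4))) := by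
        apply mul_le_mul_of_nonneg_left _ hm
        apply Real.exp_le_exp.2
        have h10 : -(δ / 2 * (p / (1 + p) + δ)) + p / (1 + p) * (Real.exp (δ / 2) - 1) ≤
            -(δ ^ 2 / 4) := by
          have h11 := mul_le_mul_of_nonneg_left h4 hq0.le
          have h12 : p / (1 + p) * (δ / 2) ^ 2 ≤ 1 * (δ / 2) ^ 2 :=
            mul_le_mul_of_nonneg_right hq1 (by positivity)
          nlinarith
        have h13 := mul_le_mul_of_nonneg_left h10 (Nat.cast_nonneg (α := ℝ) d)
        linarith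

theorem low_le {p : ℝ} (h0 : 0 < p) (h1 : p < 1) (d : ℕ) (τ : ℝ) :
    ev p (fun u : Vec d => if (wt u : ℝ) ≤ τ then 1 else 0) ≤
      (1 - p ^ 2) ^ d * Real.exp (-(Real.log (1 - p) * τ)) := by
  have hA : Real.log (1 - p) < 0 := Real.log_neg (by linarith) (by linarith)
  have h2 : ev p (fun u : Vec d => if (wt u : ℝ) ≤ τ then (1 : ℝ) else 0) ≤
      ev p (fun u : Vec d => Real.exp (-(Real.log (1 - p) * τ)) * gg p u) := by
    apply ev_mono h0.le h1.le
    intro u
    have hg := gg_nonneg (p := p) h1.le u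
    split_ifs with hw
    · unfold gg
      have e : (1 - p) ^ wt u = Real.exp (wt u * Real.log (1 - p)) := by
        rw [Real.exp_nat_mul, Real.exp_log (by linarith)]
      rw [e, ← Real.exp_add]
      apply Real.one_le_exp
      nlinarith
    · positivity
  refine h2.trans ?_
  rw [ev_mul, ev_gg, mul_comm]

end Pool.Agent.H2.AV
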