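import Pool.Agent.H2.AV.Vc

/-!
# [H2 AV CNC] The expected number of orthogonal pairs, given `B`, is concentrated

PROOF. For `a, b >= 0`: `|exp(-a) - exp(-b)| <= |a - b|`. Here `a = n sum_i gg(x (true,i))`, `b = n^2 m = n sum_i m`, `m = (1-p^2)^d`.
Let `g1 = gg` for `w <= wt` (else 0), `g2 = gg - g1`, `m1 = ev g1`, `kappa = ev g2` (`kappa_eq`). `a - b = Y1 + Y2`,
`Y1 = n sum_i (g1(x (true,i)) - m1)`, `Y2` the same with `g2, kappa`; `ex |Y2| <= 2 n^2 kappa` (`ex_marg`), and `ex |Y1| <= sqrt(ex Y1^2)`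
(`ex_sq_le`), `ex Y1^2 = n^2 sum_{i,i'} ex (g1_i - m1)(g1_i' - m1)`; for `i <> i'` the term is `0` (`ex_resample` at `(true,i)`,
`ev (g1 - m1) = 0`), for `i = i'` it is `ev g1^2 - m1^2 <= ev g1^2 <= (1-p)^w (1-p^2)^d` (`gg_sq_le`). So `ex Y1^2 <= n^3 (1-p)^w m`.
-/

set_option autoImplicit false

namespace Pool.Agent.H2.AV

variable {n d : ℕ} {p : ℝ}

private theorem cnc_exp {a b : ℝ} (ha : 0 ≤ a) (hb : 0 ≤ b) :
    |Real.exp (-a) - Real.exp (-b)| ≤ |a - b| := by
  have key : ∀ a b : ℝ, 0 ≤ a → a ≤ b → |Real.exp (-a) - Real.exp (-b)| ≤ |a - b| := by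
    intro a b ha hab
    have h1 : Real.exp (-b) ≤ Real.exp (-a) := Real.exp_le_exp.2 (by linarith)
    rw [abs_of_nonneg (by linarith), abs_of_nonpos (by linarith)]
    have h2 : Real.exp (-a) ≤ 1 := Real.exp_le_one_iff.2 (by linarith)
    have h3 : Real.exp (-b) = Real.exp (-a) * Real.exp (-(b - a)) := by
      rw [← Real.exp_add]
      congr 1
      ring
    have h4 : 1 - (b - a) ≤ Real.exp (-(b - a)) := by
      have := Real.add_one_le_exp (-(b - a))
      linarith
    have h5 : 0 < Real.exp (-a) := Real.exp_pos _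
    rw [h3]
    nlinarith
  rcases le_total a b with h | h
  · exact key a b ha h
  · rw [abs_sub_comm, abs_sub_comm a]
    exact key b a hb h

theorem cnc (h0 : 0 ≤ p) (h1 : p ≤ 1) (w : ℕ) :
    ex p (fun x : Input n d => |Real.exp (-(n * ∑ i, gg p (x (true, i)))) -
      Real.exp (-((n : ℝ) ^ 2 * (1 - p ^ 2) ^ d))|) ≤
      Real.sqrt (n ^ 3 * (1 - p) ^ w * (1 - p ^ 2) ^ d) + 2 * n ^ 2 * kappa d p w := by
  set m : ℝ := (1 - p ^ 2) ^ d with hm
  set κ : ℝ := kappa d p w with hκ
  have hm0 : 0 ≤ m := pow_nonneg (by nlinarith) _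
  have hκ0 : 0 ≤ κ := kappa_nonneg h0 h1 w
  let g1 : Vec d → ℝ := fun u => gg p u * if w ≤ wt u then 1 else 0
  let g2 : Vec d → ℝ := fun u => gg p u * if wt u < w then 1 else 0
  have hg : ∀ u, gg p u = g1 u + g2 u := by
    intro u
    show gg p u = gg p u * (if w ≤ wt u then 1 else 0) + gg p u * (if wt u < w then 1 else 0)
    by_cases h : w ≤ wt u
    · rw [if_pos h, if_neg (by omega)]
      ring
    · rw [if_neg h, if_pos (by omega)]
      ring
  have hg2 : ∀ u, 0 ≤ g2 u := fun u => mul_nonneg (gg_nonneg h1 u) (by split_ifs <;> norm_num)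
  have e1 : ev p g1 = m - κ := kappa_eq p w
  have e2 : ev p g2 = κ := rfl
  let Y1 : Input n d → ℝ := fun x => n * ∑ i, (g1 (x (true, i)) - (m - κ))
  let Y2 : Input n d → ℝ := fun x => n * ∑ i, (g2 (x (true, i)) - κ)
  have hn0 : (0 : ℝ) ≤ n := Nat.cast_nonneg _
  have hab : ∀ x : Input n d, |Real.exp (-(n * ∑ i, gg p (x (true, i)))) -
      Real.exp (-((n : ℝ) ^ 2 * m))| ≤ |Y1 x| + |Y2 x| := by
    intro x
    refine (cnc_exp (mul_nonneg hn0 (Finset.sum_nonneg fun i _ => gg_nonneg h1 _))
      (mul_nonneg (sq_nonneg _) hm0)).trans ?_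
    have h2 : n * ∑ i, gg p (x (true, i)) - (n : ℝ) ^ 2 * m = Y1 x + Y2 x := by
      show n * ∑ i, gg p (x (true, i)) - (n : ℝ) ^ 2 * m =
        n * ∑ i, (g1 (x (true, i)) - (m - κ)) + n * ∑ i, (g2 (x (true, i)) - κ)
      rw [← mul_add, ← Finset.sum_add_distrib]
      have h3 : ∑ i : Fin n, (g1 (x (true, i)) - (m - κ) + (g2 (x (true, i)) - κ)) =
          ∑ i : Fin n, (gg p (x (true, i)) - m) := by
        refine Finset.sum_congr rfl fun i _ => ?_
        rw [hg]
        ring
      rw [h3, Finset.sum_sub_distrib, Finset.sum_const, Finset.card_univ, Fintype.card_fin,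
        nsmul_eq_mul]
      ring
    rw [h2]
    exact abs_add_le _ _
  refine (ex_mono h0 h1 hab).trans ?_
  rw [ex_add]
  refine add_le_add ?_ ?_
  · refine Real.le_sqrt_of_sq_le ((ex_sq_le h0 h1 Y1).trans ?_)
    -- the second moment
    let h : Vec d → ℝ := fun u => g1 u - (m - κ)
    have hh : ev p h = 0 := by
      show ev p (fun u => g1 u - (m - κ)) = 0
      have h2 : ev p (fun _ : Vec d => (m - κ)) = m - κ := by
        have := ev_mul (d := d) p (m - κ) (fun _ => 1)
        rw [ev_one, mul_one] at this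
        simpa using this
      rw [ev_sub, h2]
      show ev p g1 - (m - κ) = 0
      rw [e1, sub_self]
    have h3 : ∀ i i' : Fin n, i ≠ i' →
        ex p (fun x : Input n d => h (x (true, i)) * h (x (true, i'))) = 0 := by
      intro i i' hne
      rw [ex_resample p (true, i)]
      have h4 : (fun x : Input n d => ev p fun z =>
          h (Function.update x (true, i) z (true, i)) *
            h (Function.update x (true, i) z (true, i'))) = fun _ => 0 := by
        funext x
        have h5 : (fun z => h (Function.update x (true, i) z (true, i)) *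
            h (Function.update x (true, i) z (true, i'))) = fun z => h (x (true, i')) * h z := by
          funext z
          rw [Function.update_self, Function.update_of_ne (by
            intro hc
            exact hne (congrArg Prod.snd hc).symm)]
          ring
        rw [h5, ev_mul, hh, mul_zero]
      rw [h4]
      have h6 := ex_mul (n := n) (d := d) p 0 (fun _ => 1)
      simp only [zero_mul] at h6
      exact h6
    have h4 : ∀ i : Fin n,
        ex p (fun x : Input n d => h (x (true, i)) * h (x (true, i))) ≤ (1 - p) ^ w * m := by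
      intro i
      rw [ex_marg p (true, i) (fun u => h u * h u)]
      have h5 : ev p (fun u => h u * h u) = ev p (fun u => g1 u ^ 2) - (m - κ) ^ 2 := by
        have h6 : (fun u => h u * h u) =
            fun u => (g1 u ^ 2 - (2 * (m - κ)) * g1 u) + (m - κ) ^ 2 * 1 := by
          funext u
          show (g1 u - (m - κ)) * (g1 u - (m - κ)) = _
          ring
        rw [h6, ev_add, ev_sub, ev_mul, ev_mul, ev_one]
        have h7 : ev p (fun u => g1 u) = m - κ := e1
        rw [h7]
        ring
      have h6 : ev p (fun u => g1 u ^ 2) ≤ (1 - p) ^ w * m := by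
        have h7 : (fun u => g1 u ^ 2) =
            fun u : Vec d => gg p u ^ 2 * if w ≤ wt u then 1 else 0 := by
          funext u
          show (gg p u * (if w ≤ wt u then 1 else 0)) ^ 2 = _
          split_ifs <;> ring
        rw [h7]
        exact gg_sq_le h0 h1 w
      rw [h5]
      nlinarith [sq_nonneg (m - κ)]
    have h5 : (fun x => Y1 x ^ 2) = fun x : Input n d =>
        (n : ℝ) ^ 2 * ∑ i, ∑ i', h (x (true, i)) * h (x (true, i')) := by
      funext x
      show (n * ∑ i, h (x (true, i))) ^ 2 = _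
      rw [mul_pow, sq (∑ i, h (x (true, i))), Finset.sum_mul_sum]
    rw [h5, ex_mul, ex_sum]
    have h6 : ∑ i : Fin n, ex p (fun x : Input n d => ∑ i', h (x (true, i)) * h (x (true, i'))) ≤
        ∑ _i : Fin n, (1 - p) ^ w * m := by
      refine Finset.sum_le_sum fun i _ => ?_
      rw [ex_sum, Finset.sum_eq_single i (fun i' _ hne => h3 i i' (Ne.symm hne))
        (fun hc => absurd (Finset.mem_univ i) hc)]
      exact h4 i
    rw [Finset.sum_const, Finset.card_univ, Fintype.card_fin, nsmul_eq_mul] at h6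
    calc (n : ℝ) ^ 2 * ∑ i : Fin n, ex p (fun x : Input n d =>
          ∑ i', h (x (true, i)) * h (x (true, i'))) ≤ (n : ℝ) ^ 2 * (n * ((1 - p) ^ w * m)) :=
          mul_le_mul_of_nonneg_left h6 (sq_nonneg _)
      _ = n ^ 3 * (1 - p) ^ w * m := by ring
  · have h2 : ∀ x : Input n d, |Y2 x| ≤ n * ∑ i, (g2 (x (true, i)) + κ) := by
      intro x
      show |n * ∑ i, (g2 (x (true, i)) - κ)| ≤ _
      rw [abs_mul, abs_of_nonneg hn0]
      refine mul_le_mul_of_nonneg_left ((Finset.abs_sum_le_sum_abs _ _).trans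
        (Finset.sum_le_sum fun i _ => ?_)) hn0
      refine (abs_sub _ _).trans ?_
      rw [abs_of_nonneg (hg2 _), abs_of_nonneg hκ0]
    refine (ex_mono h0 h1 h2).trans ?_
    rw [ex_mul, ex_sum]
    have h3 : ∀ i : Fin n, ex p (fun x : Input n d => g2 (x (true, i)) + κ) = 2 * κ := by
      intro i
      have h4 := ex_marg (n := n) p (true, i) (fun u => g2 u + κ * 1)
      rw [ev_add, ev_mul, ev_one] at h4
      have h5 : ev p (fun u => g2 u) = κ := e2
      rw [h5] at h4
      have h6 : (fun x : Input n d => g2 (x (true, i)) + κ) =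
          fun x : Input n d => g2 (x (true, i)) + κ * 1 := by
        funext x
        ring
      rw [h6, h4]
      ring
    simp_rw [h3]
    rw [Finset.sum_const, Finset.card_univ, Fintype.card_fin, nsmul_eq_mul]
    apply le_of_eq
    ring

end Pool.Agent.H2.AV
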