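import Pool.Agent.H2.AV.Vc

/-!
# [H2 AV TEL] Telescoping over the rows

PROOF. `R_i = 1` if `cnt x i = 0`, else `0`; `S_i = exp(-(n gg(x (true,i))))`. By `no_pair` the indicator of no orthogonal pair is
`prod_i R_i`, and `exp(-(n sum_i gg)) = prod_i S_i`. `prod R - prod S = sum_i Z_i (R_i - S_i)`, `Z_i = prod_{i' < i} R_i' prod_{i' > i} S_i'`
(induction on partial products; `0 <= Z_i <= 1`; `Z_i` does not change if `x (true,i)` is changed, as `R_i', S_i'` for `i' <> i`
depend only on `x (false,.)` and `x (true,i')`). Let `r_i = R_i - 1 + cnt`, `t_i = S_i - 1 + n gg`: `0 <= r_i`, `r_i <= cnt (cnt - 1)/2`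
(`cnt` is a natural number, `cnt_nat`) and `r_i <= cnt`; `0 <= t_i`, `t_i <= (n gg)^2/2` and `t_i <= n gg` (`exp(-y) >= 1 - y`,
`exp(-y) <= 1 - y + y^2/2`, `exp(-y) <= 1` for `y >= 0`). So `acc Z_i (R_i - S_i) = - acc Z_i (cnt - n gg) + acc Z_i (r_i - t_i)`; the
first part is bounded by `E i`, and with `b = 1` if `w <= wt (x (true,i))` (else 0)
`|r_i - t_i| <= b (cnt (cnt - 1) + (n gg)^2)/2 + (1 - b)(cnt + n gg)`, whose expectation is `<= n^2 (1-p)^w (1-p^2)^d + 2 n kappa`
(`ex_cnt_mul`, `ex_cnt`, `ex_marg`, `gg_sq_le`). Sum over `i`: `n^3 (1-p)^w (1-p^2)^d + 2 n^2 kappa`.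
-/

set_option autoImplicit false

namespace Pool.Agent.H2.AV

variable {n d : ℕ} {p : ℝ}

private theorem exp_neg_le {y : ℝ} (hy : 0 ≤ y) : Real.exp (-y) ≤ 1 - y + y ^ 2 / 2 := by
  have h1 := Real.quadratic_le_exp_of_nonneg hy
  have h2 : 0 < 1 - y + y ^ 2 / 2 := by nlinarith [sq_nonneg (y - 1)]
  rw [Real.exp_neg, inv_le_iff_one_le_mul₀ (Real.exp_pos y)]
  have h3 : (1 - y + y ^ 2 / 2) * (1 + y + y ^ 2 / 2) ≤ (1 - y + y ^ 2 / 2) * Real.exp y :=
    mul_le_mul_of_nonneg_left h1 h2.le
  nlinarith [sq_nonneg (y ^ 2)]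

/-- the remainders -/
private theorem rem_le {c : ℝ} {m : ℕ} (hm : c = m) {y : ℝ} (hy : 0 ≤ y) :
    |((if c = 0 then (1 : ℝ) else 0) - 1 + c) - (Real.exp (-y) - 1 + y)| ≤
      (c * (c - 1) + y ^ 2) / 2 ∧
    |((if c = 0 then (1 : ℝ) else 0) - 1 + c) - (Real.exp (-y) - 1 + y)| ≤ c + y := by
  have h1 := exp_neg_le hy
  have h2 := Real.add_one_le_exp (-y)
  have h3 : Real.exp (-y) ≤ 1 := Real.exp_le_one_iff.2 (by linarith)
  have h4 : 0 ≤ (if c = 0 then (1 : ℝ) else 0) - 1 + c ∧
      (if c = 0 then (1 : ℝ) else 0) - 1 + c ≤ c * (c - 1) / 2 ∧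
      (if c = 0 then (1 : ℝ) else 0) - 1 + c ≤ c := by
    rw [hm]
    rcases Nat.eq_zero_or_pos m with h | h
    · rw [h]
      simp
    · have h5 : (m : ℝ) ≠ 0 := by exact_mod_cast h.ne'
      rw [if_neg h5]
      have h6 : (1 : ℝ) ≤ m := by exact_mod_cast h
      refine ⟨by linarith, ?_, by linarith⟩
      rcases Nat.lt_or_ge m 2 with h7 | h7
      · have h8 : m = 1 := by omega
        rw [h8]
        norm_num
      · have h8 : (2 : ℝ) ≤ m := by exact_mod_cast h7
        nlinarith
  obtain ⟨h5, h6, h7⟩ := h4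
  constructor
  · rw [abs_le]
    constructor
    · nlinarith
    · nlinarith
  · rw [abs_le]
    constructor
    · linarith
    · linarith

private theorem upd_true {x : Input n d} {i j : Fin n} (h : j ≠ i) (z : Vec d) :
    Function.update x (true, i) z (true, j) = x (true, j) :=
  Function.update_of_ne (fun hc => h (congrArg Prod.snd hc)) _ _

private theorem upd_false {x : Input n d} {i j : Fin n} (z : Vec d) :
    Function.update x (true, i) z (false, j) = x (false, j) :=
  Function.update_of_ne (by simp) _ _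

private theorem cnt_upd {x : Input n d} {i j : Fin n} (h : j ≠ i) (z : Vec d) :
    cnt (Function.update x (true, i) z) j = cnt x j := by
  unfold cnt
  refine Finset.sum_congr rfl fun k _ => ?_
  rw [upd_true h, upd_false]

open Classical in
theorem tel (h0 : 0 ≤ p) (h1 : p ≤ 1) (w : ℕ) (acc : Input n d → ℝ)
    (h01 : ∀ x, 0 ≤ acc x ∧ acc x ≤ 1) (E : Fin n → ℝ)
    (hE : ∀ (i : Fin n) (Z : Input n d → ℝ), (∀ x, 0 ≤ Z x ∧ Z x ≤ 1) →
      (∀ x z, Z (Function.update x (true, i) z) = Z x) →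
      |ex p (fun x => acc x * Z x * (cnt x i - n * gg p (x (true, i))))| ≤ E i) :
    |ex p (fun x => acc x * if HasOrthogonalPair x then 0 else 1) -
      ex p (fun x => acc x * Real.exp (-(n * ∑ i, gg p (x (true, i)))))| ≤
      ∑ i, E i + (n ^ 3 * (1 - p) ^ w * (1 - p ^ 2) ^ d + 2 * n ^ 2 * kappa d p w) := by
  obtain ⟨R, hR⟩ : ∃ R : Fin n → Input n d → ℝ, ∀ i x, R i x = if cnt x i = 0 then 1 else 0 :=
    ⟨_, fun _ _ => rfl⟩
  obtain ⟨S, hS⟩ : ∃ S : Fin n → Input n d → ℝ, ∀ i x,
      S i x = Real.exp (-(n * gg p (x (true, i)))) := ⟨_, fun _ _ => rfl⟩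
  have hR01 : ∀ i x, 0 ≤ R i x ∧ R i x ≤ 1 := by
    intro i x
    rw [hR]
    split_ifs <;> norm_num
  have hgn : ∀ (i : Fin n) (x : Input n d), 0 ≤ (n : ℝ) * gg p (x (true, i)) :=
    fun i x => mul_nonneg (Nat.cast_nonneg _) (gg_nonneg h1 _)
  have hS01 : ∀ i x, 0 ≤ S i x ∧ S i x ≤ 1 := by
    intro i x
    rw [hS]
    exact ⟨(Real.exp_pos _).le, Real.exp_le_one_iff.2 (by have := hgn i x; linarith)⟩
  have hprodR : ∀ x : Input n d, (if HasOrthogonalPair x then (0 : ℝ) else 1) = ∏ i, R i x := by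
    intro x
    by_cases h : HasOrthogonalPair x
    · rw [if_pos h]
      have h2 : ¬ ∀ i, cnt x i = 0 := fun hc => (no_pair x).2 hc h
      push Not at h2
      obtain ⟨i, hi⟩ := h2
      symm
      apply Finset.prod_eq_zero (Finset.mem_univ i)
      rw [hR, if_neg hi]
    · rw [if_neg h]
      have h2 := (no_pair x).1 h
      symm
      apply Finset.prod_eq_one
      intro i _
      rw [hR, if_pos (h2 i)]
  have hprodS : ∀ x : Input n d, Real.exp (-(n * ∑ i, gg p (x (true, i)))) = ∏ i, S i x := by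
    intro x
    rw [Finset.mul_sum, ← Finset.sum_neg_distrib, Real.exp_sum]
    exact Finset.prod_congr rfl fun i _ => (hS i x).symm
  obtain ⟨Z, hZ⟩ : ∃ Z : Fin n → Input n d → ℝ, ∀ i x, Z i x =
      (∏ j ∈ Finset.univ.filter (fun j => j < i), R j x) *
        ∏ j ∈ Finset.univ.filter (fun j => i < j), S j x := ⟨_, fun _ _ => rfl⟩
  have hZ01 : ∀ i x, 0 ≤ Z i x ∧ Z i x ≤ 1 := by
    intro i x
    rw [hZ]
    have a1 : 0 ≤ ∏ j ∈ Finset.univ.filter (fun j => j < i), R j x :=
      Finset.prod_nonneg fun j _ => (hR01 j x).1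
    have a2 : 0 ≤ ∏ j ∈ Finset.univ.filter (fun j => i < j), S j x :=
      Finset.prod_nonneg fun j _ => (hS01 j x).1
    have a3 : ∏ j ∈ Finset.univ.filter (fun j => j < i), R j x ≤ 1 :=
      Finset.prod_le_one (fun j _ => (hR01 j x).1) fun j _ => (hR01 j x).2
    have a4 : ∏ j ∈ Finset.univ.filter (fun j => i < j), S j x ≤ 1 :=
      Finset.prod_le_one (fun j _ => (hS01 j x).1) fun j _ => (hS01 j x).2
    exact ⟨mul_nonneg a1 a2, mul_le_one₀ a3 a2 a4⟩
  have hZu : ∀ i x z, Z i (Function.update x (true, i) z) = Z i x := by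
    intro i x z
    rw [hZ, hZ]
    congr 1
    · refine Finset.prod_congr rfl fun j hj => ?_
      rw [Finset.mem_filter] at hj
      rw [hR, hR, cnt_upd hj.2.ne]
    · refine Finset.prod_congr rfl fun j hj => ?_
      rw [Finset.mem_filter] at hj
      rw [hS, hS, upd_true hj.2.ne']
  have htel : ∀ x, ∏ i, R i x - ∏ i, S i x = ∑ i, (R i x - S i x) * Z i x := by
    intro x
    have h2 := Finset.prod_add_ordered (Finset.univ : Finset (Fin n)) (fun i => S i x)
      (fun i => R i x - S i x)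
    simp only [add_sub_cancel] at h2
    rw [h2, add_sub_cancel_left]
    refine Finset.sum_congr rfl fun i _ => ?_
    rw [hZ, mul_assoc]
  have hdiff : ex p (fun x => acc x * if HasOrthogonalPair x then 0 else 1) -
      ex p (fun x => acc x * Real.exp (-(n * ∑ i, gg p (x (true, i))))) =
      ∑ i, (ex p (fun x => acc x * Z i x * ((R i x - 1 + cnt x i) -
          (S i x - 1 + n * gg p (x (true, i))))) -
        ex p (fun x => acc x * Z i x * (cnt x i - n * gg p (x (true, i))))) := by
    rw [← ex_sub]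
    have e1 : ∀ i : Fin n, ex p (fun x => acc x * Z i x * ((R i x - 1 + cnt x i) -
          (S i x - 1 + n * gg p (x (true, i))))) -
        ex p (fun x => acc x * Z i x * (cnt x i - n * gg p (x (true, i)))) =
        ex p (fun x => acc x * Z i x * (R i x - S i x)) := by
      intro i
      rw [← ex_sub]
      congr 1
      funext x
      ring
    rw [Finset.sum_congr rfl fun i _ => e1 i, ← ex_sum]
    congr 1
    funext x
    rw [hprodR, hprodS, ← mul_sub, htel, Finset.mul_sum]
    refine Finset.sum_congr rfl fun i _ => ?_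
    ring
  rw [hdiff]
  refine (Finset.abs_sum_le_sum_abs _ _).trans ?_
  have hK : 0 ≤ kappa d p w := kappa_nonneg h0 h1 w
  have hone : ∀ i : Fin n, |ex p (fun x => acc x * Z i x * ((R i x - 1 + cnt x i) -
          (S i x - 1 + n * gg p (x (true, i))))) -
        ex p (fun x => acc x * Z i x * (cnt x i - n * gg p (x (true, i))))| ≤
      E i + ((n : ℝ) ^ 2 * ((1 - p) ^ w * (1 - p ^ 2) ^ d) + 2 * n * kappa d p w) := by
    intro i
    have a1 := hE i (Z i) (hZ01 i) (hZu i)
    have a2 : |ex p (fun x => acc x * Z i x * ((R i x - 1 + cnt x i) -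
          (S i x - 1 + n * gg p (x (true, i)))))| ≤
        (n : ℝ) ^ 2 * ((1 - p) ^ w * (1 - p ^ 2) ^ d) + 2 * n * kappa d p w := by
      refine (abs_ex_le h0 h1 _).trans ?_
      have b1 : ∀ x : Input n d, |acc x * Z i x * ((R i x - 1 + cnt x i) -
          (S i x - 1 + n * gg p (x (true, i))))| ≤
          (1 / 2) * (cnt x i * (cnt x i - 1) * (if w ≤ wt (x (true, i)) then (1 : ℝ) else 0)) +
          ((n : ℝ) ^ 2 / 2) * (gg p (x (true, i)) ^ 2 * (if w ≤ wt (x (true, i)) then (1 : ℝ) else 0)) +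
          (cnt x i * (if wt (x (true, i)) < w then (1 : ℝ) else 0) +
            (n : ℝ) * (gg p (x (true, i)) * (if wt (x (true, i)) < w then (1 : ℝ) else 0))) := by
        intro x
        obtain ⟨m, hm⟩ := cnt_nat x i
        obtain ⟨c1, c2⟩ := rem_le hm (hgn i x)
        rw [← hR, ← hS] at c1 c2
        have c3 : |acc x * Z i x * ((R i x - 1 + cnt x i) -
            (S i x - 1 + n * gg p (x (true, i))))| ≤
            |(R i x - 1 + cnt x i) - (S i x - 1 + n * gg p (x (true, i)))| := by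
          rw [abs_mul]
          have d1 : |acc x * Z i x| ≤ 1 := by
            rw [abs_of_nonneg (mul_nonneg (h01 x).1 (hZ01 i x).1)]
            exact mul_le_one₀ (h01 x).2 (hZ01 i x).1 (hZ01 i x).2
          have d2 := mul_le_mul_of_nonneg_right d1
            (abs_nonneg ((R i x - 1 + cnt x i) - (S i x - 1 + n * gg p (x (true, i)))))
          rw [one_mul] at d2
          exact d2
        refine c3.trans ?_
        by_cases hw : w ≤ wt (x (true, i))
        · rw [if_pos hw, if_neg (by omega)]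
          refine c1.trans (le_of_eq ?_)
          ring
        · rw [if_neg hw, if_pos (by omega)]
          refine c2.trans (le_of_eq ?_)
          ring
      refine (ex_mono h0 h1 b1).trans ?_
      rw [ex_add, ex_add, ex_mul, ex_mul, ex_add, ex_mul]
      have b2 := ex_cnt_mul h0 h1 i (fun u : Vec d => if w ≤ wt u then (1 : ℝ) else 0)
        (fun u => by split_ifs <;> norm_num)
      have b3 := gg_sq_le (d := d) h0 h1 w
      have b4 := ex_cnt (d := d) p i (fun u : Vec d => if wt u < w then (1 : ℝ) else 0)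
      have b5 := ex_marg (n := n) (d := d) p (true, i)
        (fun u : Vec d => gg p u ^ 2 * if w ≤ wt u then (1 : ℝ) else 0)
      have b6 := ex_marg (n := n) (d := d) p (true, i)
        (fun u : Vec d => gg p u * if wt u < w then (1 : ℝ) else 0)
      rw [b4, b5, b6]
      have b7 : ev p (fun u : Vec d => gg p u * if wt u < w then (1 : ℝ) else 0) = kappa d p w := rfl
      rw [b7]
      have b8 : (0 : ℝ) ≤ (n : ℝ) ^ 2 := sq_nonneg _
      have b9 := mul_le_mul_of_nonneg_left b3 b8
      nlinarith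
    have a3 := abs_sub (ex p (fun x => acc x * Z i x * ((R i x - 1 + cnt x i) -
          (S i x - 1 + n * gg p (x (true, i))))))
        (ex p (fun x => acc x * Z i x * (cnt x i - n * gg p (x (true, i)))))
    linarith
  refine (Finset.sum_le_sum fun i _ => hone i).trans (le_of_eq ?_)
  rw [Finset.sum_add_distrib, Finset.sum_const, Finset.card_univ, Fintype.card_fin, nsmul_eq_mul]
  ring

end Pool.Agent.H2.AV
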