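import Pool.Agent.H2.AV.Row
import Pool.Agent.H2.AV.Tel
import Pool.Agent.H2.AV.Cnc

/-!
# [H2 AV COR] The output is nearly independent of the existence of an orthogonal pair

PROOF. `tel` with `E i = (L + n s^2 (1-p)^w (1-p^2)^d)/s + 2 n kappa` for `i` in `G` (`row`, monotone in the logarithm) and
`E i = 2 n (1-p^2)^d` for the other `i`: `|acc Z (cnt - n gg)| <= cnt + n gg`, expectation `2 n (1-p^2)^d` (`ex_cnt` with `f = 1`,
`ex_marg`, `ev_gg`). `sum_i E i = card G * first + (n - card G) * second <= n * first + ..` (the first is `>= 0`: `L >= 0`,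
`kappa >= 0`). Then `|ex (acc exp(-a)) - exp(-b) ex acc| <= ex |exp(-a) - exp(-b)|` and `cnc`.
-/

set_option autoImplicit false

namespace Pool.Agent.H2.AV

variable {n d : ℕ} {p : ℝ}

/-- the error bound; `g` is the number of the rows outside `G` -/
noncomputable def err (p : ℝ) (n d w : ℕ) (s L g : ℝ) : ℝ :=
  n * ((L + n * s ^ 2 * (1 - p) ^ w * (1 - p ^ 2) ^ d) / s + 2 * n * kappa d p w) +
    g * (2 * n * (1 - p ^ 2) ^ d) +
    (n ^ 3 * (1 - p) ^ w * (1 - p ^ 2) ^ d + 2 * n ^ 2 * kappa d p w) +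
    (Real.sqrt (n ^ 3 * (1 - p) ^ w * (1 - p ^ 2) ^ d) + 2 * n ^ 2 * kappa d p w)

open Classical in
theorem core (h0 : 0 ≤ p) (h1 : p ≤ 1) (w : ℕ) {s L : ℝ} (hs : 0 < s) (hL : 0 ≤ L)
    (hsM : s * (1 - p) ^ w ≤ 1) (acc : Input n d → ℝ) (h01 : ∀ x, 0 ≤ acc x ∧ acc x ≤ 1)
    (G : Finset (Fin n))
    (hfam : ∀ i ∈ G, ∃ (S : Type) (_ : Fintype S) (_ : Nonempty S) (sg : Input n d → S)
      (h : S → Vec d → ℝ), (∀ t z, 0 ≤ h t z ∧ h t z ≤ 1) ∧
        Real.log (2 * Fintype.card S) ≤ L ∧
        ∀ x z, acc (Function.update x (true, i) z) = h (sg x) z) :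
    |ex p (fun x => acc x * if HasOrthogonalPair x then 0 else 1) -
      Real.exp (-((n : ℝ) ^ 2 * (1 - p ^ 2) ^ d)) * ex p acc| ≤
      err p n d w s L (n - G.card) := by
  set m : ℝ := (1 - p ^ 2) ^ d with hm
  set κ : ℝ := kappa d p w with hκ
  have hm0 : 0 ≤ m := pow_nonneg (by nlinarith) _
  have hκ0 : 0 ≤ κ := kappa_nonneg h0 h1 w
  have hn0 : (0 : ℝ) ≤ n := Nat.cast_nonneg _
  have hw0 : 0 ≤ (1 - p) ^ w := pow_nonneg (by linarith) _
  set first : ℝ := (L + n * s ^ 2 * (1 - p) ^ w * m) / s + 2 * n * κ with hfirst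
  set second : ℝ := 2 * n * m with hsecond
  have hf0 : 0 ≤ first := by positivity
  have hs0 : 0 ≤ second := by positivity
  let E : Fin n → ℝ := fun i => if i ∈ G then first else second
  have hE : ∀ (i : Fin n) (Z : Input n d → ℝ), (∀ x, 0 ≤ Z x ∧ Z x ≤ 1) →
      (∀ x z, Z (Function.update x (true, i) z) = Z x) →
      |ex p (fun x => acc x * Z x * (cnt x i - n * gg p (x (true, i))))| ≤ E i := by
    intro i Z hZ1 hZ
    by_cases hi : i ∈ G
    · obtain ⟨S, hSf, hSn, sg, h, hh, hL', hacc⟩ := hfam i hi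
      have h2 := row h0 h1 i w hs hsM h hh sg acc Z hacc hZ1 hZ
      have h3 : E i = first := if_pos hi
      rw [h3]
      refine h2.trans (add_le_add ?_ le_rfl)
      exact div_le_div_of_nonneg_right (add_le_add hL' le_rfl) hs.le
    · have h3 : E i = second := if_neg hi
      rw [h3]
      refine (abs_ex_le h0 h1 _).trans ?_
      have hcn : ∀ x : Input n d, 0 ≤ cnt x i := fun x =>
        Finset.sum_nonneg fun j _ => oi_nonneg _ _
      have h4 : ∀ x : Input n d, |acc x * Z x * (cnt x i - n * gg p (x (true, i)))| ≤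
          cnt x i * 1 + n * gg p (x (true, i)) := by
        intro x
        rw [abs_mul, abs_of_nonneg (mul_nonneg (h01 x).1 (hZ1 x).1), mul_one]
        have h5 : acc x * Z x ≤ 1 := mul_le_one₀ (h01 x).2 (hZ1 x).1 (hZ1 x).2
        have h6 : |cnt x i - n * gg p (x (true, i))| ≤ cnt x i + n * gg p (x (true, i)) := by
          refine (abs_sub _ _).trans ?_
          rw [abs_of_nonneg (hcn x), abs_of_nonneg (mul_nonneg hn0 (gg_nonneg h1 _))]
        calc acc x * Z x * |cnt x i - n * gg p (x (true, i))|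
            ≤ 1 * |cnt x i - n * gg p (x (true, i))| :=
              mul_le_mul_of_nonneg_right h5 (abs_nonneg _)
          _ ≤ _ := by rw [one_mul]; exact h6
      refine (ex_mono h0 h1 h4).trans ?_
      rw [ex_add, ex_mul]
      have h7 := ex_cnt (n := n) (d := d) p i (fun _ => 1)
      simp only [mul_one] at h7 ⊢
      rw [h7, ex_marg p (true, i) (fun u => gg p u), ev_gg]
      apply le_of_eq
      rw [hsecond, hm]
      ring
  have htel := tel h0 h1 w acc h01 E hE
  have hsum : ∑ i, E i ≤ n * first + (n - G.card) * second := by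
    have h2 : ∑ i, E i = G.card * first + (n - G.card : ℝ) * second := by
      show ∑ i, (if i ∈ G then first else second) = _
      rw [Finset.sum_ite, Finset.sum_const, Finset.sum_const]
      have h3 : (Finset.univ.filter fun i => i ∈ G) = G := by
        ext i
        simp
      have h4 : (Finset.univ.filter fun i => i ∉ G) = Gᶜ := by
        ext i
        simp
      rw [h3, h4, Finset.card_compl, Fintype.card_fin, nsmul_eq_mul, nsmul_eq_mul,
        Nat.cast_sub (by
          have := Finset.card_le_univ G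
          rwa [Fintype.card_fin] at this)]
    rw [h2]
    have h5 : (G.card : ℝ) ≤ n := by
      have := Finset.card_le_univ G
      rw [Fintype.card_fin] at this
      exact_mod_cast this
    have h6 := mul_le_mul_of_nonneg_right h5 hf0
    linarith
  have hcnc := cnc (n := n) (d := d) h0 h1 w
  have hlast : |ex p (fun x => acc x * Real.exp (-(n * ∑ i, gg p (x (true, i))))) -
      Real.exp (-((n : ℝ) ^ 2 * m)) * ex p acc| ≤
      Real.sqrt (n ^ 3 * (1 - p) ^ w * m) + 2 * n ^ 2 * κ := by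
    have h2 : ex p (fun x => acc x * Real.exp (-(n * ∑ i, gg p (x (true, i))))) -
        Real.exp (-((n : ℝ) ^ 2 * m)) * ex p acc =
        ex p (fun x => acc x * (Real.exp (-(n * ∑ i, gg p (x (true, i)))) -
          Real.exp (-((n : ℝ) ^ 2 * m)))) := by
      rw [← ex_mul, ← ex_sub]
      congr 1
      funext x
      ring
    rw [h2]
    refine (abs_ex_le h0 h1 _).trans (le_trans (ex_mono h0 h1 fun x => ?_) hcnc)
    rw [abs_mul, abs_of_nonneg (h01 x).1]
    calc acc x * |Real.exp (-(n * ∑ i, gg p (x (true, i)))) - Real.exp (-((n : ℝ) ^ 2 * m))|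
        ≤ 1 * |Real.exp (-(n * ∑ i, gg p (x (true, i)))) - Real.exp (-((n : ℝ) ^ 2 * m))| :=
          mul_le_mul_of_nonneg_right (h01 x).2 (abs_nonneg _)
      _ = _ := one_mul _
  have hfin : |ex p (fun x => acc x * if HasOrthogonalPair x then 0 else 1) -
      Real.exp (-((n : ℝ) ^ 2 * m)) * ex p acc| ≤
      (∑ i, E i + (n ^ 3 * (1 - p) ^ w * m + 2 * n ^ 2 * κ)) +
        (Real.sqrt (n ^ 3 * (1 - p) ^ w * m) + 2 * n ^ 2 * κ) := by
    have h2 : ex p (fun x => acc x * if HasOrthogonalPair x then 0 else 1) -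
        Real.exp (-((n : ℝ) ^ 2 * m)) * ex p acc =
        (ex p (fun x => acc x * if HasOrthogonalPair x then 0 else 1) -
          ex p (fun x => acc x * Real.exp (-(n * ∑ i, gg p (x (true, i)))))) +
        (ex p (fun x => acc x * Real.exp (-(n * ∑ i, gg p (x (true, i))))) -
          Real.exp (-((n : ℝ) ^ 2 * m)) * ex p acc) := by ring
    rw [h2]
    exact (abs_add_le _ _).trans (add_le_add htel hlast)
  refine hfin.trans ?_
  unfold err
  rw [← hm, ← hκ]
  rw [hfirst, hsecond] at hsum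
  linarith

end Pool.Agent.H2.AV
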