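import Pool.Agent.H2.AV.Mch

/-!
# [H2 AV CST] The cost of the machine

PROOF. All routines have `size = 0` and one end with `looks = 0`, so the cost is `sum_u K * card {z // RoutineSees z u}`. For
`u = q q (d+3)` use `card <= card (Pos n) = 2 n`. For `u < q q (d+3)`: if the routine `u` sees `z` then `upSel d h q u z`: either `upF` depends
on the vector at `z` (then `upSel d h q u z`), or `upW d q u t <> 0` for some `t < u` which sees `z`: then `t/(d+3) = u/(d+3)` and
`t < q q (d+3)`; strong induction on `u` gives `upSel d h q t z`, which is the same as `upSel d h q u z`. The number of `z` with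
`upSel d h q u z` is at most `2 h`: for each side the `i` with `i/h = a` lie in `[a h, a h + h)` (`h >= 1`).
-/

set_option autoImplicit false

namespace Pool.Agent.H2.AV

variable {n d : ℕ}

private theorem sees_end (low : Vec d → Prop) (h q : ℕ) (z : Pos n) (u : ℕ)
    (hz : (up n low h q).RoutineSees z u) :
    (∃ a a', upF low h q u z a ≠ upF low h q u z a') ∨
      ∃ t : Fin u, upW d q u t ≠ 0 ∧ (up n low h q).RoutineSees z t := by
  rcases hz with ⟨v, _⟩ | ⟨e, he⟩
  · exact v.elim0
  · rw [Machine.Sees] at he
    rcases he with ⟨l, _⟩ | ⟨y, a, a', hne⟩ | ⟨t, ht, hs⟩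
    · exact l.elim0
    · exact Or.inl ⟨a, a', hne⟩
    · exact Or.inr ⟨t, ht, hs⟩

private theorem sel_of_sees (low : Vec d → Prop) (h q : ℕ) (z : Pos n) : ∀ u : ℕ,
    u < q * q * (d + 3) → (up n low h q).RoutineSees z u → upSel d h q u z := by
  intro u
  induction u using Nat.strong_induction_on with
  | _ u ih =>
    intro hu hz
    rcases sees_end low h q z u hz with ⟨a, a', hne⟩ | ⟨t, ht, hs⟩
    · by_contra hcon
      apply hne
      unfold upF
      rw [if_neg (fun hc => hcon hc.1), if_neg (fun hc => hcon hc.1)]
    · have ht2 : (t : ℕ) < u := t.2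
      have hsel := ih t ht2 (ht2.trans hu) hs
      unfold upW at ht
      rw [if_neg hu.ne] at ht
      have hc : u % (d + 3) = d + 2 ∧ (t : ℕ) / (d + 3) = u / (d + 3) := by
        by_contra hcon
        rw [if_neg hcon] at ht
        exact ht rfl
      refine ⟨hu, ?_⟩
      rw [← hc.2]
      exact hsel.2

private theorem card_group {h : ℕ} (hh : 1 ≤ h) (a : ℕ) :
    (Finset.univ.filter fun i : Fin n => (i : ℕ) / h = a).card ≤ h := by
  have h2 : ((Finset.univ.filter fun i : Fin n => (i : ℕ) / h = a).image
      (fun i : Fin n => (i : ℕ))) ⊆ Finset.Ico (a * h) (a * h + h) := by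
    intro k hk
    rw [Finset.mem_image] at hk
    obtain ⟨i, hi, rfl⟩ := hk
    rw [Finset.mem_filter] at hi
    rw [Finset.mem_Ico]
    have h3 := hi.2
    rw [Nat.div_eq_iff (by omega)] at h3
    omega
  have h3 := Finset.card_le_card h2
  rw [Nat.card_Ico, Finset.card_image_of_injective _ Fin.val_injective] at h3
  omega

private theorem card_sel {h : ℕ} (hh : 1 ≤ h) (q u : ℕ) :
    Nat.card {z : Pos n // upSel d h q u z} ≤ 2 * h := by
  classical
  rw [Nat.card_eq_fintype_card, Fintype.card_subtype]
  set a := (u / (d + 3)) / q with ha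
  set b := (u / (d + 3)) % q with hb
  have h1 : (Finset.univ.filter fun z : Pos n => upSel d h q u z) ⊆
      ((Finset.univ.filter fun i : Fin n => (i : ℕ) / h = a).image fun i => (false, i)) ∪
      ((Finset.univ.filter fun i : Fin n => (i : ℕ) / h = b).image fun i => (true, i)) := by
    intro z hz
    rw [Finset.mem_filter] at hz
    obtain ⟨_, _, hz2⟩ := hz
    obtain ⟨s, i⟩ := z
    rw [Finset.mem_union]
    cases s
    · left
      rw [Finset.mem_image]
      refine ⟨i, ?_, rfl⟩
      rw [Finset.mem_filter]
      refine ⟨Finset.mem_univ _, ?_⟩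
      simpa using hz2
    · right
      rw [Finset.mem_image]
      refine ⟨i, ?_, rfl⟩
      rw [Finset.mem_filter]
      refine ⟨Finset.mem_univ _, ?_⟩
      simpa using hz2
  refine (Finset.card_le_card h1).trans ((Finset.card_union_le _ _).trans ?_)
  have h2 := (Finset.card_image_le (s := Finset.univ.filter fun i : Fin n => (i : ℕ) / h = a)
    (f := fun i => ((false, i) : Pos n))).trans (card_group hh a)
  have h3 := (Finset.card_image_le (s := Finset.univ.filter fun i : Fin n => (i : ℕ) / h = b)
    (f := fun i => ((true, i) : Pos n))).trans (card_group hh b)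
  omega

theorem up_cost (low : Vec d → Prop) {h : ℕ} (hh : 1 ≤ h) (q K : ℕ) :
    (up n low h q).cost K ≤ K * (q * q * (d + 3) * (2 * h) + 2 * n) := by
  classical
  have hcost : (up n low h q).cost K = ∑ u : Fin (q * q * (d + 3) + 1),
      K * Nat.card {z // (up n low h q).RoutineSees z u} := by
    unfold Machine.cost
    show (∑ u : Fin (q * q * (d + 3) + 1), _) = _
    apply Finset.sum_congr rfl
    intro u _
    have e1 : (∑ v : Fin ((up n low h q).routine u).size,
        ((((up n low h q).routine u).view v).looks + ((up n low h q).routine u).outcomes v + K) *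
        Nat.card {p // (up n low h q).Sees p u (((up n low h q).routine u).view v)}) = 0 := by
      apply Finset.sum_eq_zero
      intro v _
      exact v.elim0
    have e2 : (∑ e : Fin ((up n low h q).routine u).ends,
        ((((up n low h q).routine u).endView e).looks + K) *
          Nat.card {p // (up n low h q).RoutineSees p u}) =
        K * Nat.card {z // (up n low h q).RoutineSees z u} := by
      show (∑ _e : Fin 1, (0 + K) * Nat.card {p // (up n low h q).RoutineSees p u}) = _
      rw [Fin.sum_univ_one, zero_add]
    rw [e1, e2, zero_add]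
  rw [hcost, Fin.sum_univ_castSucc]
  have hlast : K * Nat.card {z // (up n low h q).RoutineSees z (Fin.last (q * q * (d + 3)))} ≤
      K * (2 * n) := by
    apply Nat.mul_le_mul_left
    have h2 : Nat.card (Pos n) = 2 * n := by
      rw [Nat.card_eq_fintype_card]
      simp
    rw [← h2]
    exact Nat.card_le_card_of_injective Subtype.val Subtype.val_injective
  have hrest : ∑ u : Fin (q * q * (d + 3)),
      K * Nat.card {z // (up n low h q).RoutineSees z (Fin.castSucc u)} ≤
      q * q * (d + 3) * (K * (2 * h)) := by
    have h3 : ∀ u : Fin (q * q * (d + 3)),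
        K * Nat.card {z // (up n low h q).RoutineSees z (Fin.castSucc u)} ≤ K * (2 * h) := by
      intro u
      apply Nat.mul_le_mul_left
      refine le_trans ?_ (card_sel (n := n) (d := d) hh q u)
      apply Nat.card_le_card_of_injective
        (fun z : {z // (up n low h q).RoutineSees z (Fin.castSucc u)} =>
          (⟨z.1, sel_of_sees low h q z.1 u u.2 z.2⟩ : {z : Pos n // upSel d h q u z}))
      intro z z' hzz
      apply Subtype.ext
      exact congrArg (fun a : {z : Pos n // upSel d h q u z} => a.1) hzz
    calc ∑ u : Fin (q * q * (d + 3)),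
          K * Nat.card {z // (up n low h q).RoutineSees z (Fin.castSucc u)}
        ≤ ∑ _u : Fin (q * q * (d + 3)), K * (2 * h) := Finset.sum_le_sum fun u _ => h3 u
      _ = q * q * (d + 3) * (K * (2 * h)) := by
          rw [Finset.sum_const, Finset.card_univ, Fintype.card_fin, smul_eq_mul]
  calc _ ≤ q * q * (d + 3) * (K * (2 * h)) + K * (2 * n) := Nat.add_le_add hrest hlast
    _ = K * (q * q * (d + 3) * (2 * h) + 2 * n) := by ring

end Pool.Agent.H2.AV
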