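import Mathlib

/-!
# Random instances of Orthogonal Vectors (MP_0f984e_lc, H2/AV): definitions

The machines are those of `HybridMachines` (text of helper22 and helper58).
-/

set_option autoImplicit false

namespace Pool.Agent.H2.AV

/-! ### Orthogonal Vectors -/

/-- Positions of the `2n` input vectors: `(false, i)` is the `i`-th vector of `A`, and
`(true, j)` is the `j`-th vector of `B`. -/
abbrev Pos (n : ℕ) : Type := Bool × Fin n

/-- Vectors in `{0,1}^d`. -/
abbrev Vec (d : ℕ) : Type := Fin d → Bool

/-- An input: `n` vectors of `A` and `n` vectors of `B`, all in `{0,1}^d`. -/
abbrev Input (n d : ℕ) : Type := Pos n → Vec d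

/-- The answer to the Orthogonal Vectors question: some vector of `A` and some vector of `B` have
inner product `0` over the integers. -/
def HasOrthogonalPair {n d : ℕ} (x : Input n d) : Prop :=
  ∃ i j : Fin n, ∑ k : Fin d, (x (false, i) k).toNat * (x (true, j) k).toNat = 0

/-! ### Machines -/

/-- A view, which consists of `looks` whole vectors `y 0, y 1, ...` of the input `x`, those at the
positions `pos 0, pos 1, ...`, and of one real number: the sum of arbitrary real functions
`vec p y (x p)` over all positions `p` plus an arbitrary real linear combination of the results
of the routines `0, 1, 2, ...` (see below) with the coefficients `weight 0, weight 1, ...`. -/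
structure View (n d : ℕ) where
  /-- the number of whole vectors which are looked at -/
  looks : ℕ
  /-- the positions of these vectors -/
  pos : Fin looks → Pos n
  /-- the function of these vectors and of the vector at `p` -/
  vec : Pos n → (Fin looks → Vec d) → Vec d → ℝ
  /-- the coefficients of the results of the earlier routines -/
  weight : ℕ → ℝ

/-- A routine is a branching program with `size` inner nodes and `ends` ends. The inner node `v`
has the view `view v`, evaluates a function `query v` of it with `outcomes v` possible values, and
moves, according to the value, to an inner node or to an end. Cycles are allowed. At the end `e`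
the result of the routine is the real number `act e` of the view `endView e`. -/
structure Routine (n d : ℕ) where
  /-- the number of inner nodes -/
  size : ℕ
  /-- the number of ends -/
  ends : ℕ
  /-- the view of each inner node -/
  view : Fin size → View n d
  /-- the number of possible values of the function which is evaluated -/
  outcomes : Fin size → ℕ
  /-- the function which is evaluated -/
  query : (v : Fin size) → (Fin (view v).looks → Vec d) → ℝ → Fin (outcomes v)
  /-- the next inner node, or an end -/
  next : (v : Fin size) → Fin (outcomes v) → Fin size ⊕ Fin ends
  /-- the start: an inner node, or an end -/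
  start : Fin size ⊕ Fin ends
  /-- the view of each end -/
  endView : Fin ends → View n d
  /-- the result in each end -/
  act : (e : Fin ends) → (Fin (endView e).looks → Vec d) → ℝ → ℝ

/-- A machine: the routines `0, 1, ..., last`. -/
structure Machine (n d : ℕ) where
  /-- the number of the last routine -/
  last : ℕ
  /-- the routines -/
  routine : ℕ → Routine n d

variable {n d : ℕ}

/-- The whole vectors which are looked at, on input `x`. -/
def View.look (V : View n d) (x : Input n d) : Fin V.looks → Vec d := fun l => x (V.pos l)

/-- The real number of a view, on input `x`, if the routines `t < u` have the results `r t`. -/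
def View.real (V : View n d) (x : Input n d) {u : ℕ} (r : Fin u → ℝ) : ℝ :=
  ∑ p, V.vec p (V.look x) (x p) + ∑ t : Fin u, V.weight t * r t

/-- The value computed at the inner node `v`. -/
def Routine.answer (P : Routine n d) (x : Input n d) {u : ℕ} (r : Fin u → ℝ) (v : Fin P.size) :
    Fin (P.outcomes v) :=
  P.query v ((P.view v).look x) ((P.view v).real x r)

/-- One step of the computation of a routine; ends are final. -/
def Routine.step (P : Routine n d) (x : Input n d) {u : ℕ} (r : Fin u → ℝ) :
    Fin P.size ⊕ Fin P.ends → Fin P.size ⊕ Fin P.ends
  | Sum.inl v => P.next v (P.answer x r v)
  | Sum.inr e => Sum.inr e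

/-- The computation of the routine reaches the end `e` (there is at most one such end). -/
def Routine.Reaches (P : Routine n d) (x : Input n d) {u : ℕ} (r : Fin u → ℝ)
    (e : Fin P.ends) : Prop :=
  ∃ t : ℕ, (P.step x r)^[t] P.start = Sum.inr e

open Classical in
/-- The result of a routine: `act e` of the view of the end `e` which is reached, and `0` if the
computation is endless. -/
noncomputable def Routine.value (P : Routine n d) (x : Input n d) {u : ℕ} (r : Fin u → ℝ) : ℝ :=
  ∑ e, if P.Reaches x r e then P.act e ((P.endView e).look x) ((P.endView e).real x r) else 0

/-- The result of the routine `u` of a machine on input `x`; routine `u` may use the results of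
the routines `t < u`. -/
noncomputable def Machine.result (M : Machine n d) (x : Input n d) (u : ℕ) : ℝ :=
  (M.routine u).value x fun t : Fin u => M.result x t
termination_by u
decreasing_by exact t.2

/-- The machine accepts iff the result of its last routine is positive, and it answers the
Orthogonal Vectors question correctly on input `x` if it accepts iff there is an orthogonal
pair. -/
def Machine.CorrectOn (M : Machine n d) (x : Input n d) : Prop :=
  0 < M.result x M.last ↔ HasOrthogonalPair x

/-- A step function with at most `J` jumps: it is constant on every closed interval which avoids
a certain set of at most `J` numbers. -/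
def IsStep {α : Type} (J : ℕ) (f : ℝ → α) : Prop :=
  ∃ D : Finset ℝ, D.card ≤ J ∧ ∀ a b, a ≤ b → (∀ y ∈ D, y < a ∨ b < y) → f a = f b

/-- All functions `query v y` and `act e y` of a machine are step functions with at most `J`
jumps. -/
def Machine.Steps (M : Machine n d) (J : ℕ) : Prop :=
  ∀ u ≤ M.last, (∀ v y, IsStep J ((M.routine u).query v y)) ∧
    ∀ e y, IsStep J ((M.routine u).act e y)

/-- The view `V`, which belongs to the routine `u`, sees the position `p`: it looks at `p`, or
its function of the vector at `p` is not constant (for some vectors `y` which are looked at), or it
uses, with a nonzero coefficient, the result of an earlier routine of which some inner node or end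
has a view which sees `p`. -/
def Machine.Sees (M : Machine n d) (p : Pos n) (u : ℕ) (V : View n d) : Prop :=
  (∃ l, V.pos l = p) ∨ (∃ y a a', V.vec p y a ≠ V.vec p y a') ∨
  ∃ t : Fin u, V.weight t ≠ 0 ∧ ((∃ v, M.Sees p t ((M.routine t).view v)) ∨
    ∃ e, M.Sees p t ((M.routine t).endView e))
termination_by u
decreasing_by all_goals exact t.2

/-- The routine `u` sees the position `p`: the view of one of its inner nodes or ends does. -/
def Machine.RoutineSees (M : Machine n d) (p : Pos n) (u : ℕ) : Prop :=
  (∃ v, M.Sees p u ((M.routine u).view v)) ∨ ∃ e, M.Sees p u ((M.routine u).endView e)

/-- The cost of a machine: every inner node costs `looks + outcomes + K` for each position which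
its view sees, and every end costs `looks + K` for each position which its routine sees. -/
noncomputable def Machine.cost (M : Machine n d) (K : ℕ) : ℕ :=
  ∑ u : Fin (M.last + 1),
    (∑ v, (((M.routine u).view v).looks + (M.routine u).outcomes v + K) *
        Nat.card {p // M.Sees p u ((M.routine u).view v)} +
      ∑ e, (((M.routine u).endView e).looks + K) * Nat.card {p // M.RoutineSees p u})

/-! ### Random inputs -/

/-- The probability of the input `x` if all its bits are independent and equal to `1` with
probability `p`. -/
def bern (p : ℝ) (x : Input n d) : ℝ := ∏ q, ∏ k, if x q k then p else 1 - p

/-- The expectation of `F x` for a random input `x` with independent bits of density `p`. -/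
def ex (p : ℝ) (F : Input n d → ℝ) : ℝ := ∑ x, bern p x * F x

open Classical in
/-- The probability of an event for a random input with independent bits of density `p`. -/
noncomputable def prob (p : ℝ) (S : Input n d → Prop) : ℝ := ex p fun x => if S x then 1 else 0

/-- The exponent of the average-case complexity of Orthogonal Vectors at the density `p`. -/
noncomputable def alpha (p : ℝ) : ℝ :=
  2 * p * Real.log (1 - p) / ((1 + p) * Real.log (1 - p ^ 2))

end Pool.Agent.H2.AV
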