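import Pool.Agent.H2.AV.Fam

/-!
# [H2 AV FLG] Logarithm of the size of the family

PROOF. `fam`. Let `a = share M K q = nOut + nLook + K V + P` (`V = card ViewsAt`, `P = card PairsAt`, `R = card RoutinesAt <= V`,
`card_routinesAt_le`), so `V <= a` (`K >= 1`), `nOut + R <= a`, `nLook + P <= a`, `K V <= a`. With `J = n^K`, `n >= 1`:
`2 J 2^d + 1 <= 3 n^K 2^d`, so `log(2 card) = (nOut + R) log(V+1) + (nLook + P) d log 2 + V log(2 J 2^d + 1) + 2 log 2`
`<= a log(a+1) + a d + (V log 3 + V K log n + V d) + 2 <= a (log(a+1) + 2 d + log n + 2) + 2` (`log 2 <= 1`, `log 3 <= 2`).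
-/

set_option autoImplicit false

namespace Pool.Agent.H2.AV

variable {n d : ℕ}

private theorem log_two_le : Real.log 2 ≤ 1 := by
  have := Real.log_le_sub_one_of_pos (show (0 : ℝ) < 2 by norm_num)
  linarith

private theorem log_three_le : Real.log 3 ≤ 2 := by
  have := Real.log_le_sub_one_of_pos (show (0 : ℝ) < 3 by norm_num)
  linarith

private theorem log_card_le (V o R l P K d n : ℕ) (hK : 1 ≤ K) (hn : 1 ≤ n) (hR : R ≤ V) :
    Real.log (2 * (((V + 1) ^ o * ((V + 1) ^ R * ((2 ^ d) ^ l *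
      ((2 * (n ^ K * 2 ^ d) + 1) ^ V * ((2 ^ d) ^ P * 2)))) : ℕ) : ℝ)) ≤
      ((o + l + K * V + P : ℕ) : ℝ) *
        (Real.log (((o + l + K * V + P : ℕ) : ℝ) + 1) + 2 * d + Real.log n + 2) + 2 := by
  have hnR : (1 : ℝ) ≤ n := by exact_mod_cast hn
  have hn0 : (0 : ℝ) < n := by linarith
  push_cast
  rw [Real.log_mul (by norm_num) (by positivity), Real.log_mul (by positivity) (by positivity),
    Real.log_mul (by positivity) (by positivity), Real.log_mul (by positivity) (by positivity),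
    Real.log_mul (by positivity) (by positivity), Real.log_mul (by positivity) (by norm_num)]
  simp only [Real.log_pow]
  have h2 := log_two_le
  have h20 : 0 ≤ Real.log 2 := Real.log_nonneg (by norm_num)
  have h3 := log_three_le
  have hln : 0 ≤ Real.log n := Real.log_nonneg hnR
  have hlog : Real.log (2 * ((n : ℝ) ^ K * 2 ^ d) + 1) ≤ 2 + K * Real.log n + d := by
    have h4 : (1 : ℝ) ≤ (n : ℝ) ^ K * 2 ^ d := by
      have a1 : (1 : ℝ) ≤ (n : ℝ) ^ K := one_le_pow₀ hnR
      have a2 : (1 : ℝ) ≤ 2 ^ d := one_le_pow₀ (by norm_num)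
      nlinarith
    have h5 : Real.log (2 * ((n : ℝ) ^ K * 2 ^ d) + 1) ≤ Real.log (3 * ((n : ℝ) ^ K * 2 ^ d)) :=
      Real.log_le_log (by positivity) (by linarith)
    rw [Real.log_mul (by norm_num) (by positivity), Real.log_mul (by positivity) (by positivity),
      Real.log_pow, Real.log_pow] at h5
    have h6 : (d : ℝ) * Real.log 2 ≤ d * 1 := mul_le_mul_of_nonneg_left h2 (by positivity)
    linarith
  have hKR : (1 : ℝ) ≤ K := by exact_mod_cast hK
  have hRR : (R : ℝ) ≤ V := by exact_mod_cast hR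
  have hV0 : (0 : ℝ) ≤ V := by positivity
  have ho0 : (0 : ℝ) ≤ o := by positivity
  have hl0 : (0 : ℝ) ≤ l := by positivity
  have hP0 : (0 : ℝ) ≤ P := by positivity
  have hR0 : (0 : ℝ) ≤ R := by positivity
  have hd0 : (0 : ℝ) ≤ d := by positivity
  have hKV : (V : ℝ) ≤ K * V := by nlinarith
  set a : ℝ := o + l + K * V + P with ha
  have hVa : (V : ℝ) ≤ a := by linarith
  have hlogV : Real.log (V + 1) ≤ Real.log (a + 1) := Real.log_le_log (by positivity) (by linarith)
  have hlogV0 : 0 ≤ Real.log ((V : ℝ) + 1) := Real.log_nonneg (by linarith)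
  have hlogA0 : 0 ≤ Real.log (a + 1) := hlogV0.trans hlogV
  have t1 : (o : ℝ) * Real.log (V + 1) + R * Real.log (V + 1) ≤ (o + V) * Real.log (a + 1) := by
    nlinarith [mul_le_mul_of_nonneg_left hlogV ho0, mul_le_mul_of_nonneg_left hlogV hR0,
      mul_le_mul_of_nonneg_right hRR hlogA0]
  have t1' : ((o : ℝ) + V) * Real.log (a + 1) ≤ a * Real.log (a + 1) :=
    mul_le_mul_of_nonneg_right (by linarith) hlogA0
  have t2 : (l : ℝ) * (d * Real.log 2) + P * (d * Real.log 2) ≤ (l + P) * d := by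
    have : (d : ℝ) * Real.log 2 ≤ d * 1 := mul_le_mul_of_nonneg_left h2 hd0
    nlinarith [mul_le_mul_of_nonneg_left this hl0, mul_le_mul_of_nonneg_left this hP0]
  have t2' : ((l : ℝ) + P) * d ≤ a * d := mul_le_mul_of_nonneg_right (by
    have : 0 ≤ (K : ℝ) * V := by positivity
    linarith) hd0
  have t3 : (V : ℝ) * Real.log (2 * ((n : ℝ) ^ K * 2 ^ d) + 1) ≤
      V * 2 + (K * V) * Real.log n + V * d := by
    have := mul_le_mul_of_nonneg_left hlog hV0
    linarith
  have t4 : (V : ℝ) * 2 ≤ a * 2 := by linarith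
  have t5 : ((K : ℝ) * V) * Real.log n ≤ a * Real.log n :=
    mul_le_mul_of_nonneg_right (by linarith) hln
  have t6 : (V : ℝ) * d ≤ a * d := mul_le_mul_of_nonneg_right hVa hd0
  linarith

theorem fam_log (M : Machine n d) {K : ℕ} (hK : 1 ≤ K) (hn : 1 ≤ n) (hM : M.Steps (n ^ K))
    (q : Pos n) :
    ∃ (S : Type) (_ : Fintype S) (_ : Nonempty S) (sg : Input n d → S) (h : S → Vec d → Prop),
      Real.log (2 * Fintype.card S) ≤ share M K q *
        (Real.log (share M K q + 1) + 2 * d + Real.log n + 2) + 2 ∧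
      ∀ x z, 0 < M.result (Function.update x q z) M.last ↔ h (sg x) z := by
  obtain ⟨S, iF, iN, sg, h, hcard, hh⟩ := fam M hM q
  refine ⟨S, iF, iN, sg, h, ?_, hh⟩
  rw [hcard]
  exact log_card_le _ _ _ _ _ K d n hK hn (card_routinesAt_le M q)

end Pool.Agent.H2.AV
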