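import Pool.Agent.H2.AV.Defs

/-!
# [H2 AV NMD] Numerics: powers of constants with exponent of order `d`

`Crit p C n d`: the expected number `n^2 (1-p^2)^d` of orthogonal pairs is between `1/C` and `C`. PROOFS, with `D = -log(1-p^2) > 0`,
`A = -log(1-p) > 0`: taking logarithms in `Crit` (`n >= 1`): `-log C <= 2 log n - d D <= log C` (`d_le`, `le_d`). So for `c >= 0`
`exp(-(c d)) <= exp(-(c/D)(2 log n - log C)) = C^(c/D) n^(-(2c/D))` and `exp(c d) <= exp((c/D)(2 log n + log C))`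
(`Real.rpow_def_of_pos`). `pow_w`: with `w = ceil(d (q - del)) >= d (q - del)`, `q = p/(1+p)`: `(1-p)^w = exp(-(A w)) <= exp(-(A (q-del) d))
<= C^(A(q-del)/D) n^(-(2A(q-del)/D))`, `2 A q/D = alpha`, and `C^(A(q-del)/D) <= C^(alpha/2)` as `C >= 1`.
-/

set_option autoImplicit false

namespace Pool.Agent.H2.AV

/-- the expected number of orthogonal pairs is bounded from above and below -/
def Crit (p C : ℝ) (n d : ℕ) : Prop :=
  1 / C ≤ (n : ℝ) ^ 2 * (1 - p ^ 2) ^ d ∧ (n : ℝ) ^ 2 * (1 - p ^ 2) ^ d ≤ C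

variable {p C : ℝ} {n d : ℕ}

theorem D_pos (h0 : 0 < p) (h1 : p < 1) : 0 < -Real.log (1 - p ^ 2) := by
  have : Real.log (1 - p ^ 2) < 0 := Real.log_neg (by nlinarith) (by nlinarith)
  linarith

theorem A_pos (h0 : 0 < p) (h1 : p < 1) : 0 < -Real.log (1 - p) := by
  have : Real.log (1 - p) < 0 := Real.log_neg (by linarith) (by linarith)
  linarith

private theorem log_lam (h0 : 0 < p) (h1 : p < 1) (hn : 1 ≤ n) :
    Real.log ((n : ℝ) ^ 2 * (1 - p ^ 2) ^ d) = 2 * Real.log n + d * Real.log (1 - p ^ 2) := by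
  have hn0 : (n : ℝ) ≠ 0 := by
    have : n ≠ 0 := by omega
    exact_mod_cast this
  have h2 : (0 : ℝ) < 1 - p ^ 2 := by nlinarith
  rw [Real.log_mul (pow_ne_zero _ hn0) (pow_ne_zero _ h2.ne'), Real.log_pow, Real.log_pow]
  norm_num

private theorem lam_pos (h0 : 0 < p) (h1 : p < 1) (hn : 1 ≤ n) :
    0 < (n : ℝ) ^ 2 * (1 - p ^ 2) ^ d := by
  have hn0 : (0 : ℝ) < n := by exact_mod_cast hn
  have h2 : (0 : ℝ) < 1 - p ^ 2 := by nlinarith
  positivity

theorem d_le (h0 : 0 < p) (h1 : p < 1) (hC : 1 ≤ C) (hn : 1 ≤ n) (hc : Crit p C n d) :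
    (d : ℝ) * -Real.log (1 - p ^ 2) ≤ 2 * Real.log n + Real.log C := by
  have h := Real.log_le_log (by positivity) hc.1
  rw [log_lam h0 h1 hn, one_div, Real.log_inv] at h
  linarith

theorem le_d (h0 : 0 < p) (h1 : p < 1) (hC : 1 ≤ C) (hn : 1 ≤ n) (hc : Crit p C n d) :
    2 * Real.log n - Real.log C ≤ (d : ℝ) * -Real.log (1 - p ^ 2) := by
  have h := Real.log_le_log (lam_pos h0 h1 hn) hc.2
  rw [log_lam h0 h1 hn] at h
  linarith

theorem exp_neg_d (h0 : 0 < p) (h1 : p < 1) (hC : 1 ≤ C) (hn : 1 ≤ n) (hc : Crit p C n d)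
    {c : ℝ} (hc0 : 0 ≤ c) : Real.exp (-(d * c)) ≤
      C ^ (c / -Real.log (1 - p ^ 2)) * (n : ℝ) ^ (-(2 * c / -Real.log (1 - p ^ 2))) := by
  have hD := D_pos h0 h1
  have hn0 : (0 : ℝ) < n := by exact_mod_cast hn
  rw [Real.rpow_def_of_pos (by linarith), Real.rpow_def_of_pos hn0, ← Real.exp_add]
  apply Real.exp_le_exp.2
  have h := le_d h0 h1 hC hn hc
  set D := -Real.log (1 - p ^ 2) with hDdef
  have e : Real.log C * (c / D) + Real.log n * (-(2 * c / D)) =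
      -((2 * Real.log n - Real.log C) * (c / D)) := by
    field_simp
    ring
  rw [e]
  have h2 : (2 * Real.log n - Real.log C) * (c / D) ≤ (d * D) * (c / D) :=
    mul_le_mul_of_nonneg_right h (by positivity)
  have h3 : (d * D) * (c / D) = d * c := by field_simp
  linarith

theorem exp_d (h0 : 0 < p) (h1 : p < 1) (hC : 1 ≤ C) (hn : 1 ≤ n) (hc : Crit p C n d)
    {c : ℝ} (hc0 : 0 ≤ c) : Real.exp (d * c) ≤
      C ^ (c / -Real.log (1 - p ^ 2)) * (n : ℝ) ^ (2 * c / -Real.log (1 - p ^ 2)) := by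
  have hD := D_pos h0 h1
  have hn0 : (0 : ℝ) < n := by exact_mod_cast hn
  rw [Real.rpow_def_of_pos (by linarith), Real.rpow_def_of_pos hn0, ← Real.exp_add]
  apply Real.exp_le_exp.2
  have h := d_le h0 h1 hC hn hc
  set D := -Real.log (1 - p ^ 2) with hDdef
  have e : Real.log C * (c / D) + Real.log n * (2 * c / D) =
      (2 * Real.log n + Real.log C) * (c / D) := by
    field_simp
    ring
  rw [e]
  have h2 : (d * D) * (c / D) ≤ (2 * Real.log n + Real.log C) * (c / D) :=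
    mul_le_mul_of_nonneg_right h (by positivity)
  have h3 : (d * D) * (c / D) = d * c := by field_simp
  linarith

theorem alpha_eq (h0 : 0 < p) (h1 : p < 1) :
    alpha p = 2 * (-Real.log (1 - p) * (p / (1 + p))) / -Real.log (1 - p ^ 2) := by
  have hD := D_pos h0 h1
  have hD' : Real.log (1 - p ^ 2) ≠ 0 := by linarith
  have h2 : (1 + p) ≠ 0 := by positivity
  unfold alpha
  field_simp

theorem pow_w (h0 : 0 < p) (h1 : p < 1) (hC : 1 ≤ C) (hn : 1 ≤ n) (hc : Crit p C n d)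
    {δ : ℝ} (hδ0 : 0 ≤ δ) (hδ : δ ≤ p / (1 + p)) :
    (1 - p) ^ ⌈(d : ℝ) * (p / (1 + p) - δ)⌉₊ ≤ C ^ (alpha p / 2) *
      (n : ℝ) ^ (-alpha p + 2 * (-Real.log (1 - p) * δ) / -Real.log (1 - p ^ 2)) := by
  have hA := A_pos h0 h1
  have hD := D_pos h0 h1
  have hn0 : (0 : ℝ) < n := by exact_mod_cast hn
  set w := ⌈(d : ℝ) * (p / (1 + p) - δ)⌉₊ with hw
  have hw1 : (d : ℝ) * (p / (1 + p) - δ) ≤ w := Nat.le_ceil _
  have e1 : (1 - p) ^ w = Real.exp (w * Real.log (1 - p)) := by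
    rw [Real.exp_nat_mul, Real.exp_log (by linarith)]
  have h2 : (1 - p) ^ w ≤ Real.exp (-(d * (-Real.log (1 - p) * (p / (1 + p) - δ)))) := by
    rw [e1]
    apply Real.exp_le_exp.2
    have := mul_le_mul_of_nonneg_right hw1 hA.le
    linarith
  refine h2.trans ?_
  have hc0 : 0 ≤ -Real.log (1 - p) * (p / (1 + p) - δ) := mul_nonneg hA.le (by linarith)
  refine (exp_neg_d h0 h1 hC hn hc hc0).trans ?_
  have e3 : -(2 * (-Real.log (1 - p) * (p / (1 + p) - δ)) / -Real.log (1 - p ^ 2)) =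
      -alpha p + 2 * (-Real.log (1 - p) * δ) / -Real.log (1 - p ^ 2) := by
    rw [alpha_eq h0 h1]
    ring
  rw [e3]
  apply mul_le_mul_of_nonneg_right _ (Real.rpow_nonneg hn0.le _)
  apply Real.rpow_le_rpow_of_exponent_le hC
  rw [alpha_eq h0 h1]
  have h4 : -Real.log (1 - p) * (p / (1 + p) - δ) ≤ -Real.log (1 - p) * (p / (1 + p)) :=
    mul_le_mul_of_nonneg_left (by linarith) hA.le
  calc -Real.log (1 - p) * (p / (1 + p) - δ) / -Real.log (1 - p ^ 2)
      ≤ -Real.log (1 - p) * (p / (1 + p)) / -Real.log (1 - p ^ 2) :=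
        div_le_div_of_nonneg_right h4 hD.le
    _ = 2 * (-Real.log (1 - p) * (p / (1 + p))) / -Real.log (1 - p ^ 2) / 2 := by ring

/-- PROOF: `b >= a + c`: `K <= n ^ (b - a)`.. for large `n` (`tendsto_rpow_atTop`); used to absorb constants. -/
theorem absorb (K : ℝ) {a b : ℝ} (hab : b < a) :
    ∃ n₀ : ℕ, ∀ n : ℕ, n₀ ≤ n → K * (n : ℝ) ^ (-a) ≤ (n : ℝ) ^ (-b) := by
  have h := (tendsto_rpow_atTop (show 0 < a - b by linarith)).comp
    (tendsto_natCast_atTop_atTop (R := ℝ))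
  have h2 := h.eventually_ge_atTop K
  rw [Filter.eventually_atTop] at h2
  obtain ⟨N, hN⟩ := h2
  refine ⟨max N 1, fun n hn => ?_⟩
  have h3 := hN n ((le_max_left _ _).trans hn)
  have hn1 : 1 ≤ n := (le_max_right _ _).trans hn
  have hn0 : (0 : ℝ) < n := by exact_mod_cast hn1
  simp only [Function.comp_apply] at h3
  calc K * (n : ℝ) ^ (-a) ≤ (n : ℝ) ^ (a - b) * (n : ℝ) ^ (-a) :=
        mul_le_mul_of_nonneg_right h3 (Real.rpow_nonneg hn0.le _)
    _ = (n : ℝ) ^ (-b) := by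
        rw [← Real.rpow_add hn0]
        congr 1
        ring

/-- PROOF: `log n <= n^(e/2)/(e/2)` (`Real.log_le_rpow_div`) and `absorb`. -/
theorem absorb_log (K L : ℝ) {e : ℝ} (he : 0 < e) :
    ∃ n₀ : ℕ, ∀ n : ℕ, n₀ ≤ n → K * Real.log n + L ≤ (n : ℝ) ^ e := by
  obtain ⟨N, hN⟩ := absorb (|K| / (e / 2) + |L|) (show -e < -(e / 2) by linarith)
  refine ⟨max N 1, fun n hn => ?_⟩
  have h3 := hN n ((le_max_left _ _).trans hn)
  have hn1 : 1 ≤ n := (le_max_right _ _).trans hn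
  have hnR : (1 : ℝ) ≤ n := by exact_mod_cast hn1
  rw [neg_neg, neg_neg] at h3
  refine le_trans ?_ h3
  have h4 := Real.log_le_rpow_div (show (0 : ℝ) ≤ n by linarith) (show 0 < e / 2 by linarith)
  have h5 : 1 ≤ (n : ℝ) ^ (e / 2) := Real.one_le_rpow hnR (by linarith)
  have h6 : 0 ≤ Real.log n := Real.log_nonneg hnR
  have h7 : K * Real.log n ≤ |K| * ((n : ℝ) ^ (e / 2) / (e / 2)) :=
    (mul_le_mul_of_nonneg_right (le_abs_self K) h6).trans
      (mul_le_mul_of_nonneg_left h4 (abs_nonneg K))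
  have h8 : L ≤ |L| * (n : ℝ) ^ (e / 2) := by
    have := mul_le_mul_of_nonneg_left h5 (abs_nonneg L)
    linarith [le_abs_self L]
  calc K * Real.log n + L ≤ |K| * ((n : ℝ) ^ (e / 2) / (e / 2)) + |L| * (n : ℝ) ^ (e / 2) := by
        linarith
    _ = (|K| / (e / 2) + |L|) * (n : ℝ) ^ (e / 2) := by ring

end Pool.Agent.H2.AV
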