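import Pool.Agent.H2.AV.Alp
import Pool.Agent.H2.AV.Nmd

/-!
# [H2 AV NMF] Numerics: the logarithm of the size of the family

PROOF. `al = alpha p < 2` (`alpha_lt_two`), `al - 1 - eps/2 >= (al-1)/2 > 0` and `< 1`, so `a <= n`, `log(a+1) <= log(2n) <= log n + 1`;
`d <= (2 log n + log C)/D` (`d_le`, `D = -log(1-p^2) > 0`). So the left side is `<= n^(al-1-eps/2) (K1 log n + K2 + 2)` with
`K1 = 2 + 4/D`, `K2 = 3 + 2 log C/D` (also `2 <= 2 n^(al-1-eps/2)`), and `absorb_log` with exponent `eps/4`.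
-/

set_option autoImplicit false

namespace Pool.Agent.H2.AV

theorem log_le {p : ℝ} (h0 : 0 < p) (h1 : p < 1) {C : ℝ} (hC : 1 ≤ C) {ε : ℝ} (hε : 0 < ε)
    (hε1 : ε ≤ alpha p - 1) :
    ∃ n₀ : ℕ, ∀ n d : ℕ, n₀ ≤ n → Crit p C n d → ∀ a : ℕ,
      (a : ℝ) ≤ (n : ℝ) ^ (alpha p - 1 - ε / 2) →
        (a : ℝ) * (Real.log (a + 1) + 2 * d + Real.log n + 2) + 2 ≤
          (n : ℝ) ^ (alpha p - 1 - ε / 4) := by
  have hD := D_pos h0 h1
  have ha2 := alpha_lt_two h0 h1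
  have hal := one_lt_alpha h0 h1
  obtain ⟨N, hN⟩ := absorb_log (2 + 4 / -Real.log (1 - p ^ 2))
    (3 + 2 * Real.log C / -Real.log (1 - p ^ 2) + 2) (show 0 < ε / 4 by linarith)
  refine ⟨max N 1, fun n d hn hc a ha => ?_⟩
  have hn1 : 1 ≤ n := (le_max_right _ _).trans hn
  have hnR : (1 : ℝ) ≤ n := by exact_mod_cast hn1
  have hn0 : (0 : ℝ) < n := by linarith
  have h3 := hN n ((le_max_left _ _).trans hn)
  have hd := d_le h0 h1 hC hn1 hc
  set D := -Real.log (1 - p ^ 2) with hDdef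
  have hd2 : (d : ℝ) ≤ (2 * Real.log n + Real.log C) / D := by
    rw [le_div_iff₀ hD]
    exact hd
  have hb0 : 0 ≤ alpha p - 1 - ε / 2 := by linarith
  have hb1 : alpha p - 1 - ε / 2 ≤ 1 := by linarith
  have han : (a : ℝ) ≤ n := by
    refine ha.trans ?_
    calc (n : ℝ) ^ (alpha p - 1 - ε / 2) ≤ (n : ℝ) ^ (1 : ℝ) :=
          Real.rpow_le_rpow_of_exponent_le hnR hb1
      _ = n := Real.rpow_one _
  have ha0 : (0 : ℝ) ≤ a := Nat.cast_nonneg a
  have hlog : Real.log (a + 1) ≤ Real.log n + 1 := by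
    have h4 : Real.log (a + 1) ≤ Real.log (2 * n) :=
      Real.log_le_log (by linarith) (by linarith)
    rw [Real.log_mul (by norm_num) hn0.ne'] at h4
    have h5 : Real.log 2 ≤ 1 := by
      have := Real.log_two_lt_d9
      linarith
    linarith
  have hln : 0 ≤ Real.log n := Real.log_nonneg hnR
  have hla : 0 ≤ Real.log ((a : ℝ) + 1) := Real.log_nonneg (by linarith)
  have h6 : 1 ≤ (n : ℝ) ^ (alpha p - 1 - ε / 2) := Real.one_le_rpow hnR hb0
  have h7 : Real.log (a + 1) + 2 * d + Real.log n + 2 ≤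
      (2 + 4 / D) * Real.log n + (3 + 2 * Real.log C / D) := by
    have h8 : 2 * ((2 * Real.log n + Real.log C) / D) =
        4 / D * Real.log n + 2 * Real.log C / D := by
      field_simp
      ring
    linarith
  have h9 : 0 ≤ Real.log (a + 1) + 2 * d + Real.log n + 2 := by
    have : (0 : ℝ) ≤ d := Nat.cast_nonneg d
    linarith
  have h10 : (a : ℝ) * (Real.log (a + 1) + 2 * d + Real.log n + 2) ≤
      (n : ℝ) ^ (alpha p - 1 - ε / 2) *
        ((2 + 4 / D) * Real.log n + (3 + 2 * Real.log C / D)) :=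
    mul_le_mul ha h7 h9 (by linarith)
  calc (a : ℝ) * (Real.log (a + 1) + 2 * d + Real.log n + 2) + 2 ≤
      (n : ℝ) ^ (alpha p - 1 - ε / 2) *
        ((2 + 4 / D) * Real.log n + (3 + 2 * Real.log C / D)) +
        (n : ℝ) ^ (alpha p - 1 - ε / 2) * 2 := by linarith
    _ = (n : ℝ) ^ (alpha p - 1 - ε / 2) *
        ((2 + 4 / D) * Real.log n + (3 + 2 * Real.log C / D + 2)) := by ring
    _ ≤ (n : ℝ) ^ (alpha p - 1 - ε / 2) * (n : ℝ) ^ (ε / 4) :=
        mul_le_mul_of_nonneg_left h3 (by linarith)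
    _ = (n : ℝ) ^ (alpha p - 1 - ε / 4) := by
        rw [← Real.rpow_add hn0]
        congr 1
        ring

end Pool.Agent.H2.AV
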