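import Pool.Agent.H2.AV.Nme
import Pool.Agent.H2.AV.Nmf
import Pool.Agent.H2.AV.Flg

/-!
# [H2 AV DET] The output of a cheap machine is nearly independent of the answer

PROOF. `c, n0` from `err_le`, `n1` from `log_le`, `n >= max(n0, n1, 1)`. `pno`: `core` with `acc = 1`, `G = univ`, `S = Unit`,
`L = n^(alpha-1-eps/4) >= 1 >= log 2` (`alpha - 1 - eps/4 >= 0`), `g = 0`; `ex 1 = 1` (`ex_one`); `prob yes = 1 - ex (indicator of no)`.
`det`: `acc x = if 0 < M.result x M.last then 1 else 0`, `T = n^(alpha-1-eps/2)`, `G` = rows `i` with `share M K (true,i) <= T`; the family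
is `fam_log` (turn `h : S -> Vec d -> Prop` into an indicator), its logarithm is at most `n^(alpha-1-eps/4)` by `log_le`;
`n - card G` = number of `i` with `T < share`, which is at most `2 cost/T <= 2 n^(1-eps/4)` (`share_bad`). The first conclusion of
`core` is the claim.
-/

set_option autoImplicit false

namespace Pool.Agent.H2.AV

open Classical in
theorem det {p : ℝ} (h0 : 0 < p) (h1 : p < 1) {C : ℝ} (hC : 1 ≤ C) {ε : ℝ} (hε : 0 < ε)
    (hε1 : ε ≤ alpha p - 1) {K : ℕ} (hK : 1 ≤ K) :
    ∃ c : ℝ, 0 < c ∧ ∃ n₀ : ℕ, ∀ n d : ℕ, n₀ ≤ n → Crit p C n d →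
      |prob p (fun x : Input n d => ¬ HasOrthogonalPair x) -
        Real.exp (-((n : ℝ) ^ 2 * (1 - p ^ 2) ^ d))| ≤ (n : ℝ) ^ (-c) ∧
      ∀ M : Machine n d, M.Steps (n ^ K) → (M.cost K : ℝ) ≤ (n : ℝ) ^ (alpha p - 3 * ε / 4) →
        |prob p (fun x => 0 < M.result x M.last ∧ ¬ HasOrthogonalPair x) -
          Real.exp (-((n : ℝ) ^ 2 * (1 - p ^ 2) ^ d)) *
            prob p (fun x => 0 < M.result x M.last)| ≤ (n : ℝ) ^ (-c) := by
  obtain ⟨c, hc0, n0, hn0⟩ := err_le h0 h1 hC hε hε1
  obtain ⟨n1, hn1⟩ := log_le h0 h1 hC hε hε1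
  refine ⟨c, hc0, max (max n0 n1) 1, fun n d hn hcr => ?_⟩
  have hna : n0 ≤ n := ((le_max_left _ _).trans (le_max_left _ _)).trans hn
  have hnb : n1 ≤ n := ((le_max_right _ _).trans (le_max_left _ _)).trans hn
  have hnc : 1 ≤ n := (le_max_right _ _).trans hn
  have hx : (1 : ℝ) ≤ n := by exact_mod_cast hnc
  have hx0 : (0 : ℝ) < n := by linarith
  obtain ⟨w, s, hs, hsM, herr⟩ := hn0 n d hna hcr
  have hL1 : (1 : ℝ) ≤ (n : ℝ) ^ (alpha p - 1 - ε / 4) :=
    Real.one_le_rpow hx (by linarith)
  have hlog2 : Real.log 2 ≤ 1 := by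
    have := Real.log_le_sub_one_of_pos (show (0 : ℝ) < 2 by norm_num)
    linarith
  constructor
  · have h2 := core h0.le h1.le w hs (L := (n : ℝ) ^ (alpha p - 1 - ε / 4)) (by linarith) hsM
      (fun _ : Input n d => (1 : ℝ)) (fun _ => ⟨zero_le_one, le_rfl⟩) Finset.univ
      (fun i _ => ⟨Unit, inferInstance, inferInstance, fun _ => (), fun _ _ => 1,
        fun _ _ => ⟨zero_le_one, le_rfl⟩, by
          rw [Fintype.card_unit, Nat.cast_one, mul_one]; linarith, fun _ _ => rfl⟩)
    rw [ex_one, mul_one] at h2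
    have h3 := herr ((n : ℝ) - (Finset.univ : Finset (Fin n)).card)
      (by simp) (by
        rw [Finset.card_univ, Fintype.card_fin, sub_self]
        positivity)
    refine le_trans (le_of_eq ?_) (h2.trans h3)
    congr 2
    unfold prob
    congr 1
    funext x
    rw [one_mul]
    by_cases h : HasOrthogonalPair x <;> simp [h]
  · intro M hM hcost
    obtain ⟨T, hT⟩ : ∃ T, T = (n : ℝ) ^ (alpha p - 1 - ε / 2) := ⟨_, rfl⟩
    have hT0 : 0 < T := by rw [hT]; exact Real.rpow_pos_of_pos hx0 _
    have h2 := core h0.le h1.le w hs (L := (n : ℝ) ^ (alpha p - 1 - ε / 4)) (by linarith) hsM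
      (fun x : Input n d => if 0 < M.result x M.last then (1 : ℝ) else 0)
      (fun x => by split_ifs <;> norm_num)
      (Finset.univ.filter fun i : Fin n => (share M K (true, i) : ℝ) ≤ T) (fun i hi => by
        have hi2 := (Finset.mem_filter.1 hi).2
        obtain ⟨S, iF, iN, sg, h, hlog, hh⟩ := fam_log M hK hnc hM (true, i)
        refine ⟨S, iF, iN, sg, fun t z => if h t z then 1 else 0, fun t z => by
          dsimp only; split_ifs <;> norm_num, ?_, fun x z => ?_⟩
        · exact hlog.trans (hn1 n d hnb hcr _ (by rw [← hT]; exact hi2))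
        · exact if_congr (hh x z) rfl rfl)
    have hg : ((n : ℝ) - (Finset.univ.filter fun i : Fin n =>
        (share M K (true, i) : ℝ) ≤ T).card) =
        (Finset.univ.filter fun i : Fin n => T < (share M K (true, i) : ℝ)).card := by
      have h3 := Finset.card_filter_add_card_filter_not (s := (Finset.univ : Finset (Fin n)))
        (fun i : Fin n => (share M K (true, i) : ℝ) ≤ T)
      rw [Finset.card_univ, Fintype.card_fin] at h3
      have h4 : (Finset.univ.filter fun i : Fin n => ¬ (share M K (true, i) : ℝ) ≤ T) =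
          (Finset.univ.filter fun i : Fin n => T < (share M K (true, i) : ℝ)) := by
        ext i
        simp
      rw [h4] at h3
      have h5 := congrArg (fun k : ℕ => (k : ℝ)) h3
      push_cast at h5
      linarith
    have hbad := share_bad M K hT0
    have h3 := herr ((n : ℝ) - (Finset.univ.filter fun i : Fin n =>
        (share M K (true, i) : ℝ) ≤ T).card) (by rw [hg]; positivity) (by
        rw [hg]
        have h4 : T * (Finset.univ.filter fun i : Fin n => T < (share M K (true, i) : ℝ)).card ≤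
            T * (2 * (n : ℝ) ^ (1 - ε / 4)) := by
          refine hbad.trans ?_
          have h5 : T * (2 * (n : ℝ) ^ (1 - ε / 4)) = 2 * (n : ℝ) ^ (alpha p - 3 * ε / 4) := by
            rw [hT, mul_left_comm, ← Real.rpow_add hx0]
            congr 2
            ring
          rw [h5]
          linarith
        exact le_of_mul_le_mul_left h4 hT0)
    refine le_trans (le_of_eq ?_) (h2.trans h3)
    congr 2
    unfold prob
    congr 1
    funext x
    by_cases h : HasOrthogonalPair x <;> by_cases h9 : 0 < M.result x M.last <;> simp [h, h9]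

end Pool.Agent.H2.AV
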