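import Pool.Agent.H2.AV.Vc
import Pool.Agent.H2.AV.Nmd

/-!
# [H2 AV DST] For `p < 2/3` the vectors of `A` are distinct, and so are those of `B`

PROOF. Let `r = (1-p)^2 + p^2 = 1 - 2p + 2p^2`. For `i <> j`: `P(x (s,i) = x (s,j)) = sum_z bv(z)^2 = r^d` (resample `(s,j)`: the inner
expectation of the indicator of `x (s,i) = z` is `bv (x (s,i))`, then `ex_marg`, and `bv^2` is a product: `ev_prod` with
`f k (z k) = if z k then p else 1 - p`). Union over the pairs `i < j` of both lists: at most `n^2 r^d`. `r < 1 - p^2` iff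
`3 p^2 < 2 p`. With `rho = r/(1-p^2) < 1`: `n^2 r^d = lam rho^d <= C exp(-(d (-log rho)))`, and `exp_neg_d`, `absorb`.
-/

set_option autoImplicit false

namespace Pool.Agent.H2.AV

private theorem dst_ev (p : ℝ) {d : ℕ} (u : Vec d) :
    ev p (fun z : Vec d => if u = z then (1 : ℝ) else 0) = bv p u := by
  unfold ev
  rw [Finset.sum_eq_single u]
  · show bv p u * (if u = u then (1 : ℝ) else 0) = bv p u
    rw [if_pos rfl, mul_one]
  · intro z _ hz
    show bv p z * (if u = z then (1 : ℝ) else 0) = 0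
    rw [if_neg (Ne.symm hz), mul_zero]
  · intro h
    exact absurd (Finset.mem_univ u) h

private theorem dst_bv (p : ℝ) (d : ℕ) :
    ev p (fun z : Vec d => bv p z) = ((1 - p) ^ 2 + p ^ 2) ^ d := by
  have h := ev_prod (d := d) p (fun _ b => if b then p else 1 - p)
  have e : (fun z : Vec d => bv p z) = fun z : Vec d => ∏ k, (if z k then p else 1 - p) := rfl
  rw [e, h]
  simp only [if_true, Bool.false_eq_true, if_false, Finset.prod_const, Finset.card_univ,
    Fintype.card_fin]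
  congr 1
  ring

private theorem dst_pair (p : ℝ) {n d : ℕ} (s : Bool) {i j : Fin n} (hij : i ≠ j) :
    ex p (fun x : Input n d => if x (s, i) = x (s, j) then (1 : ℝ) else 0) =
      ((1 - p) ^ 2 + p ^ 2) ^ d := by
  rw [ex_resample p (s, j)]
  have hne : ((s, i) : Pos n) ≠ (s, j) := fun h => hij (Prod.ext_iff.1 h).2
  have e : (fun x : Input n d => ev p fun z =>
      if Function.update x (s, j) z (s, i) = Function.update x (s, j) z (s, j) then (1 : ℝ) else 0) =
      fun x : Input n d => bv p (x (s, i)) := by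
    funext x
    rw [← dst_ev p (x (s, i))]
    congr 1
    funext z
    rw [Function.update_of_ne hne, Function.update_self]
  rw [e, ex_marg p (s, i) (fun z => bv p z), dst_bv]

private theorem dst_union {p : ℝ} (h0 : 0 ≤ p) (h1 : p ≤ 1) (n d : ℕ) :
    prob p (fun x : Input n d => ¬ ∀ (s : Bool) (i j : Fin n), x (s, i) = x (s, j) → i = j) ≤
      2 * (n : ℝ) ^ 2 * ((1 - p) ^ 2 + p ^ 2) ^ d := by
  classical
  unfold prob
  have h3 : ∀ (s : Bool) (i j : Fin n), ex p (fun x : Input n d =>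
      (if i ≠ j then (if x (s, i) = x (s, j) then (1 : ℝ) else 0) else 0)) ≤
      ((1 - p) ^ 2 + p ^ 2) ^ d := by
    intro s i j
    by_cases hij : i = j
    · have e : (fun x : Input n d =>
          (if i ≠ j then (if x (s, i) = x (s, j) then (1 : ℝ) else 0) else 0)) =
          fun x : Input n d => 0 * (1 : ℝ) := by
        funext x
        rw [if_neg (not_not.2 hij), zero_mul]
      rw [e, ex_mul, zero_mul]
      positivity
    · have e : (fun x : Input n d =>
          (if i ≠ j then (if x (s, i) = x (s, j) then (1 : ℝ) else 0) else 0)) =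
          fun x : Input n d => (if x (s, i) = x (s, j) then (1 : ℝ) else 0) := by
        funext x
        rw [if_pos hij]
      rw [e, dst_pair p s hij]
  refine (ex_mono h0 h1 (G := fun x : Input n d => ∑ s : Bool, ∑ i : Fin n, ∑ j : Fin n,
    (if i ≠ j then (if x (s, i) = x (s, j) then (1 : ℝ) else 0) else 0)) fun x => ?_).trans ?_
  · have hnn : ∀ (s : Bool) (i j : Fin n),
        0 ≤ (if i ≠ j then (if x (s, i) = x (s, j) then (1 : ℝ) else 0) else 0) := by
      intro s i j
      split_ifs <;> norm_num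
    have hn2 : ∀ (s : Bool) (i : Fin n),
        0 ≤ ∑ j : Fin n, (if i ≠ j then (if x (s, i) = x (s, j) then (1 : ℝ) else 0) else 0) :=
      fun s i => Finset.sum_nonneg fun j _ => hnn s i j
    have hn3 : ∀ (s : Bool), 0 ≤ ∑ i : Fin n,
        ∑ j : Fin n, (if i ≠ j then (if x (s, i) = x (s, j) then (1 : ℝ) else 0) else 0) :=
      fun s => Finset.sum_nonneg fun i _ => hn2 s i
    split_ifs with h
    · push Not at h
      obtain ⟨s, i, j, hx, hij⟩ := h
      calc (1 : ℝ) = (if i ≠ j then (if x (s, i) = x (s, j) then (1 : ℝ) else 0) else 0) := by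
            rw [if_pos hij, if_pos hx]
        _ ≤ ∑ j : Fin n, (if i ≠ j then (if x (s, i) = x (s, j) then (1 : ℝ) else 0) else 0) :=
            Finset.single_le_sum (f := fun j => (if i ≠ j then (if x (s, i) = x (s, j) then
              (1 : ℝ) else 0) else 0)) (fun j _ => hnn s i j) (Finset.mem_univ j)
        _ ≤ ∑ i : Fin n, ∑ j : Fin n,
            (if i ≠ j then (if x (s, i) = x (s, j) then (1 : ℝ) else 0) else 0) :=
            Finset.single_le_sum (f := fun i => ∑ j : Fin n, (if i ≠ j then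
              (if x (s, i) = x (s, j) then (1 : ℝ) else 0) else 0))
              (fun i _ => hn2 s i) (Finset.mem_univ i)
        _ ≤ _ :=
            Finset.single_le_sum (f := fun s => ∑ i : Fin n, ∑ j : Fin n, (if i ≠ j then
              (if x (s, i) = x (s, j) then (1 : ℝ) else 0) else 0))
              (fun s _ => hn3 s) (Finset.mem_univ s)
    · exact Finset.sum_nonneg fun s _ => hn3 s
  rw [ex_sum]
  have h4 : ∀ s : Bool, ex p (fun x : Input n d => ∑ i : Fin n, ∑ j : Fin n,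
      (if i ≠ j then (if x (s, i) = x (s, j) then (1 : ℝ) else 0) else 0)) ≤
      (n : ℝ) ^ 2 * ((1 - p) ^ 2 + p ^ 2) ^ d := by
    intro s
    rw [ex_sum]
    have h5 : ∀ i ∈ (Finset.univ : Finset (Fin n)), ex p (fun x : Input n d => ∑ j : Fin n,
        (if i ≠ j then (if x (s, i) = x (s, j) then (1 : ℝ) else 0) else 0)) ≤
        (n : ℝ) * ((1 - p) ^ 2 + p ^ 2) ^ d := by
      intro i _
      rw [ex_sum]
      refine (Finset.sum_le_card_nsmul _ _ _ fun j _ => h3 s i j).trans (le_of_eq ?_)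
      rw [Finset.card_univ, Fintype.card_fin, nsmul_eq_mul]
    refine (Finset.sum_le_card_nsmul _ _ _ h5).trans (le_of_eq ?_)
    rw [Finset.card_univ, Fintype.card_fin, nsmul_eq_mul]
    ring
  refine (Finset.sum_le_card_nsmul _ _ _ fun s _ => h4 s).trans (le_of_eq ?_)
  rw [Finset.card_univ, Fintype.card_bool, nsmul_eq_mul]
  push_cast
  ring

theorem distinct {p : ℝ} (h0 : 0 < p) (h1 : p < 2 / 3) {C : ℝ} (hC : 1 ≤ C) :
    ∃ c : ℝ, 0 < c ∧ ∃ n₀ : ℕ, ∀ n d : ℕ, n₀ ≤ n → Crit p C n d →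
      prob p (fun x : Input n d => ¬ ∀ (s : Bool) (i j : Fin n), x (s, i) = x (s, j) → i = j) ≤
        (n : ℝ) ^ (-c) := by
  have h1' : p < 1 := by linarith
  have hq : 0 < 1 - p ^ 2 := by nlinarith
  obtain ⟨r, hr⟩ : ∃ r : ℝ, r = (1 - p) ^ 2 + p ^ 2 := ⟨_, rfl⟩
  have hr0 : 0 < r := by
    rw [hr]
    positivity
  have hr1 : r < 1 - p ^ 2 := by
    rw [hr]
    nlinarith
  have hρ0 : 0 < r / (1 - p ^ 2) := div_pos hr0 hq
  have hρ1 : r / (1 - p ^ 2) < 1 := (div_lt_one hq).2 hr1
  obtain ⟨c0, hc0⟩ : ∃ c0 : ℝ, c0 = -Real.log (r / (1 - p ^ 2)) := ⟨_, rfl⟩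
  have hc00 : 0 < c0 := by
    rw [hc0]
    have := Real.log_neg hρ0 hρ1
    linarith
  have hD := D_pos h0 h1'
  obtain ⟨n₀, hn₀⟩ := absorb (2 * C * C ^ (c0 / -Real.log (1 - p ^ 2)))
    (show c0 / -Real.log (1 - p ^ 2) < 2 * c0 / -Real.log (1 - p ^ 2) from
      div_lt_div_of_pos_right (by linarith) hD)
  refine ⟨c0 / -Real.log (1 - p ^ 2), div_pos hc00 hD, max n₀ 1, fun n d hn hcr => ?_⟩
  have hn1 : 1 ≤ n := (le_max_right _ _).trans hn
  refine (dst_union h0.le h1'.le n d).trans ?_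
  refine le_trans ?_ (hn₀ n ((le_max_left _ _).trans hn))
  rw [← hr]
  have h2 : r ^ d = (1 - p ^ 2) ^ d * Real.exp (-(d * c0)) := by
    have h3 : Real.exp (-(d * c0)) = (r / (1 - p ^ 2)) ^ d := by
      rw [hc0]
      have h4 : -((d : ℝ) * -Real.log (r / (1 - p ^ 2))) = d * Real.log (r / (1 - p ^ 2)) := by ring
      rw [h4, Real.exp_nat_mul, Real.exp_log hρ0]
    rw [h3, ← mul_pow, mul_div_cancel₀ _ hq.ne']
  have h5 := exp_neg_d h0 h1' hC hn1 hcr hc00.le
  have h6 : 0 ≤ (n : ℝ) ^ 2 * (1 - p ^ 2) ^ d := by positivity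
  calc 2 * (n : ℝ) ^ 2 * r ^ d
      = 2 * ((n : ℝ) ^ 2 * (1 - p ^ 2) ^ d) * Real.exp (-(d * c0)) := by
        rw [h2]
        ring
    _ ≤ 2 * C * (C ^ (c0 / -Real.log (1 - p ^ 2)) *
        (n : ℝ) ^ (-(2 * c0 / -Real.log (1 - p ^ 2)))) := by
        refine mul_le_mul (mul_le_mul_of_nonneg_left hcr.2 (by norm_num)) h5
          (Real.exp_pos _).le (by linarith)
    _ = 2 * C * C ^ (c0 / -Real.log (1 - p ^ 2)) *
        (n : ℝ) ^ (-(2 * c0 / -Real.log (1 - p ^ 2))) := by ring

end Pool.Agent.H2.AV
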