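import Pool.Agent.H2.AV.Snd

/-!
# [H2 AV ERR] The probability of an error

PROOF. If the machine is not correct on `x`, then there is an orthogonal pair `i, j` (`up_sound`: it never errs when it accepts) and by
`up_complete` one of: `x_i` is not low, `x_j` is not low, some `i' <> i` with `i'/h = i/h` is low, the same for `j'`. So the
indicator is `<= sum_{i,j} oi(x_i, x_j) (1[not low x_i] + 1[not low x_j] + sum_{i'} 1[low x_i'] + sum_{j'} 1[low x_j'])`. Expectations: `ex (oi(x_i,x_j)
1[not low x_i]) = ev (gg 1[not low])` (resample `(true,j)`, `ev_oi`, `ex_marg`), `ex (oi(x_i,x_j) 1[low x_i']) = ev(1[low]) ex oi(..) =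
ev(1[low]) (1-p^2)^d` (resample `(false,i')` first). There are at most `h` indices `i'` with `i'/h = i/h`.
-/

set_option autoImplicit false

namespace Pool.Agent.H2.AV

variable {n d : ℕ} {p : ℝ}

private theorem ex_e1 (f : Vec d → ℝ) (i j : Fin n) :
    ex p (fun x : Input n d => oi (x (false, i)) (x (true, j)) * f (x (false, i))) =
      ev p (fun u : Vec d => gg p u * f u) := by
  have hne : ((false, i) : Pos n) ≠ (true, j) := by simp
  rw [ex_resample p (true, j)]
  have h2 : ∀ x : Input n d, (ev p fun z =>
      oi (Function.update x (true, j) z (false, i)) (Function.update x (true, j) z (true, j)) *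
        f (Function.update x (true, j) z (false, i))) = gg p (x (false, i)) * f (x (false, i)) := by
    intro x
    simp only [Function.update_of_ne hne, Function.update_self]
    have h3 : (fun z : Vec d => oi (x (false, i)) z * f (x (false, i))) =
        fun z => f (x (false, i)) * oi (x (false, i)) z := by
      funext z
      rw [mul_comm]
    rw [h3, ev_mul, ev_oi, mul_comm]
  rw [funext h2]
  exact ex_marg p (false, i) (fun u => gg p u * f u)

private theorem ex_e2 (f : Vec d → ℝ) (i j : Fin n) :
    ex p (fun x : Input n d => oi (x (false, i)) (x (true, j)) * f (x (true, j))) =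
      ev p (fun u : Vec d => gg p u * f u) := by
  have hne : ((true, j) : Pos n) ≠ (false, i) := by simp
  rw [ex_resample p (false, i)]
  have h2 : ∀ x : Input n d, (ev p fun z =>
      oi (Function.update x (false, i) z (false, i)) (Function.update x (false, i) z (true, j)) *
        f (Function.update x (false, i) z (true, j))) = gg p (x (true, j)) * f (x (true, j)) := by
    intro x
    simp only [Function.update_of_ne hne, Function.update_self]
    have h3 : (fun z : Vec d => oi z (x (true, j)) * f (x (true, j))) =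
        fun z => f (x (true, j)) * oi z (x (true, j)) := by
      funext z
      rw [mul_comm]
    rw [h3, ev_mul, ev_oi', mul_comm]
  rw [funext h2]
  exact ex_marg p (true, j) (fun u => gg p u * f u)

private theorem ex_oi (i j : Fin n) :
    ex p (fun x : Input n d => oi (x (false, i)) (x (true, j))) = (1 - p ^ 2) ^ d := by
  have h2 := ex_e1 (p := p) (fun _ : Vec d => (1 : ℝ)) i j
  simp only [mul_one] at h2
  rw [h2, ev_gg]

private theorem ex_e3 (f : Vec d → ℝ) (i j : Fin n) {r : Pos n} (h1 : (false, i) ≠ r)
    (h2 : (true, j) ≠ r) :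
    ex p (fun x : Input n d => oi (x (false, i)) (x (true, j)) * f (x r)) =
      (1 - p ^ 2) ^ d * ev p f := by
  rw [ex_resample p r]
  have h3 : ∀ x : Input n d, (ev p fun z =>
      oi (Function.update x r z (false, i)) (Function.update x r z (true, j)) *
        f (Function.update x r z r)) = ev p f * oi (x (false, i)) (x (true, j)) := by
    intro x
    simp only [Function.update_of_ne h1, Function.update_of_ne h2, Function.update_self]
    rw [ev_mul, mul_comm]
  rw [funext h3, ex_mul, ex_oi, mul_comm]

private theorem ex_term (f g : Vec d → ℝ) (i j : Fin n) (s t : Finset (Fin n)) (hs : i ∉ s)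
    (ht : j ∉ t) :
    ex p (fun x : Input n d => oi (x (false, i)) (x (true, j)) *
      (f (x (false, i)) + f (x (true, j)) + ∑ i' ∈ s, g (x (false, i')) +
        ∑ j' ∈ t, g (x (true, j')))) =
      2 * ev p (fun u : Vec d => gg p u * f u) +
        ((s.card : ℝ) + t.card) * ((1 - p ^ 2) ^ d * ev p g) := by
  have h1 : (fun x : Input n d => oi (x (false, i)) (x (true, j)) *
      (f (x (false, i)) + f (x (true, j)) + ∑ i' ∈ s, g (x (false, i')) +
        ∑ j' ∈ t, g (x (true, j')))) = fun x =>
      (oi (x (false, i)) (x (true, j)) * f (x (false, i)) +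
        oi (x (false, i)) (x (true, j)) * f (x (true, j)) +
        ∑ i' ∈ s, oi (x (false, i)) (x (true, j)) * g (x (false, i'))) +
        ∑ j' ∈ t, oi (x (false, i)) (x (true, j)) * g (x (true, j')) := by
    funext x
    rw [mul_add, mul_add, mul_add, Finset.mul_sum, Finset.mul_sum]
  rw [h1, ex_add, ex_add, ex_add, ex_e1, ex_e2, ex_sum, ex_sum]
  have h2 : ∀ i' ∈ s, ex p (fun x : Input n d =>
      oi (x (false, i)) (x (true, j)) * g (x (false, i'))) = (1 - p ^ 2) ^ d * ev p g := by
    intro i' hi'
    refine ex_e3 g i j ?_ (by simp)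
    intro h
    rw [Prod.mk.injEq] at h
    exact hs (h.2 ▸ hi')
  have h3 : ∀ j' ∈ t, ex p (fun x : Input n d =>
      oi (x (false, i)) (x (true, j)) * g (x (true, j'))) = (1 - p ^ 2) ^ d * ev p g := by
    intro j' hj'
    refine ex_e3 g i j (by simp) ?_
    intro h
    rw [Prod.mk.injEq] at h
    exact ht (h.2 ▸ hj')
  rw [Finset.sum_congr rfl h2, Finset.sum_congr rfl h3, Finset.sum_const, Finset.sum_const,
    nsmul_eq_mul, nsmul_eq_mul]
  ring

private theorem grp {h : ℕ} (hh : 1 ≤ h) (i : Fin n) :
    (Finset.univ.filter fun i' : Fin n => i' ≠ i ∧ (i' : ℕ) / h = i / h).card ≤ h := by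
  calc (Finset.univ.filter fun i' : Fin n => i' ≠ i ∧ (i' : ℕ) / h = i / h).card
      ≤ (Finset.range h).card := by
        refine Finset.card_le_card_of_injOn (fun i' : Fin n => (i' : ℕ) % h) ?_ ?_
        · intro i' _
          exact Finset.mem_coe.2 (Finset.mem_range.2 (Nat.mod_lt _ hh))
        · intro a ha b hb hab
          have ha2 := (Finset.mem_filter.1 (Finset.mem_coe.1 ha)).2.2
          have hb2 := (Finset.mem_filter.1 (Finset.mem_coe.1 hb)).2.2
          dsimp only at hab
          apply Fin.ext
          rw [← Nat.div_add_mod (a : ℕ) h, ← Nat.div_add_mod (b : ℕ) h, ha2, hb2, hab]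
    _ = h := Finset.card_range h

open Classical in
theorem up_err (h0 : 0 ≤ p) (h1 : p ≤ 1) (low : Vec d → Prop) {h q : ℕ} (hh : 1 ≤ h)
    (hn : n ≤ q * h) :
    prob p (fun x : Input n d => ¬ (up n low h q).CorrectOn x) ≤
      n ^ 2 * (2 * ev p (fun u : Vec d => gg p u * if low u then 0 else 1) +
        2 * h * (1 - p ^ 2) ^ d * ev p (fun u : Vec d => if low u then 1 else 0)) := by
  have hpt : ∀ x : Input n d, (if ¬ (up n low h q).CorrectOn x then (1 : ℝ) else 0) ≤
      ∑ i : Fin n, ∑ j : Fin n, oi (x (false, i)) (x (true, j)) *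
        ((if low (x (false, i)) then (0 : ℝ) else 1) + (if low (x (true, j)) then (0 : ℝ) else 1) +
          ∑ i' ∈ Finset.univ.filter fun i' : Fin n => i' ≠ i ∧ (i' : ℕ) / h = i / h,
            (if low (x (false, i')) then (1 : ℝ) else 0) +
          ∑ j' ∈ Finset.univ.filter fun j' : Fin n => j' ≠ j ∧ (j' : ℕ) / h = j / h,
            (if low (x (true, j')) then (1 : ℝ) else 0)) := by
    intro x
    have hs1 : ∀ (s : Finset (Fin n)) (b : Bool),
        0 ≤ ∑ i' ∈ s, (if low (x (b, i')) then (1 : ℝ) else 0) := fun s b =>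
      Finset.sum_nonneg fun i' _ => by split_ifs <;> norm_num
    have ha1 : ∀ b i, 0 ≤ (if low (x (b, i)) then (0 : ℝ) else 1) := fun b i => by
      split_ifs <;> norm_num
    have hnn : ∀ i j : Fin n, 0 ≤ oi (x (false, i)) (x (true, j)) *
        ((if low (x (false, i)) then (0 : ℝ) else 1) + (if low (x (true, j)) then (0 : ℝ) else 1) +
          ∑ i' ∈ Finset.univ.filter fun i' : Fin n => i' ≠ i ∧ (i' : ℕ) / h = i / h,
            (if low (x (false, i')) then (1 : ℝ) else 0) +
          ∑ j' ∈ Finset.univ.filter fun j' : Fin n => j' ≠ j ∧ (j' : ℕ) / h = j / h,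
            (if low (x (true, j')) then (1 : ℝ) else 0)) := by
      intro i j
      refine mul_nonneg (oi_nonneg _ _) ?_
      have := hs1 (Finset.univ.filter fun i' : Fin n => i' ≠ i ∧ (i' : ℕ) / h = i / h) false
      have := hs1 (Finset.univ.filter fun j' : Fin n => j' ≠ j ∧ (j' : ℕ) / h = j / h) true
      have := ha1 false i
      have := ha1 true j
      linarith
    by_cases hc : (up n low h q).CorrectOn x
    · rw [if_neg (not_not.2 hc)]
      exact Finset.sum_nonneg fun i _ => Finset.sum_nonneg fun j _ => hnn i j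
    · rw [if_pos hc]
      have hrej : ¬ 0 < (up n low h q).result x (up n low h q).last := fun h2 =>
        hc ⟨fun _ => up_sound low h q x h2, fun _ => h2⟩
      have hyes : HasOrthogonalPair x := by
        by_contra h2
        exact hc ⟨fun h3 => absurd h3 hrej, fun h3 => absurd h3 h2⟩
      obtain ⟨i, j, hij⟩ := hyes
      have hoi : oi (x (false, i)) (x (true, j)) = 1 := by rw [oi_eq, if_pos hij]
      have hone : 1 ≤ oi (x (false, i)) (x (true, j)) *
        ((if low (x (false, i)) then (0 : ℝ) else 1) + (if low (x (true, j)) then (0 : ℝ) else 1) +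
          ∑ i' ∈ Finset.univ.filter fun i' : Fin n => i' ≠ i ∧ (i' : ℕ) / h = i / h,
            (if low (x (false, i')) then (1 : ℝ) else 0) +
          ∑ j' ∈ Finset.univ.filter fun j' : Fin n => j' ≠ j ∧ (j' : ℕ) / h = j / h,
            (if low (x (true, j')) then (1 : ℝ) else 0)) := by
        rw [hoi, one_mul]
        have e1 := hs1 (Finset.univ.filter fun i' : Fin n => i' ≠ i ∧ (i' : ℕ) / h = i / h) false
        have e2 := hs1 (Finset.univ.filter fun j' : Fin n => j' ≠ j ∧ (j' : ℕ) / h = j / h) true
        have e3 := ha1 false i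
        have e4 := ha1 true j
        by_cases k1 : low (x (false, i))
        swap
        · rw [if_neg k1]; linarith
        by_cases k2 : low (x (true, j))
        swap
        · rw [if_neg k2]; linarith
        by_cases k3 : ∃ i' : Fin n, (i' ≠ i ∧ (i' : ℕ) / h = i / h) ∧ low (x (false, i'))
        · obtain ⟨i', hi', hl⟩ := k3
          have e5 : (1 : ℝ) ≤ ∑ i' ∈ Finset.univ.filter fun i' : Fin n =>
              i' ≠ i ∧ (i' : ℕ) / h = i / h, (if low (x (false, i')) then (1 : ℝ) else 0) := by
            have e6 := Finset.single_le_sum (s := Finset.univ.filter fun i' : Fin n =>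
              i' ≠ i ∧ (i' : ℕ) / h = i / h) (f := fun i' : Fin n =>
              (if low (x (false, i')) then (1 : ℝ) else 0)) (fun k _ => by
                split_ifs <;> norm_num)
              (Finset.mem_filter.2 ⟨Finset.mem_univ i', hi'⟩)
            rw [if_pos hl] at e6
            exact e6
          linarith
        by_cases k4 : ∃ j' : Fin n, (j' ≠ j ∧ (j' : ℕ) / h = j / h) ∧ low (x (true, j'))
        · obtain ⟨j', hj', hl⟩ := k4
          have e5 : (1 : ℝ) ≤ ∑ j' ∈ Finset.univ.filter fun j' : Fin n =>
              j' ≠ j ∧ (j' : ℕ) / h = j / h, (if low (x (true, j')) then (1 : ℝ) else 0) := by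
            have e6 := Finset.single_le_sum (s := Finset.univ.filter fun j' : Fin n =>
              j' ≠ j ∧ (j' : ℕ) / h = j / h) (f := fun j' : Fin n =>
              (if low (x (true, j')) then (1 : ℝ) else 0)) (fun k _ => by
                split_ifs <;> norm_num)
              (Finset.mem_filter.2 ⟨Finset.mem_univ j', hj'⟩)
            rw [if_pos hl] at e6
            exact e6
          linarith
        exact absurd (up_complete low hh hn x i j (by rw [hoi]; exact one_ne_zero) k1 k2
          (fun i' h2 h3 h4 => k3 ⟨i', ⟨h2, h3⟩, h4⟩)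
          (fun j' h2 h3 h4 => k4 ⟨j', ⟨h2, h3⟩, h4⟩)) hrej
      refine hone.trans ?_
      refine le_trans ?_ (Finset.single_le_sum (fun i _ => Finset.sum_nonneg fun j _ => hnn i j)
        (Finset.mem_univ i))
      exact Finset.single_le_sum (fun j _ => hnn i j) (Finset.mem_univ j)
  have hprob : prob p (fun x : Input n d => ¬ (up n low h q).CorrectOn x) =
      ex p (fun x : Input n d => if ¬ (up n low h q).CorrectOn x then (1 : ℝ) else 0) := by
    unfold prob
    congr 1
    funext x
    by_cases hc : (up n low h q).CorrectOn x <;> simp [hc]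
  rw [hprob]
  refine (ex_mono h0 h1 hpt).trans ?_
  rw [ex_sum]
  have hsum : ∀ i : Fin n, ex p (fun x : Input n d => ∑ j : Fin n,
      oi (x (false, i)) (x (true, j)) *
        ((if low (x (false, i)) then (0 : ℝ) else 1) + (if low (x (true, j)) then (0 : ℝ) else 1) +
          ∑ i' ∈ Finset.univ.filter fun i' : Fin n => i' ≠ i ∧ (i' : ℕ) / h = i / h,
            (if low (x (false, i')) then (1 : ℝ) else 0) +
          ∑ j' ∈ Finset.univ.filter fun j' : Fin n => j' ≠ j ∧ (j' : ℕ) / h = j / h,
            (if low (x (true, j')) then (1 : ℝ) else 0))) ≤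
      n * (2 * ev p (fun u : Vec d => gg p u * if low u then 0 else 1) +
        2 * h * (1 - p ^ 2) ^ d * ev p (fun u : Vec d => if low u then 1 else 0)) := by
    intro i
    rw [ex_sum]
    have hn2 : (n : ℝ) * (2 * ev p (fun u : Vec d => gg p u * if low u then 0 else 1) +
        2 * h * (1 - p ^ 2) ^ d * ev p (fun u : Vec d => if low u then 1 else 0)) =
        ∑ _j : Fin n, (2 * ev p (fun u : Vec d => gg p u * if low u then 0 else 1) +
        2 * h * (1 - p ^ 2) ^ d * ev p (fun u : Vec d => if low u then 1 else 0)) := by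
      rw [Finset.sum_const, Finset.card_univ, Fintype.card_fin, nsmul_eq_mul]
    rw [hn2]
    refine Finset.sum_le_sum fun j _ => ?_
    have h2 := ex_term (n := n) (p := p) (fun u : Vec d => if low u then (0 : ℝ) else 1)
      (fun u : Vec d => if low u then (1 : ℝ) else 0) i j
      (Finset.univ.filter fun i' : Fin n => i' ≠ i ∧ (i' : ℕ) / h = i / h)
      (Finset.univ.filter fun j' : Fin n => j' ≠ j ∧ (j' : ℕ) / h = j / h)
      (by simp) (by simp)
    rw [h2]
    have h3 : ((Finset.univ.filter fun i' : Fin n => i' ≠ i ∧ (i' : ℕ) / h = i / h).card : ℝ) ≤ h :=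
      by exact_mod_cast grp hh i
    have h4 : ((Finset.univ.filter fun j' : Fin n => j' ≠ j ∧ (j' : ℕ) / h = j / h).card : ℝ) ≤ h :=
      by exact_mod_cast grp hh j
    have hp2 : 0 ≤ 1 - p ^ 2 := by nlinarith
    have h5 : 0 ≤ (1 - p ^ 2) ^ d * ev p (fun u : Vec d => if low u then (1 : ℝ) else 0) :=
      mul_nonneg (pow_nonneg hp2 d) (ev_nonneg h0 h1 fun u => by split_ifs <;> norm_num)
    have h6 := mul_le_mul_of_nonneg_right (add_le_add h3 h4) h5
    linarith
  refine (Finset.sum_le_sum fun i _ => hsum i).trans ?_
  rw [Finset.sum_const, Finset.card_univ, Fintype.card_fin, nsmul_eq_mul]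
  exact le_of_eq (by ring)

end Pool.Agent.H2.AV
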