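import Pool.Agent.H2.AV.Base

/-!
# [H2 AV EX] Expectations

PROOFS. `bern_eq`: definition. `ev_one`: `sum_z prod_k w(z_k) = prod_k (p + (1-p)) = 1` (`Finset.prod_univ_sum` / `Fintype.piFinset_univ`,
`Fintype.sum_bool`). `ex_prod_all`: the same product formula over the positions `q : Pos n` (the type of values is `Vec d`).
`ex_one`, `ex_marg`, `ex_prod` are special cases (for `ex_prod` take `f (b', j) = 1` for `b' <> b`; `Fintype.prod_prod_type`,
`Fintype.prod_bool`). `ex_resample`: `sum_x sum_z bern(x) bv(z) F(update x q z)`: the map `(x,z) -> (update x q z, x q)` is an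
involution of `Input x Vec` and `bern(update x q z) bv(x q) = bern(x) bv(z)` (both are `prod_{q' <> q} bv(x q')` times `bv(x q) bv(z)`,
`Finset.prod_update_of_mem` or `Fintype.prod_eq_mul_prod_compl`), so the double sum is `sum_(x,z) bern(x) bv(z) F(x) = ex F`.
`ev_swap`: `Finset.sum_comm`. The rest: `bv, bern >= 0`, `abs_sum_le_sum_abs`. `ex_sq_le`: Cauchy-Schwarz, or
`0 <= ex (|F| - ex |F|)^2`.
-/

set_option autoImplicit false

namespace Pool.Agent.H2.AV

variable {n d : ℕ} {p : ℝ}

theorem bern_eq (p : ℝ) (x : Input n d) : bern p x = ∏ q, bv p (x q) := rfl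

theorem bv_nonneg (h0 : 0 ≤ p) (h1 : p ≤ 1) (z : Vec d) : 0 ≤ bv p z := by
  unfold bv
  apply Finset.prod_nonneg
  intro k _
  split_ifs
  · exact h0
  · linarith

theorem bern_nonneg (h0 : 0 ≤ p) (h1 : p ≤ 1) (x : Input n d) : 0 ≤ bern p x := by
  rw [bern_eq]
  exact Finset.prod_nonneg fun q _ => bv_nonneg h0 h1 _

/-- product formula over the coordinates -/
theorem ev_prod (p : ℝ) (f : Fin d → Bool → ℝ) :
    ev p (fun z : Vec d => ∏ k, f k (z k)) = ∏ k, (p * f k true + (1 - p) * f k false) := by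
  have h : ∀ k : Fin d, p * f k true + (1 - p) * f k false =
      ∑ b : Bool, (if b then p else 1 - p) * f k b := by
    intro k
    rw [Fintype.sum_bool]
    simp
  simp_rw [h]
  rw [Finset.prod_univ_sum, Fintype.piFinset_univ]
  unfold ev bv
  apply Finset.sum_congr rfl
  intro z _
  rw [← Finset.prod_mul_distrib]

theorem ev_one (p : ℝ) : ev p (fun _ : Vec d => (1 : ℝ)) = 1 := by
  have h := ev_prod (d := d) p (fun _ _ => 1)
  simpa using h

theorem ex_prod_all (p : ℝ) (f : Pos n → Vec d → ℝ) :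
    ex p (fun x : Input n d => ∏ q, f q (x q)) = ∏ q, ev p (f q) := by
  unfold ev
  rw [Finset.prod_univ_sum, Fintype.piFinset_univ]
  unfold ex
  apply Finset.sum_congr rfl
  intro z _
  rw [bern_eq, ← Finset.prod_mul_distrib]

theorem ex_one (p : ℝ) : ex p (fun _ : Input n d => (1 : ℝ)) = 1 := by
  have h := ex_prod_all (n := n) (d := d) p (fun _ _ => 1)
  simp only [Finset.prod_const_one] at h
  rw [h]
  apply Finset.prod_eq_one
  intro q _
  exact ev_one p

theorem ev_mul (p c : ℝ) (F : Vec d → ℝ) : ev p (fun x => c * F x) = c * ev p F := by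
  unfold ev
  rw [Finset.mul_sum]
  apply Finset.sum_congr rfl
  intro z _
  ring

theorem ex_mul (p c : ℝ) (F : Input n d → ℝ) : ex p (fun x => c * F x) = c * ex p F := by
  unfold ex
  rw [Finset.mul_sum]
  apply Finset.sum_congr rfl
  intro z _
  ring

private theorem bern_update (p : ℝ) (q : Pos n) (x : Input n d) (z : Vec d) :
    bern p (Function.update x q z) * bv p (x q) = bern p x * bv p z := by
  rw [bern_eq, bern_eq, ← Finset.mul_prod_erase Finset.univ _ (Finset.mem_univ q),
    ← Finset.mul_prod_erase Finset.univ (fun q' => bv p (x q')) (Finset.mem_univ q)]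
  have h : ∏ q' ∈ Finset.univ.erase q, bv p (Function.update x q z q') =
      ∏ q' ∈ Finset.univ.erase q, bv p (x q') := by
    apply Finset.prod_congr rfl
    intro q' hq'
    rw [Function.update_of_ne (Finset.ne_of_mem_erase hq')]
  rw [h, Function.update_self]
  ring

private def swp (q : Pos n) : (Input n d × Vec d) ≃ (Input n d × Vec d) where
  toFun := fun a => (Function.update a.1 q a.2, a.1 q)
  invFun := fun a => (Function.update a.1 q a.2, a.1 q)
  left_inv := by
    intro a
    ext1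
    · simp
    · simp
  right_inv := by
    intro a
    ext1
    · simp
    · simp

theorem ex_resample (p : ℝ) (q : Pos n) (F : Input n d → ℝ) :
    ex p F = ex p fun x => ev p fun z => F (Function.update x q z) := by
  have h1 : (ex p fun x => ev p fun z => F (Function.update x q z)) =
      ∑ a : Input n d × Vec d, bern p a.1 * bv p a.2 * F (Function.update a.1 q a.2) := by
    rw [Fintype.sum_prod_type]
    unfold ex ev
    apply Finset.sum_congr rfl
    intro x _
    rw [Finset.mul_sum]
    apply Finset.sum_congr rfl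
    intro z _
    ring
  have h2 : ex p F = ∑ a : Input n d × Vec d, bern p a.1 * bv p a.2 * F a.1 := by
    rw [Fintype.sum_prod_type]
    unfold ex
    apply Finset.sum_congr rfl
    intro x _
    have h := ev_one (d := d) p
    unfold ev at h
    simp only [mul_one] at h
    have e : ∑ z : Vec d, bern p x * bv p z * F x = bern p x * F x * ∑ z : Vec d, bv p z := by
      rw [Finset.mul_sum]
      apply Finset.sum_congr rfl
      intro z _
      ring
    rw [e, h, mul_one]
  rw [h1, h2]
  rw [← Equiv.sum_comp (swp q) (fun a : Input n d × Vec d => bern p a.1 * bv p a.2 * F a.1)]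
  apply Finset.sum_congr rfl
  rintro ⟨x, z⟩ _
  show bern p (Function.update x q z) * bv p (x q) * F (Function.update x q z) = _
  rw [bern_update]

theorem ex_marg (p : ℝ) (q : Pos n) (f : Vec d → ℝ) :
    ex p (fun x : Input n d => f (x q)) = ev p f := by
  rw [ex_resample p q]
  simp only [Function.update_self]
  have h := ex_mul (n := n) (d := d) p (ev p f) (fun _ => 1)
  rw [ex_one] at h
  simp only [mul_one] at h
  exact h

theorem ex_prod (p : ℝ) (b : Bool) (f : Fin n → Vec d → ℝ) :
    ex p (fun x : Input n d => ∏ j, f j (x (b, j))) = ∏ j, ev p (f j) := by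
  have h := ex_prod_all (n := n) (d := d) p (fun q => if q.1 = b then f q.2 else fun _ => 1)
  have e1 : ∀ x : Input n d, ∏ q : Pos n, (if q.1 = b then f q.2 else fun _ => (1 : ℝ)) (x q) =
      ∏ j, f j (x (b, j)) := by
    intro x
    rw [Fintype.prod_prod_type, Fintype.prod_bool]
    cases b <;> simp
  have e2 : ∏ q : Pos n, ev p (if q.1 = b then f q.2 else fun _ => (1 : ℝ)) =
      ∏ j, ev p (f j) := by
    rw [Fintype.prod_prod_type, Fintype.prod_bool]
    cases b <;> simp [ev_one]
  rw [← e2, ← h]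
  congr 1
  funext x
  exact (e1 x).symm

theorem ex_add (p : ℝ) (F G : Input n d → ℝ) : ex p (fun x => F x + G x) = ex p F + ex p G := by
  unfold ex
  rw [← Finset.sum_add_distrib]
  apply Finset.sum_congr rfl
  intro z _
  ring

theorem ex_sub (p : ℝ) (F G : Input n d → ℝ) : ex p (fun x => F x - G x) = ex p F - ex p G := by
  unfold ex
  rw [← Finset.sum_sub_distrib]
  apply Finset.sum_congr rfl
  intro z _
  ring

theorem ex_sum {ι : Type} (s : Finset ι) (p : ℝ) (F : ι → Input n d → ℝ) :
    ex p (fun x => ∑ i ∈ s, F i x) = ∑ i ∈ s, ex p (F i) := by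
  unfold ex
  rw [Finset.sum_comm]
  apply Finset.sum_congr rfl
  intro z _
  rw [Finset.mul_sum]

theorem ex_mono (h0 : 0 ≤ p) (h1 : p ≤ 1) {F G : Input n d → ℝ} (h : ∀ x, F x ≤ G x) :
    ex p F ≤ ex p G := by
  unfold ex
  apply Finset.sum_le_sum
  intro x _
  exact mul_le_mul_of_nonneg_left (h x) (bern_nonneg h0 h1 x)

theorem ex_nonneg (h0 : 0 ≤ p) (h1 : p ≤ 1) {F : Input n d → ℝ} (h : ∀ x, 0 ≤ F x) :
    0 ≤ ex p F := by
  unfold ex
  apply Finset.sum_nonneg
  intro x _
  exact mul_nonneg (bern_nonneg h0 h1 x) (h x)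

theorem abs_ex_le (h0 : 0 ≤ p) (h1 : p ≤ 1) (F : Input n d → ℝ) :
    |ex p F| ≤ ex p fun x => |F x| := by
  unfold ex
  refine (Finset.abs_sum_le_sum_abs _ _).trans ?_
  apply Finset.sum_le_sum
  intro x _
  rw [abs_mul, abs_of_nonneg (bern_nonneg h0 h1 x)]

theorem ex_sq_le (h0 : 0 ≤ p) (h1 : p ≤ 1) (F : Input n d → ℝ) :
    (ex p fun x => |F x|) ^ 2 ≤ ex p fun x => F x ^ 2 := by
  set c := ex p fun x => |F x| with hc
  have h : 0 ≤ ex p fun x => (|F x| - c) ^ 2 := ex_nonneg h0 h1 fun x => sq_nonneg _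
  have e : (ex p fun x => (|F x| - c) ^ 2) = (ex p fun x => F x ^ 2) - c ^ 2 := by
    have e1 : ∀ x, (|F x| - c) ^ 2 = F x ^ 2 - (2 * c) * |F x| + c ^ 2 * 1 := by
      intro x
      have := sq_abs (F x)
      nlinarith
    simp_rw [e1]
    rw [ex_add, ex_sub, ex_mul, ex_mul, ex_one, ← hc]
    ring
  rw [e] at h
  linarith

theorem ev_add (p : ℝ) (F G : Vec d → ℝ) : ev p (fun x => F x + G x) = ev p F + ev p G := by
  unfold ev
  rw [← Finset.sum_add_distrib]
  apply Finset.sum_congr rfl
  intro z _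
  ring

theorem ev_sub (p : ℝ) (F G : Vec d → ℝ) : ev p (fun x => F x - G x) = ev p F - ev p G := by
  unfold ev
  rw [← Finset.sum_sub_distrib]
  apply Finset.sum_congr rfl
  intro z _
  ring

theorem ev_sum {ι : Type} (s : Finset ι) (p : ℝ) (F : ι → Vec d → ℝ) :
    ev p (fun x => ∑ i ∈ s, F i x) = ∑ i ∈ s, ev p (F i) := by
  unfold ev
  rw [Finset.sum_comm]
  apply Finset.sum_congr rfl
  intro z _
  rw [Finset.mul_sum]

theorem ev_mono (h0 : 0 ≤ p) (h1 : p ≤ 1) {F G : Vec d → ℝ} (h : ∀ x, F x ≤ G x) :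
    ev p F ≤ ev p G := by
  unfold ev
  apply Finset.sum_le_sum
  intro x _
  exact mul_le_mul_of_nonneg_left (h x) (bv_nonneg h0 h1 x)

theorem ev_nonneg (h0 : 0 ≤ p) (h1 : p ≤ 1) {F : Vec d → ℝ} (h : ∀ x, 0 ≤ F x) :
    0 ≤ ev p F := by
  unfold ev
  apply Finset.sum_nonneg
  intro x _
  exact mul_nonneg (bv_nonneg h0 h1 x) (h x)

theorem ev_swap (p : ℝ) (F : Vec d → Vec d → ℝ) :
    ev p (fun u => ev p fun v => F u v) = ev p fun v => ev p fun u => F u v := by
  unfold ev
  simp_rw [Finset.mul_sum]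
  rw [Finset.sum_comm]
  apply Finset.sum_congr rfl
  intro v _
  apply Finset.sum_congr rfl
  intro u _
  ring

end Pool.Agent.H2.AV
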