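import Pool.Agent.H2.AV.Sig
import Pool.Agent.H2.AV.Base

/-!
# [H2 AV FAM] The answer of a machine as a function of one vector lies in a small family

PROOF of `fam`. `S = Sig M q d J (Fintype.card (Vec d))` (finite: `finite_sig`; nonempty: it contains `sg x`), with `B = Input n d`,
`Z = Vec d`, `X b z = Function.update b q z`, `bits = id` (`bits b r = b r : Fin d -> Bool`), `z0 = fun _ => false`:
`sg b = sig M q X d J z0 bits b`, `h s z := exists b, sg b = s and 0 < M.result (X b z) M.last`. `accepts_of_sig` (its hypotheses
are immediate for this `X`) gives `0 < M.result (X x z) M.last <-> h (sg x) z`. Cardinality: `card_sig`, `card (Vec d) = 2^d`.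
`share_bad`: `sum_share` and `Finset.card_nsmul_le_sum` on the filter.
-/

set_option autoImplicit false

namespace Pool.Agent.H2.AV

variable {n d : ℕ}

theorem fam (M : Machine n d) {J : ℕ} (hM : M.Steps J) (q : Pos n) :
    ∃ (S : Type) (_ : Fintype S) (_ : Nonempty S) (sg : Input n d → S) (h : S → Vec d → Prop),
      Fintype.card S = (Nat.card (M.ViewsAt q) + 1) ^ nOut M q *
        ((Nat.card (M.ViewsAt q) + 1) ^ Nat.card (M.RoutinesAt q) *
        ((2 ^ d) ^ nLook M q *
        ((2 * (J * 2 ^ d) + 1) ^ Nat.card (M.ViewsAt q) *
        ((2 ^ d) ^ Nat.card (M.PairsAt q) * 2)))) ∧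
      ∀ x z, 0 < M.result (Function.update x q z) M.last ↔ h (sg x) z := by
  classical
  let X : Input n d → Vec d → Input n d := fun b z => Function.update b q z
  let bits : Input n d → Pos n → Fin d → Bool := fun b r => b r
  let z0 : Vec d := fun _ => false
  haveI hfin : Finite (Sig M q d J (Fintype.card (Vec d))) := finite_sig d J _ M q
  letI : Fintype (Sig M q d J (Fintype.card (Vec d))) := Fintype.ofFinite _
  let sg : Input n d → Sig M q d J (Fintype.card (Vec d)) := sig M q X d J z0 bits
  refine ⟨Sig M q d J (Fintype.card (Vec d)), inferInstance, ⟨sg (fun _ _ => false)⟩, sg,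
    fun s z => ∃ b, sg b = s ∧ 0 < M.result (X b z) M.last, ?_, ?_⟩
  · rw [← Nat.card_eq_fintype_card, card_sig]
    have h : Fintype.card (Vec d) = 2 ^ d := by simp
    rw [h]
  · intro x z
    have h1 : ∀ (b : Input n d) (z z' : Vec d) (r : Pos n), r ≠ q → X b z r = X b z' r := by
      intro b z z' r hr
      show Function.update b q z r = Function.update b q z' r
      rw [Function.update_of_ne hr, Function.update_of_ne hr]
    have h2 : ∀ (b b' : Input n d) (z : Vec d), X b z q = X b' z q := by
      intro b b' z
      show Function.update b q z q = Function.update b' q z q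
      rw [Function.update_self, Function.update_self]
    have h3 : ∀ (b b' : Input n d) (r : Pos n), bits b r = bits b' r →
        ∀ z, X b z r = X b' z r := by
      intro b b' r hbr z
      show Function.update b q z r = Function.update b' q z r
      by_cases hr : r = q
      · subst hr
        rw [Function.update_self, Function.update_self]
      · rw [Function.update_of_ne hr, Function.update_of_ne hr]
        exact hbr
    constructor
    · intro h
      exact ⟨x, rfl, h⟩
    · rintro ⟨b, hb, h⟩
      exact (accepts_of_sig hM h1 h2 h3 hb z).1 h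

open Classical in
theorem share_bad (M : Machine n d) (K : ℕ) {T : ℝ} (hT : 0 < T) :
    T * (Finset.univ.filter fun i : Fin n => T < (share M K (true, i) : ℝ)).card ≤
      2 * M.cost K := by
  have h1 : (∑ i : Fin n, (share M K (true, i) : ℝ)) ≤ 2 * M.cost K := by
    exact_mod_cast sum_share M K
  refine le_trans ?_ h1
  calc T * (Finset.univ.filter fun i : Fin n => T < (share M K (true, i) : ℝ)).card
      = ∑ _i ∈ Finset.univ.filter fun i : Fin n => T < (share M K (true, i) : ℝ), T := by
        rw [Finset.sum_const, nsmul_eq_mul, mul_comm]
    _ ≤ ∑ i ∈ Finset.univ.filter fun i : Fin n => T < (share M K (true, i) : ℝ),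
          (share M K (true, i) : ℝ) := by
        apply Finset.sum_le_sum
        intro i hi
        exact (Finset.mem_filter.1 hi).2.le
    _ ≤ ∑ i : Fin n, (share M K (true, i) : ℝ) := by
        apply Finset.sum_le_sum_of_subset_of_nonneg (Finset.filter_subset _ _)
        intro i _ _
        positivity

end Pool.Agent.H2.AV
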