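import Pool.Agent.H2.AV.Ex

/-!
# [H2 AV RND] Random machines

PROOF of `rnd`. For each `x`, `mu.toOuterMeasure {M | M.CorrectOn x} = sum'_M mu M * (if M.CorrectOn x then 1 else 0) =: F x <= 1`
(`PMF.toOuterMeasure_apply`, `Set.indicator`). `ex p (toReal F) = toReal (sum_x ofReal(bern p x) * F x)` and
`sum_x ofReal(bern) F x = sum'_M mu M * ofReal(prob p M.CorrectOn)` (`ENNReal.tsum_comm` or `tsum_finsetSum`, `ENNReal.tsum_mul_left`).
For `M` in the support `ofReal(prob p M.CorrectOn) <= ofReal c + (if T < C M then 1 else 0) <= ofReal c + C M/T`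
(`prob <= 1`), for the others `mu M = 0`. So the sum is `<= ofReal c + ofReal B/ofReal T` (`PMF.tsum_coe`), and take `toReal`.
`correct_le`: `u = P(acc, no)`, `v = P(acc)` in `[0,1]`, `w = P(no)`: `P(correct) = (v - u) + (w - u)`, `|v w - u| <= 2 t`, so
`P(correct) <= v (1-w) + (1-v) w + 4 t <= max (1-w) w + 4 t`.
-/

set_option autoImplicit false

namespace Pool.Agent.H2.AV

variable {n d : ℕ} {p : ℝ}

theorem prob_nonneg (h0 : 0 ≤ p) (h1 : p ≤ 1) (S : Input n d → Prop) : 0 ≤ prob p S := by
  unfold prob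
  exact ex_nonneg h0 h1 fun x => by split_ifs <;> norm_num

theorem prob_le_one (h0 : 0 ≤ p) (h1 : p ≤ 1) (S : Input n d → Prop) : prob p S ≤ 1 := by
  rw [← ex_one (n := n) (d := d) p]
  unfold prob
  exact ex_mono h0 h1 fun x => by split_ifs <;> norm_num

theorem prob_not (p : ℝ) (S : Input n d → Prop) : prob p (fun x => ¬ S x) = 1 - prob p S := by
  classical
  rw [← ex_one (n := n) (d := d) p]
  unfold prob
  rw [← ex_sub]
  congr 1
  funext x
  by_cases h : S x <;> simp [h]

theorem prob_mono (h0 : 0 ≤ p) (h1 : p ≤ 1) {S S' : Input n d → Prop} (h : ∀ x, S x → S' x) :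
    prob p S ≤ prob p S' := by
  unfold prob
  refine ex_mono h0 h1 fun x => ?_
  by_cases h2 : S x
  · rw [if_pos h2, if_pos (h x h2)]
  · rw [if_neg h2]; split_ifs <;> norm_num

private theorem prob_split (p : ℝ) (S Y : Input n d → Prop) :
    prob p S = prob p (fun x => S x ∧ Y x) + prob p (fun x => S x ∧ ¬ Y x) := by
  classical
  unfold prob
  rw [← ex_add]
  congr 1
  funext x
  by_cases h : S x <;> by_cases h' : Y x <;> simp [h, h']

theorem indep_of (h0 : 0 ≤ p) (h1 : p ≤ 1) (S Y : Input n d → Prop) {e t : ℝ}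
    (hY : |prob p (fun x => ¬ Y x) - e| ≤ t)
    (hS : |prob p (fun x => S x ∧ ¬ Y x) - e * prob p S| ≤ t) :
    |prob p (fun x => S x ∧ Y x) - prob p S * prob p Y| ≤ 2 * t := by
  have h2 := prob_split p S Y
  have h3 := prob_not p Y
  have h4 := prob_nonneg h0 h1 S
  have h5 := prob_le_one h0 h1 S
  have h6 : prob p (fun x => S x ∧ Y x) - prob p S * prob p Y =
      prob p S * (prob p (fun x => ¬ Y x) - e) -
        (prob p (fun x => S x ∧ ¬ Y x) - e * prob p S) := by
    rw [h3]; linarith
  rw [h6]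
  refine (abs_sub _ _).trans ?_
  rw [abs_mul, abs_of_nonneg h4]
  have h7 : prob p S * |prob p (fun x => ¬ Y x) - e| ≤ 1 * t :=
    mul_le_mul h5 hY (abs_nonneg _) zero_le_one
  linarith

theorem correct_le (h0 : 0 ≤ p) (h1 : p ≤ 1) (M : Machine n d) {e t : ℝ}
    (hY : |prob p (fun x : Input n d => ¬ HasOrthogonalPair x) - e| ≤ t)
    (hS : |prob p (fun x => 0 < M.result x M.last ∧ ¬ HasOrthogonalPair x) -
      e * prob p (fun x => 0 < M.result x M.last)| ≤ t) :
    prob p M.CorrectOn ≤ max (prob p (HasOrthogonalPair (n := n) (d := d)))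
      (1 - prob p (HasOrthogonalPair (n := n) (d := d))) + 4 * t := by
  have h2 := prob_split p (fun x => 0 < M.result x M.last) (HasOrthogonalPair (n := n) (d := d))
  have h3 := prob_not p (HasOrthogonalPair (n := n) (d := d))
  have h4 := prob_nonneg h0 h1 (fun x : Input n d => 0 < M.result x M.last)
  have h5 := prob_le_one h0 h1 (fun x : Input n d => 0 < M.result x M.last)
  have h6 : prob p M.CorrectOn =
      prob p (fun x => 0 < M.result x M.last ∧ HasOrthogonalPair x) +
        (prob p (fun x : Input n d => ¬ HasOrthogonalPair x) -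
          prob p (fun x => 0 < M.result x M.last ∧ ¬ HasOrthogonalPair x)) := by
    classical
    unfold prob
    rw [← ex_sub, ← ex_add]
    congr 1
    funext x
    by_cases h : 0 < M.result x M.last <;> by_cases h' : HasOrthogonalPair x <;>
      simp [h, h', Machine.CorrectOn]
  rw [h6]
  obtain ⟨v, hv⟩ : ∃ v, v = prob p (fun x : Input n d => 0 < M.result x M.last) := ⟨_, rfl⟩
  obtain ⟨u, hu⟩ : ∃ u, u = prob p (fun x => 0 < M.result x M.last ∧ ¬ HasOrthogonalPair x) :=
    ⟨_, rfl⟩
  obtain ⟨y, hy⟩ : ∃ y, y = prob p (HasOrthogonalPair (n := n) (d := d)) := ⟨_, rfl⟩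
  rw [h3] at hY ⊢
  rw [← hv, ← hu] at h2
  rw [← hu]
  rw [← hu, ← hv] at hS
  rw [← hv] at h4 h5
  rw [← hy] at hY ⊢
  have h7 : v * (1 - y) - u ≤ 2 * t := by
    have h8 : v * (1 - y) - u = v * ((1 - y) - e) - (u - e * v) := by ring
    rw [h8]
    have h9 : v * ((1 - y) - e) ≤ v * t := mul_le_mul_of_nonneg_left ((le_abs_self _).trans hY) h4
    have h10 : v * t ≤ 1 * t := mul_le_mul_of_nonneg_right h5 ((abs_nonneg _).trans hY)
    have h11 := neg_abs_le (u - e * v)
    linarith
  have h12 : v * y ≤ v * max y (1 - y) := mul_le_mul_of_nonneg_left (le_max_left _ _) h4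
  have h13 : (1 - v) * (1 - y) ≤ (1 - v) * max y (1 - y) :=
    mul_le_mul_of_nonneg_left (le_max_right _ _) (by linarith)
  nlinarith

theorem rnd (h0 : 0 ≤ p) (h1 : p ≤ 1) (μ : PMF (Machine n d)) (cost : Machine n d → ℕ)
    {T c B : ℝ} (hT : 0 < T) (hc : 0 ≤ c) (hB : 0 ≤ B)
    (hdet : ∀ M ∈ μ.support, (cost M : ℝ) ≤ T → prob p M.CorrectOn ≤ c)
    (hcost : ∑' M, μ M * (cost M : ENNReal) ≤ ENNReal.ofReal B) :
    ex p (fun x => (μ.toOuterMeasure {M | M.CorrectOn x}).toReal) ≤ c + B / T := by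
  classical
  have hF1 : ∀ x : Input n d, μ.toOuterMeasure {M | M.CorrectOn x} ≤ 1 := by
    intro x
    rw [PMF.toOuterMeasure_apply, ← PMF.tsum_coe μ]
    exact ENNReal.tsum_le_tsum fun M => Set.indicator_le_self' (fun _ _ => zero_le) M
  have hFt : ∀ x : Input n d, μ.toOuterMeasure {M | M.CorrectOn x} ≠ ⊤ := fun x =>
    ne_top_of_le_ne_top ENNReal.one_ne_top (hF1 x)
  have e1 : ex p (fun x => (μ.toOuterMeasure {M | M.CorrectOn x}).toReal) =
      (∑ x : Input n d, ENNReal.ofReal (bern p x) *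
        μ.toOuterMeasure {M | M.CorrectOn x}).toReal := by
    rw [ENNReal.toReal_sum fun x _ => ENNReal.mul_ne_top ENNReal.ofReal_ne_top (hFt x)]
    unfold ex
    refine Finset.sum_congr rfl fun x _ => ?_
    rw [ENNReal.toReal_mul, ENNReal.toReal_ofReal (bern_nonneg h0 h1 x)]
  have e2 : ∑ x : Input n d, ENNReal.ofReal (bern p x) * μ.toOuterMeasure {M | M.CorrectOn x} =
      ∑' M, μ M * ENNReal.ofReal (prob p M.CorrectOn) := by
    have e3 : ∀ x : Input n d,
        ENNReal.ofReal (bern p x) * μ.toOuterMeasure {M | M.CorrectOn x} =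
        ∑' M, μ M * ENNReal.ofReal (bern p x * if M.CorrectOn x then 1 else 0) := by
      intro x
      rw [PMF.toOuterMeasure_apply, ← ENNReal.tsum_mul_left]
      refine tsum_congr fun M => ?_
      by_cases h : M.CorrectOn x
      · rw [Set.indicator_of_mem (by exact h), if_pos h, mul_one, mul_comm]
      · rw [Set.indicator_of_notMem (by exact h), if_neg h, mul_zero, mul_zero,
          ENNReal.ofReal_zero, mul_zero]
    rw [Finset.sum_congr rfl fun x _ => e3 x,
      ← Summable.tsum_finsetSum fun x _ => ENNReal.summable]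
    refine tsum_congr fun M => ?_
    rw [← Finset.mul_sum, ← ENNReal.ofReal_sum_of_nonneg]
    · rfl
    · intro x _
      exact mul_nonneg (bern_nonneg h0 h1 x) (by split_ifs <;> norm_num)
  have e4 : ∑' M, μ M * ENNReal.ofReal (prob p M.CorrectOn) ≤ ENNReal.ofReal (c + B / T) := by
    have e5 : ∀ M, μ M * ENNReal.ofReal (prob p M.CorrectOn) ≤
        ENNReal.ofReal c * μ M + (μ M * (cost M : ENNReal)) * ENNReal.ofReal (1 / T) := by
      intro M
      by_cases hM : M ∈ μ.support
      · by_cases h2 : (cost M : ℝ) ≤ T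
        · refine le_trans ?_ le_self_add
          rw [mul_comm]
          exact mul_le_mul_left (ENNReal.ofReal_le_ofReal (hdet M hM h2)) _
        · refine le_trans ?_ le_add_self
          rw [mul_assoc]
          refine mul_le_mul_right ?_ _
          have h3 : (cost M : ENNReal) = ENNReal.ofReal (cost M : ℝ) :=
            (ENNReal.ofReal_natCast _).symm
          rw [h3, ← ENNReal.ofReal_mul (by positivity)]
          refine ENNReal.ofReal_le_ofReal ((prob_le_one h0 h1 _).trans ?_)
          rw [mul_one_div, one_le_div hT]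
          exact (not_le.1 h2).le
      · have h2 : μ M = 0 := by
          by_contra h3
          exact hM ((PMF.mem_support_iff _ _).2 h3)
        rw [h2]; simp
    refine (ENNReal.tsum_le_tsum e5).trans ?_
    rw [ENNReal.tsum_add, ENNReal.tsum_mul_left, ENNReal.tsum_mul_right, PMF.tsum_coe, mul_one,
      ENNReal.ofReal_add hc (by positivity)]
    refine add_le_add le_rfl ?_
    have h4 : B / T = B * (1 / T) := by rw [mul_one_div]
    rw [h4, ENNReal.ofReal_mul hB]
    exact mul_le_mul_left hcost _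
  rw [e1, e2]
  exact ENNReal.toReal_le_of_le_ofReal (by positivity) e4

end Pool.Agent.H2.AV
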