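import Pool.Agent.H2.AV.Err
import Pool.Agent.H2.AV.Cst
import Pool.Agent.H2.AV.Che
import Pool.Agent.H2.AV.Alp
import Pool.Agent.H2.AV.Nmd

/-!
# [H2 AV UPP] The upper bound

PROOF. `A, D` as in `Nmd`, `q* = p/(1+p)`, `al = alpha p`. Choose `0 < del <= 1` with `2 A del/D <= eps/4`; `low u` iff
`wt u <= tau := d (q* + del)`; `be = 2 - al - eps/2`, so `0 < be < 1` (`eps <= 2 - al`, `one_lt_alpha`); `h = ceil(n^be) <= 2 n^be`, `h <= n`, `q = n/h + 1`
(natural division): `n <= q h`, `q <= 2 n/h` (real), so `q^2 h <= 4 n^2/h <= 4 n^(2-be) = 4 n^(al + eps/2)`.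
Cost (`up_cost`): `<= K (8 (d+3) n^(al+eps/2) + 2 n) <= n^(al+eps)` by `d <= (2 log n + log C)/D` (`d_le`) and `absorb_log`.
Error (`up_err`, `lam = n^2 m <= C`, `m = (1-p^2)^d`): first term `2 n^2 ev(gg 1[tau < wt]) <= 2 lam exp(-(d del^2/4))` (`high_le`, `exp_neg_d`) `<= C1 n^(-c1)`;
second: `2 h lam ev(1[low]) <= 2 h lam m exp(A tau)` (`low_le`), `m = lam/n^2`, `exp(A tau) = exp(d A (q*+del)) <= C2 n^(al + 2 A del/D)` (`exp_d`,
`alpha_eq`), so it is `<= 4 n^be C (C n^(-2)) C2 n^(al + eps/4) = C3 n^(-eps/4)`. `absorb`.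
-/

set_option autoImplicit false

namespace Pool.Agent.H2.AV

open Classical in
theorem upper {p : ℝ} (h0 : 0 < p) (h1 : p < 1) {C : ℝ} (hC : 1 ≤ C) {ε : ℝ} (hε : 0 < ε)
    (hε1 : ε ≤ 2 - alpha p) (K : ℕ) :
    ∃ c : ℝ, 0 < c ∧ ∃ n₀ : ℕ, ∀ n d : ℕ, n₀ ≤ n → Crit p C n d →
      ∃ M : Machine n d, M.Steps 2 ∧ (M.cost K : ℝ) ≤ (n : ℝ) ^ (alpha p + ε) ∧
        (∀ x, 0 < M.result x M.last → HasOrthogonalPair x) ∧
        prob p (fun x : Input n d => ¬ M.CorrectOn x) ≤ (n : ℝ) ^ (-c) := by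
  have hD := D_pos h0 h1
  have hA := A_pos h0 h1
  have hal1 := one_lt_alpha h0 h1
  have hal := alpha_eq h0 h1
  set D := -Real.log (1 - p ^ 2) with hDdef
  set A := -Real.log (1 - p) with hAdef
  set al := alpha p with haldef
  obtain ⟨δ, hδ⟩ : ∃ δ : ℝ, δ = min 1 (ε * D / (8 * A)) := ⟨_, rfl⟩
  have hδ0 : 0 < δ := by rw [hδ]; exact lt_min one_pos (by positivity)
  have hδ1 : δ ≤ 1 := by rw [hδ]; exact min_le_left _ _
  have hδA : 2 * A * δ / D ≤ ε / 4 := by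
    have h2 : δ ≤ ε * D / (8 * A) := by rw [hδ]; exact min_le_right _ _
    rw [le_div_iff₀ (by positivity)] at h2
    rw [div_le_iff₀ hD]
    linarith
  obtain ⟨be, hbe⟩ : ∃ be : ℝ, be = 2 - al - ε / 2 := ⟨_, rfl⟩
  have hbe0 : 0 < be := by rw [hbe]; linarith
  have hbe1 : be < 1 := by rw [hbe]; linarith
  obtain ⟨cc, hcc⟩ : ∃ cc : ℝ, cc = A * (p / (1 + p) + δ) := ⟨_, rfl⟩
  have hq0 : 0 < p / (1 + p) := by positivity
  have hcc0 : 0 < cc := by rw [hcc]; positivity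
  have hccal : 2 * cc / D ≤ al + ε / 4 := by
    have e : 2 * cc / D = 2 * (A * (p / (1 + p))) / D + 2 * A * δ / D := by
      rw [hcc]; ring
    rw [e, ← hal]
    linarith
  have hC0 : 0 < C := by linarith
  obtain ⟨C1, hC1⟩ : ∃ C1 : ℝ, C1 = 2 * C * C ^ (δ ^ 2 / 4 / D) := ⟨_, rfl⟩
  obtain ⟨C3, hC3⟩ : ∃ C3 : ℝ, C3 = 4 * C ^ 2 * C ^ (cc / D) := ⟨_, rfl⟩
  have hC10 : 0 < C1 := by rw [hC1]; positivity
  have hC30 : 0 < C3 := by rw [hC3]; positivity
  obtain ⟨c1, hc1⟩ : ∃ c1 : ℝ, c1 = 2 * (δ ^ 2 / 4) / D := ⟨_, rfl⟩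
  have hc10 : 0 < c1 := by rw [hc1]; positivity
  obtain ⟨c, hc⟩ : ∃ c : ℝ, c = min c1 (ε / 4) := ⟨_, rfl⟩
  have hc0 : 0 < c := by rw [hc]; exact lt_min hc10 (by linarith)
  obtain ⟨N1, hN1⟩ := absorb (C1 + C3) (show c / 2 < c by linarith)
  obtain ⟨N2, hN2⟩ := absorb_log (16 * K / D) (K * (8 * Real.log C / D + 26))
    (show 0 < ε / 2 by linarith)
  refine ⟨c / 2, by linarith, max 1 (max N1 N2), fun n d hn hcrit => ?_⟩
  have hn1 : 1 ≤ n := (le_max_left _ _).trans hn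
  have hnN1 := hN1 n (((le_max_left _ _).trans (le_max_right _ _)).trans hn)
  have hnN2 := hN2 n (((le_max_right _ _).trans (le_max_right _ _)).trans hn)
  have hnR : (1 : ℝ) ≤ n := by exact_mod_cast hn1
  have hn0 : (0 : ℝ) < n := by linarith
  obtain ⟨h, hh⟩ : ∃ h : ℕ, h = ⌈(n : ℝ) ^ be⌉₊ := ⟨_, rfl⟩
  have hnb1 : (1 : ℝ) ≤ (n : ℝ) ^ be := Real.one_le_rpow hnR hbe0.le
  have hhge : (n : ℝ) ^ be ≤ h := by rw [hh]; exact Nat.le_ceil _
  have hh1R : (1 : ℝ) ≤ h := hnb1.trans hhge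
  have hh1 : 1 ≤ h := by exact_mod_cast hh1R
  have hhle : (h : ℝ) ≤ 2 * (n : ℝ) ^ be := by
    rw [hh]
    have := Nat.ceil_lt_add_one (show 0 ≤ (n : ℝ) ^ be by positivity)
    linarith
  have hhn : h ≤ n := by
    rw [hh]
    apply Nat.ceil_le.2
    calc (n : ℝ) ^ be ≤ (n : ℝ) ^ (1 : ℝ) := Real.rpow_le_rpow_of_exponent_le hnR hbe1.le
      _ = n := Real.rpow_one _
  have hhnR : (h : ℝ) ≤ n := by exact_mod_cast hhn
  have hh0 : (0 : ℝ) < h := by linarith
  obtain ⟨q, hq⟩ : ∃ q : ℕ, q = n / h + 1 := ⟨_, rfl⟩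
  have hnq : n ≤ q * h := by
    rw [hq]
    have h2 := Nat.div_add_mod n h
    have h3 := Nat.mod_lt n (show 0 < h by omega)
    have e : (n / h + 1) * h = h * (n / h) + h := by ring
    omega
  have hqle : (q : ℝ) ≤ 2 * n / h := by
    have h2 : ((n / h : ℕ) : ℝ) ≤ n / h := Nat.cast_div_le
    have h3 : (1 : ℝ) ≤ n / h := by rw [le_div_iff₀ hh0]; linarith
    rw [hq]
    push_cast
    have e : 2 * (n : ℝ) / h = n / h + n / h := by ring
    rw [e]
    linarith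
  obtain ⟨low, hlow⟩ : ∃ low : Vec d → Prop,
      low = fun u => (wt u : ℝ) ≤ d * (p / (1 + p) + δ) := ⟨_, rfl⟩
  refine ⟨up n low h q, up_steps low h q, ?_, fun x hx => up_sound low h q x hx, ?_⟩
  · have hcost : ((up n low h q).cost K : ℝ) ≤
        (K : ℝ) * ((q : ℝ) * q * (d + 3) * (2 * h) + 2 * n) := by
      exact_mod_cast up_cost (n := n) low hh1 q K
    have hq2 : (q : ℝ) * q * (2 * h) ≤ 8 * (n : ℝ) ^ (al + ε / 2) := by
      have hq0 : (0 : ℝ) ≤ q := Nat.cast_nonneg q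
      have h2 : (q : ℝ) * q ≤ (2 * n / h) * (2 * n / h) :=
        mul_le_mul hqle hqle hq0 (by positivity)
      have h3 : (q : ℝ) * q * (2 * h) ≤ (2 * n / h) * (2 * n / h) * (2 * h) :=
        mul_le_mul_of_nonneg_right h2 (by positivity)
      have h4 : (2 * (n : ℝ) / h) * (2 * n / h) * (2 * h) = 8 * ((n : ℝ) ^ (2 : ℝ) / h) := by
        rw [Real.rpow_two]
        field_simp
        ring
      have h5 : (n : ℝ) ^ (2 : ℝ) / h ≤ (n : ℝ) ^ (al + ε / 2) := by
        rw [div_le_iff₀ hh0]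
        calc (n : ℝ) ^ (2 : ℝ) = (n : ℝ) ^ (al + ε / 2) * (n : ℝ) ^ be := by
              rw [← Real.rpow_add hn0]
              congr 1
              rw [hbe]; ring
          _ ≤ (n : ℝ) ^ (al + ε / 2) * h := mul_le_mul_of_nonneg_left hhge (by positivity)
      linarith
    have hnal : (n : ℝ) ≤ (n : ℝ) ^ (al + ε / 2) := by
      calc (n : ℝ) = (n : ℝ) ^ (1 : ℝ) := (Real.rpow_one _).symm
        _ ≤ (n : ℝ) ^ (al + ε / 2) := Real.rpow_le_rpow_of_exponent_le hnR (by linarith)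
    obtain ⟨P, hP⟩ : ∃ P : ℝ, P = (n : ℝ) ^ (al + ε / 2) := ⟨_, rfl⟩
    rw [← hP] at hq2 hnal
    have hP0 : 0 ≤ P := by rw [hP]; positivity
    have hK0 : (0 : ℝ) ≤ K := Nat.cast_nonneg K
    have hd0 : (0 : ℝ) ≤ d := Nat.cast_nonneg d
    have hin : (q : ℝ) * q * (d + 3) * (2 * h) + 2 * n ≤ (8 * d + 26) * P := by
      have h2 : (q : ℝ) * q * (2 * h) * (d + 3) ≤ 8 * P * (d + 3) :=
        mul_le_mul_of_nonneg_right hq2 (by linarith)
      have e : (q : ℝ) * q * (d + 3) * (2 * h) = (q : ℝ) * q * (2 * h) * (d + 3) := by ring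
      have e2 : (8 * (d : ℝ) + 26) * P = 8 * P * (d + 3) + 2 * P := by ring
      rw [e, e2]
      linarith
    have hd2 : (K : ℝ) * (8 * d + 26) ≤ (n : ℝ) ^ (ε / 2) := by
      refine le_trans ?_ hnN2
      have h2 := d_le h0 h1 hC hn1 hcrit
      rw [← hDdef] at h2
      have h3 : (d : ℝ) ≤ (2 * Real.log n + Real.log C) / D := by
        rw [le_div_iff₀ hD]
        exact h2
      have h4 : (K : ℝ) * (8 * d + 26) ≤
          K * (8 * ((2 * Real.log n + Real.log C) / D) + 26) :=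
        mul_le_mul_of_nonneg_left (by linarith) hK0
      refine h4.trans (le_of_eq ?_)
      ring
    calc ((up n low h q).cost K : ℝ) ≤
        (K : ℝ) * ((q : ℝ) * q * (d + 3) * (2 * h) + 2 * n) := hcost
      _ ≤ K * ((8 * d + 26) * P) := mul_le_mul_of_nonneg_left hin hK0
      _ = K * (8 * d + 26) * P := by ring
      _ ≤ (n : ℝ) ^ (ε / 2) * P := mul_le_mul_of_nonneg_right hd2 hP0
      _ = (n : ℝ) ^ (al + ε) := by
          rw [hP, ← Real.rpow_add hn0]
          congr 1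
          ring
  · have herr := up_err (n := n) (d := d) h0.le h1.le low hh1 hnq
    refine herr.trans ?_
    have e1 : (fun u : Vec d => gg p u * if low u then (0 : ℝ) else 1) =
        fun u : Vec d => gg p u * if (d : ℝ) * (p / (1 + p) + δ) < wt u then 1 else 0 := by
      funext u
      by_cases hu : (wt u : ℝ) ≤ d * (p / (1 + p) + δ)
      · have hu2 : low u := by rw [hlow]; exact hu
        rw [if_pos hu2, if_neg (not_lt.2 hu)]
      · have hu2 : ¬ low u := by rw [hlow]; exact hu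
        rw [if_neg hu2, if_pos (not_le.1 hu)]
    have e2 : (fun u : Vec d => if low u then (1 : ℝ) else 0) =
        fun u : Vec d => if (wt u : ℝ) ≤ d * (p / (1 + p) + δ) then 1 else 0 := by
      funext u
      by_cases hu : (wt u : ℝ) ≤ d * (p / (1 + p) + δ)
      · have hu2 : low u := by rw [hlow]; exact hu
        rw [if_pos hu2, if_pos hu]
      · have hu2 : ¬ low u := by rw [hlow]; exact hu
        rw [if_neg hu2, if_neg hu]
    have hhigh := high_le h0 h1 hδ0 hδ1 d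
    have hlo := low_le h0 h1 d (d * (p / (1 + p) + δ))
    rw [← e1] at hhigh
    rw [← e2] at hlo
    obtain ⟨m, hm⟩ : ∃ m : ℝ, m = (1 - p ^ 2) ^ d := ⟨_, rfl⟩
    have hp2 : 0 < 1 - p ^ 2 := by
      have := mul_lt_mul'' h1 h1 h0.le h0.le
      rw [sq]; linarith
    have hm0 : 0 < m := by rw [hm]; positivity
    have hcr2 := hcrit.2
    rw [← hm] at hhigh hlo hcr2 ⊢
    have hexp1 := exp_neg_d h0 h1 hC hn1 hcrit (c := δ ^ 2 / 4) (by positivity)
    have hexp2 := exp_d h0 h1 hC hn1 hcrit (c := cc) hcc0.le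
    rw [← hDdef] at hexp1 hexp2
    rw [← hc1] at hexp1
    have ecc : -(Real.log (1 - p) * (d * (p / (1 + p) + δ))) = d * cc := by
      rw [hcc, hAdef]; ring
    rw [ecc] at hlo
    have hE2 : Real.exp (d * cc) ≤ C ^ (cc / D) * (n : ℝ) ^ (al + ε / 4) :=
      hexp2.trans (mul_le_mul_of_nonneg_left
        (Real.rpow_le_rpow_of_exponent_le hnR hccal) (by positivity))
    -- the first term
    have t1 : (n : ℝ) ^ 2 * (2 * ev p (fun u : Vec d => gg p u * if low u then (0 : ℝ) else 1)) ≤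
        C1 * (n : ℝ) ^ (-c1) := by
      calc (n : ℝ) ^ 2 * (2 * ev p (fun u : Vec d => gg p u * if low u then (0 : ℝ) else 1))
          ≤ (n : ℝ) ^ 2 * (2 * (m * Real.exp (-(d * (δ ^ 2 / 4))))) := by
            apply mul_le_mul_of_nonneg_left _ (by positivity)
            linarith
        _ = (n : ℝ) ^ 2 * m * (2 * Real.exp (-(d * (δ ^ 2 / 4)))) := by ring
        _ ≤ C * (2 * Real.exp (-(d * (δ ^ 2 / 4)))) :=
            mul_le_mul_of_nonneg_right hcr2 (by positivity)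
        _ ≤ C * (2 * (C ^ (δ ^ 2 / 4 / D) * (n : ℝ) ^ (-c1))) := by
            apply mul_le_mul_of_nonneg_left _ hC0.le
            linarith
        _ = C1 * (n : ℝ) ^ (-c1) := by rw [hC1]; ring
    have hmn : m ≤ C * (n : ℝ) ^ (-(2 : ℝ)) := by
      rw [Real.rpow_neg hn0.le, Real.rpow_two, ← div_eq_mul_inv, le_div_iff₀ (by positivity)]
      linarith
    have t2 : (n : ℝ) ^ 2 * (2 * h * m * ev p (fun u : Vec d => if low u then (1 : ℝ) else 0)) ≤
        C3 * (n : ℝ) ^ (-(ε / 4)) := by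
      calc (n : ℝ) ^ 2 * (2 * h * m * ev p (fun u : Vec d => if low u then (1 : ℝ) else 0))
          ≤ (n : ℝ) ^ 2 * (2 * h * m * (m * Real.exp (d * cc))) := by
            apply mul_le_mul_of_nonneg_left _ (by positivity)
            exact mul_le_mul_of_nonneg_left hlo (by positivity)
        _ = (n : ℝ) ^ 2 * m * (2 * h * (m * Real.exp (d * cc))) := by ring
        _ ≤ C * (2 * h * (m * Real.exp (d * cc))) :=
            mul_le_mul_of_nonneg_right hcr2 (by positivity)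
        _ ≤ C * (2 * (2 * (n : ℝ) ^ be) * ((C * (n : ℝ) ^ (-(2 : ℝ))) *
              (C ^ (cc / D) * (n : ℝ) ^ (al + ε / 4)))) := by
            apply mul_le_mul_of_nonneg_left _ hC0.le
            apply mul_le_mul (by linarith) _ (by positivity) (by positivity)
            exact mul_le_mul hmn hE2 (by positivity) (by positivity)
        _ = C3 * ((n : ℝ) ^ be * (n : ℝ) ^ (-(2 : ℝ)) * (n : ℝ) ^ (al + ε / 4)) := by
            rw [hC3]; ring
        _ = C3 * (n : ℝ) ^ (-(ε / 4)) := by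
            rw [← Real.rpow_add hn0, ← Real.rpow_add hn0]
            congr 2
            rw [hbe]; ring
    have hr1 : (n : ℝ) ^ (-c1) ≤ (n : ℝ) ^ (-c) := by
      apply Real.rpow_le_rpow_of_exponent_le hnR
      have : c ≤ c1 := by rw [hc]; exact min_le_left _ _
      linarith
    have hr2 : (n : ℝ) ^ (-(ε / 4)) ≤ (n : ℝ) ^ (-c) := by
      apply Real.rpow_le_rpow_of_exponent_le hnR
      have : c ≤ ε / 4 := by rw [hc]; exact min_le_right _ _
      linarith
    have s1 := mul_le_mul_of_nonneg_left hr1 hC10.le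
    have s2 := mul_le_mul_of_nonneg_left hr2 hC30.le
    have s3 : (C1 + C3) * (n : ℝ) ^ (-c) = C1 * (n : ℝ) ^ (-c) + C3 * (n : ℝ) ^ (-c) := by ring
    rw [mul_add]
    linarith

end Pool.Agent.H2.AV
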