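import Pool.Agent.H2.AV.Det
import Pool.Agent.H2.AV.Rnd
import Pool.Agent.H2.AV.Upp
import Pool.Agent.H2.AV.Dst

/-!
# [H2 AV MAIN] Assembly
-/

set_option autoImplicit false

namespace Pool.Agent.H2.AV

open Classical in
theorem main (p : ℝ) (h0 : 0 < p) (h1 : p < 1) :
    1 < alpha p ∧ alpha p < 2 ∧
    ∀ (C ε : ℝ) (K : ℕ), 1 ≤ C → 0 < ε → 1 ≤ K → ∃ c : ℝ, 0 < c ∧ ∃ n₀ : ℕ, ∀ n d : ℕ, n₀ ≤ n →
      1 / C ≤ (n : ℝ) ^ 2 * (1 - p ^ 2) ^ d → (n : ℝ) ^ 2 * (1 - p ^ 2) ^ d ≤ C →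
      |prob p (HasOrthogonalPair (n := n) (d := d)) -
        (1 - Real.exp (-((n : ℝ) ^ 2 * (1 - p ^ 2) ^ d)))| ≤ (n : ℝ) ^ (-c) ∧
      (∀ μ : PMF (Machine n d), (∀ M ∈ μ.support, M.Steps (n ^ K)) →
        ∑' M, μ M * (M.cost K : ENNReal) ≤ ENNReal.ofReal ((n : ℝ) ^ (alpha p - ε)) →
        ex p (fun x => (μ.toOuterMeasure {M | M.CorrectOn x}).toReal) ≤
          max (prob p (HasOrthogonalPair (n := n) (d := d)))
            (1 - prob p (HasOrthogonalPair (n := n) (d := d))) + (n : ℝ) ^ (-c)) ∧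
      (∃ M : Machine n d, M.Steps 2 ∧ (M.cost K : ℝ) ≤ (n : ℝ) ^ (alpha p + ε) ∧
        (∀ x, 0 < M.result x M.last → HasOrthogonalPair x) ∧
        1 - (n : ℝ) ^ (-c) ≤ prob p M.CorrectOn) ∧
      (p < 2 / 3 → 1 - (n : ℝ) ^ (-c) ≤
        prob p (fun x : Input n d => ∀ (s : Bool) (i j : Fin n), x (s, i) = x (s, j) → i = j)) := by
  have hα1 := one_lt_alpha h0 h1
  have hα2 := alpha_lt_two h0 h1
  refine ⟨hα1, hα2, ?_⟩
  intro C ε K hC hε hK
  -- parameters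
  set e1 := min ε (alpha p - 1) with he1
  have he1pos : 0 < e1 := lt_min hε (by linarith)
  have he1a : e1 ≤ alpha p - 1 := min_le_right _ _
  have he1e : e1 ≤ ε := min_le_left _ _
  set e2 := min ε (2 - alpha p) with he2
  have he2pos : 0 < e2 := lt_min hε (by linarith)
  have he2a : e2 ≤ 2 - alpha p := min_le_right _ _
  have he2e : e2 ≤ ε := min_le_left _ _
  obtain ⟨c1, hc1, N1, H1⟩ := det h0 h1 hC he1pos he1a hK
  obtain ⟨c2, hc2, N2, H2⟩ := upper h0 h1 hC he2pos he2a K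
  obtain ⟨c3, hc3, N3, H3⟩ : ∃ c : ℝ, 0 < c ∧ ∃ n₀ : ℕ, ∀ n d : ℕ, n₀ ≤ n → Crit p C n d →
      p < 2 / 3 → prob p (fun x : Input n d =>
        ¬ ∀ (s : Bool) (i j : Fin n), x (s, i) = x (s, j) → i = j) ≤ (n : ℝ) ^ (-c) := by
    by_cases hp : p < 2 / 3
    · obtain ⟨c, hc, N, H⟩ := distinct h0 hp hC
      exact ⟨c, hc, N, fun n d hn hcr _ => H n d hn hcr⟩
    · exact ⟨1, one_pos, 0, fun n d _ _ h => absurd h hp⟩
  -- the final rate
  set c := min (min (c1 / 2) (e1 / 8)) (min c2 c3) with hc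
  have hcpos : 0 < c := lt_min (lt_min (by linarith) (by linarith)) (lt_min hc2 hc3)
  have hcc1 : c ≤ c1 / 2 := (min_le_left _ _).trans (min_le_left _ _)
  have hce : c ≤ e1 / 8 := (min_le_left _ _).trans (min_le_right _ _)
  have hcc2 : c ≤ c2 := (min_le_right _ _).trans (min_le_left _ _)
  have hcc3 : c ≤ c3 := (min_le_right _ _).trans (min_le_right _ _)
  obtain ⟨N4, H4⟩ := absorb 4 (show c1 / 2 < c1 by linarith)
  obtain ⟨N5, H5⟩ := absorb 2 (show (e1 / 8 : ℝ) < e1 / 4 by linarith)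
  obtain ⟨N6, H6⟩ := absorb 8 (show c1 / 2 < c1 by linarith)
  refine ⟨c, hcpos, max (max (max N1 N2) (max N3 N4)) (max (max N5 N6) 1), ?_⟩
  intro n d hn hl hu
  have hn1 : N1 ≤ n := le_trans (le_trans (le_trans (le_max_left _ _) (le_max_left _ _))
    (le_max_left _ _)) hn
  have hn2 : N2 ≤ n := le_trans (le_trans (le_trans (le_max_right _ _) (le_max_left _ _))
    (le_max_left _ _)) hn
  have hn3 : N3 ≤ n := le_trans (le_trans (le_trans (le_max_left _ _) (le_max_right _ _))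
    (le_max_left _ _)) hn
  have hn4 : N4 ≤ n := le_trans (le_trans (le_trans (le_max_right _ _) (le_max_right _ _))
    (le_max_left _ _)) hn
  have hn5 : N5 ≤ n := le_trans (le_trans (le_trans (le_max_left _ _) (le_max_left _ _))
    (le_max_right _ _)) hn
  have hn6 : N6 ≤ n := le_trans (le_trans (le_trans (le_max_right _ _) (le_max_left _ _))
    (le_max_right _ _)) hn
  have hn7 : 1 ≤ n := le_trans (le_trans (le_max_right _ _) (le_max_right _ _)) hn
  have hnR : (1 : ℝ) ≤ n := by exact_mod_cast hn7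
  have hn0 : (0 : ℝ) < n := by linarith
  have hcrit : Crit p C n d := ⟨hl, hu⟩
  have mono : ∀ a b : ℝ, a ≤ b → (n : ℝ) ^ a ≤ (n : ℝ) ^ b := fun a b hab =>
    Real.rpow_le_rpow_of_exponent_le hnR hab
  obtain ⟨D1, D2⟩ := H1 n d hn1 hcrit
  have t1 := H4 n hn4
  have t2 := H5 n hn5
  have t3 := H6 n hn6
  have pc1 : 0 ≤ (n : ℝ) ^ (-c1) := Real.rpow_nonneg hn0.le _
  refine ⟨?_, ?_, ?_, ?_⟩
  · have e : prob p (HasOrthogonalPair (n := n) (d := d)) -
        (1 - Real.exp (-((n : ℝ) ^ 2 * (1 - p ^ 2) ^ d))) =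
        -(prob p (fun x : Input n d => ¬ HasOrthogonalPair x) -
        Real.exp (-((n : ℝ) ^ 2 * (1 - p ^ 2) ^ d))) := by
      rw [prob_not]
      ring
    rw [e, abs_neg]
    exact D1.trans (mono _ _ (by linarith))
  · intro μ hμ hcost
    have hT : (0 : ℝ) < (n : ℝ) ^ (alpha p - 3 * e1 / 4) := Real.rpow_pos_of_pos hn0 _
    have hP0 := prob_nonneg h0.le h1.le (HasOrthogonalPair (n := n) (d := d))
    have := rnd h0.le h1.le μ (fun M => M.cost K) (T := (n : ℝ) ^ (alpha p - 3 * e1 / 4))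
      (c := max (prob p (HasOrthogonalPair (n := n) (d := d)))
            (1 - prob p (HasOrthogonalPair (n := n) (d := d))) + 4 * (n : ℝ) ^ (-c1))
      (B := (n : ℝ) ^ (alpha p - ε)) hT
      (by
        have := le_max_left (prob p (HasOrthogonalPair (n := n) (d := d)))
            (1 - prob p (HasOrthogonalPair (n := n) (d := d)))
        linarith)
      (Real.rpow_nonneg hn0.le _)
      (fun M hM hMT => correct_le h0.le h1.le M D1 (D2 M (hμ M hM) hMT)) hcost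
    refine this.trans ?_
    have hBT : (n : ℝ) ^ (alpha p - ε) / (n : ℝ) ^ (alpha p - 3 * e1 / 4) ≤
        (n : ℝ) ^ (-(e1 / 4)) := by
      rw [← Real.rpow_sub hn0]
      exact mono _ _ (by linarith)
    have h8 : 2 * (n : ℝ) ^ (-(e1 / 4)) ≤ (n : ℝ) ^ (-c) := t2.trans (mono _ _ (by linarith))
    have h9 : 8 * (n : ℝ) ^ (-c1) ≤ (n : ℝ) ^ (-c) := t3.trans (mono _ _ (by linarith))
    linarith
  · obtain ⟨M, hM1, hM2, hM3, hM4⟩ := H2 n d hn2 hcrit
    refine ⟨M, hM1, hM2.trans (mono _ _ (by linarith)), hM3, ?_⟩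
    have e := prob_not p (fun x : Input n d => M.CorrectOn x)
    have h10 : (n : ℝ) ^ (-c2) ≤ (n : ℝ) ^ (-c) := mono _ _ (by linarith)
    have e' : prob p M.CorrectOn = prob p (fun x : Input n d => M.CorrectOn x) := rfl
    rw [e']
    linarith
  · intro hp
    have h11 := H3 n d hn3 hcrit hp
    have e := prob_not p (fun x : Input n d => ∀ (s : Bool) (i j : Fin n),
      x (s, i) = x (s, j) → i = j)
    have h12 : (n : ℝ) ^ (-c3) ≤ (n : ℝ) ^ (-c) := mono _ _ (by linarith)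
    linarith

end Pool.Agent.H2.AV
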