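import Pool.Agent.H2.AV.Defs

/-!
# [H2 AV MCH] The machine of the upper bound

`flat f wgt g` is a routine with one end: its result is `g (sum_z f z (x z) + sum_t wgt t * result t)`. The machine `up n low h q`
(`low` = the vectors of low weight; groups of `h` vectors; `q` groups of each kind) has a block of `d + 3` routines for each pair
`(a, b)` of groups: the number of the block is `c = a q + b`, the routine `c (d+3) + r` is, for `r = 0`: 0 iff group `a` of `A` has
exactly one low vector; `r = 1`: 0 iff group `b` of `B` has exactly one low vector; `2 <= r < d + 2`: 1 iff two or more low vectors of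
both groups have the bit `r - 2`; `r = d + 2`: 1 iff all these `d + 2` results are 0. The last routine is 1 iff some of the
`r = d + 2` routines is 1.
PROOFS. `value_flat`: the start is the end 0 (`Routine.Reaches` with `t = 0`; uniqueness: `Fin 1`). `result_up`: `Machine.result` unfolds
(`rw [Machine.result]`). `up_steps`: query is empty (`Fin 0`); `upG` is a step function with jumps in `{1/2, 3/2}`.
-/

set_option autoImplicit false

namespace Pool.Agent.H2.AV

variable {n d : ℕ}

/-- a routine with one end, without looks -/
def flat (f : Pos n → Vec d → ℝ) (wgt : ℕ → ℝ) (g : ℝ → ℝ) : Routine n d where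
  size := 0
  ends := 1
  view := fun v => v.elim0
  outcomes := fun v => v.elim0
  query := fun v => v.elim0
  next := fun v => v.elim0
  start := Sum.inr 0
  endView := fun _ =>
    { looks := 0
      pos := fun l => l.elim0
      vec := fun z _ v => f z v
      weight := wgt }
  act := fun _ _ s => g s

/-- the group of a position in the block of the routine `u` -/
def upSel (d h q u : ℕ) (z : Pos n) : Prop :=
  u < q * q * (d + 3) ∧ (z.2 : ℕ) / h = if z.1 then (u / (d + 3)) % q else (u / (d + 3)) / q

open Classical in
/-- the functions of one vector -/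
noncomputable def upF (low : Vec d → Prop) (h q u : ℕ) (z : Pos n) (v : Vec d) : ℝ :=
  if upSel d h q u z ∧ low v ∧ ((u % (d + 3) = 0 ∧ z.1 = false) ∨ (u % (d + 3) = 1 ∧ z.1 = true) ∨
    ∃ k : Fin d, u % (d + 3) = k + 2 ∧ v k = true) then 1 else 0

/-- the weights of the results of earlier routines -/
noncomputable def upW (d q u : ℕ) (t : ℕ) : ℝ :=
  if u = q * q * (d + 3) then (if t % (d + 3) = d + 2 then 1 else 0)
  else if u % (d + 3) = d + 2 ∧ t / (d + 3) = u / (d + 3) then 1 else 0

open Classical in
/-- the result as a function of the real number of the view -/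
noncomputable def upG (d q u : ℕ) (s : ℝ) : ℝ :=
  if u = q * q * (d + 3) then (if 1 / 2 < s then 1 else 0)
  else if u % (d + 3) = d + 2 then (if s < 1 / 2 then 1 else 0)
  else if u % (d + 3) < 2 then (if 1 / 2 < s ∧ s < 3 / 2 then 0 else 1)
  else (if 3 / 2 < s then 1 else 0)

/-- the machine -/
noncomputable def up (n : ℕ) (low : Vec d → Prop) (h q : ℕ) : Machine n d where
  last := q * q * (d + 3)
  routine := fun u => flat (upF low h q u) (upW d q u) (upG d q u)

theorem value_flat (f : Pos n → Vec d → ℝ) (wgt : ℕ → ℝ) (g : ℝ → ℝ) (x : Input n d) {u : ℕ}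
    (r : Fin u → ℝ) :
    (flat f wgt g).value x r = g (∑ z, f z (x z) + ∑ t : Fin u, wgt t * r t) := by
  classical
  unfold Routine.value
  have h : ∀ e : Fin (flat f wgt g : Routine n d).ends, (flat f wgt g).Reaches x r e := by
    intro e
    refine ⟨0, ?_⟩
    have he : e = (0 : Fin 1) := Subsingleton.elim (α := Fin 1) e 0
    rw [he]
    rfl
  have h2 : ∀ e : Fin (flat f wgt g : Routine n d).ends,
      (if (flat f wgt g).Reaches x r e then (flat f wgt g).act e
        (((flat f wgt g).endView e).look x) (((flat f wgt g).endView e).real x r) else 0) =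
      g (∑ z, f z (x z) + ∑ t : Fin u, wgt t * r t) := by
    intro e
    rw [if_pos (h e)]
    rfl
  rw [Finset.sum_congr rfl fun e _ => h2 e]
  rw [Finset.sum_const, Finset.card_univ]
  have hc : Fintype.card (Fin (flat f wgt g : Routine n d).ends) = 1 := Fintype.card_fin 1
  rw [hc, one_smul]

theorem result_up (low : Vec d → Prop) (h q : ℕ) (x : Input n d) (u : ℕ) :
    (up n low h q).result x u = upG d q u (∑ z, upF low h q u z (x z) +
      ∑ t : Fin u, upW d q u t * (up n low h q).result x t) := by
  rw [Machine.result]
  exact value_flat _ _ _ _ _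

private theorem step2 (f : ℝ → ℝ) (hf : ∀ a b, a ≤ b → (1 / 2 < a ↔ 1 / 2 < b) →
    (a < 1 / 2 ↔ b < 1 / 2) → (3 / 2 < a ↔ 3 / 2 < b) → (a < 3 / 2 ↔ b < 3 / 2) → f a = f b) :
    IsStep 2 f := by
  refine ⟨{1 / 2, 3 / 2}, Finset.card_le_two, ?_⟩
  intro a b hab hD
  have h1 := hD (1 / 2) (by simp)
  have h2 := hD (3 / 2) (by simp)
  apply hf a b hab
  · rcases h1 with h | h
    · exact ⟨fun _ => by linarith, fun _ => h⟩
    · exact ⟨fun _ => by linarith, fun _ => by linarith⟩
  · rcases h1 with h | h
    · exact ⟨fun _ => by linarith, fun _ => by linarith⟩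
    · exact ⟨fun _ => h, fun _ => by linarith⟩
  · rcases h2 with h | h
    · exact ⟨fun _ => by linarith, fun _ => h⟩
    · exact ⟨fun _ => by linarith, fun _ => by linarith⟩
  · rcases h2 with h | h
    · exact ⟨fun _ => by linarith, fun _ => by linarith⟩
    · exact ⟨fun _ => h, fun _ => by linarith⟩

theorem up_steps (low : Vec d → Prop) (h q : ℕ) : (up n low h q).Steps 2 := by
  intro u _
  refine ⟨fun v => v.elim0, fun e y => ?_⟩
  show IsStep 2 (upG d q u)
  apply step2
  intro a b _ h1 h2 h3 h4
  unfold upG
  simp only [h1, h2, h3, h4]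

end Pool.Agent.H2.AV
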