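import Pool.Agent.H2.AV.Ex

/-!
# [H2 AV MGF] Exponential moments of a bounded function of one vector

PROOF. For `0 <= y <= 1`: `exp y <= 1 + y + y^2` and `exp (-y) <= 1 - y + y^2` (Mathlib `Real.abs_exp_sub_one_sub_id_le`:
`|exp y - 1 - y| <= y^2` for `|y| <= 1`). With `y = s psi(v)`, `0 <= y <= s M <= 1`, `y^2 = s^2 psi^2 <= s^2 M psi`:
`exp(+-s psi) <= 1 +- s psi + s^2 M psi`; expectation: `<= 1 +- s m + s^2 M m <= exp(+-s m + s^2 M m)` (`Real.add_one_le_exp`),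
`m = ev psi`. Multiply by `exp(-+s m)`.
-/

set_option autoImplicit false

namespace Pool.Agent.H2.AV

variable {d : ℕ} {p : ℝ}

private theorem exp_bd {y : ℝ} (hy : |y| ≤ 1) : Real.exp y ≤ 1 + y + y ^ 2 := by
  have h := Real.abs_exp_sub_one_sub_id_le hy
  rw [abs_le] at h
  linarith [h.2]

/-- the common part: `ψ` is multiplied by a sign -/
private theorem mgf_aux (h0 : 0 ≤ p) (h1 : p ≤ 1) {s M : ℝ} (hs : 0 ≤ s) (hM : 0 ≤ M)
    (hsM : s * M ≤ 1) (ψ : Vec d → ℝ) (hψ : ∀ v, 0 ≤ ψ v ∧ ψ v ≤ M) {r : ℝ} (hr : r ^ 2 = 1) :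
    ev p (fun v => Real.exp (r * (s * (ψ v - ev p ψ)))) ≤ Real.exp (s ^ 2 * M * ev p ψ) := by
  have hm : 0 ≤ ev p ψ := ev_nonneg h0 h1 fun v => (hψ v).1
  have habs : |r| = 1 := by
    have := sq_abs r
    rw [hr] at this
    nlinarith [abs_nonneg r]
  have e1 : ∀ v, Real.exp (r * (s * (ψ v - ev p ψ))) =
      Real.exp (-(r * s * ev p ψ)) * Real.exp (r * (s * ψ v)) := by
    intro v
    rw [← Real.exp_add]
    congr 1
    ring
  simp_rw [e1]
  rw [ev_mul]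
  have e2 : ev p (fun v => Real.exp (r * (s * ψ v))) ≤
      1 + r * s * ev p ψ + s ^ 2 * M * ev p ψ := by
    have h3 : ev p (fun v => Real.exp (r * (s * ψ v))) ≤
        ev p (fun v => 1 + (r * s + s ^ 2 * M) * ψ v) := by
      apply ev_mono h0 h1
      intro v
      obtain ⟨hv0, hv1⟩ := hψ v
      have hsv : 0 ≤ s * ψ v := mul_nonneg hs hv0
      have hsv1 : s * ψ v ≤ 1 := (mul_le_mul_of_nonneg_left hv1 hs).trans hsM
      have hb : |r * (s * ψ v)| ≤ 1 := by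
        rw [abs_mul, habs, one_mul, abs_of_nonneg hsv]
        exact hsv1
      have hx := exp_bd hb
      have hsq : (r * (s * ψ v)) ^ 2 ≤ s ^ 2 * M * ψ v := by
        have : (r * (s * ψ v)) ^ 2 = s ^ 2 * (ψ v * ψ v) := by
          rw [mul_pow, hr]
          ring
        rw [this]
        have h5 : ψ v * ψ v ≤ M * ψ v := mul_le_mul_of_nonneg_right hv1 hv0
        have h6 : 0 ≤ s ^ 2 := sq_nonneg s
        nlinarith
      linarith
    refine h3.trans ?_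
    rw [ev_add, ev_one, ev_mul]
    linarith
  calc Real.exp (-(r * s * ev p ψ)) * ev p (fun v => Real.exp (r * (s * ψ v)))
      ≤ Real.exp (-(r * s * ev p ψ)) * Real.exp (r * s * ev p ψ + s ^ 2 * M * ev p ψ) := by
        apply mul_le_mul_of_nonneg_left _ (Real.exp_pos _).le
        have := Real.add_one_le_exp (r * s * ev p ψ + s ^ 2 * M * ev p ψ)
        linarith
    _ = Real.exp (s ^ 2 * M * ev p ψ) := by
        rw [← Real.exp_add]
        congr 1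
        ring

theorem mgf_pos (h0 : 0 ≤ p) (h1 : p ≤ 1) {s M : ℝ} (hs : 0 ≤ s) (hM : 0 ≤ M) (hsM : s * M ≤ 1)
    (ψ : Vec d → ℝ) (hψ : ∀ v, 0 ≤ ψ v ∧ ψ v ≤ M) :
    ev p (fun v => Real.exp (s * (ψ v - ev p ψ))) ≤ Real.exp (s ^ 2 * M * ev p ψ) := by
  have h := mgf_aux h0 h1 hs hM hsM ψ hψ (r := 1) (by norm_num)
  simpa using h

theorem mgf_neg (h0 : 0 ≤ p) (h1 : p ≤ 1) {s M : ℝ} (hs : 0 ≤ s) (hM : 0 ≤ M) (hsM : s * M ≤ 1)
    (ψ : Vec d → ℝ) (hψ : ∀ v, 0 ≤ ψ v ∧ ψ v ≤ M) :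
    ev p (fun v => Real.exp (-(s * (ψ v - ev p ψ)))) ≤ Real.exp (s ^ 2 * M * ev p ψ) := by
  have h := mgf_aux h0 h1 hs hM hsM ψ hψ (r := -1) (by norm_num)
  simpa using h

end Pool.Agent.H2.AV
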