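import Pool.Agent.H2.AV.Core
import Pool.Agent.H2.AV.Che
import Pool.Agent.H2.AV.Alp
import Pool.Agent.H2.AV.Nmd

/-!
# [H2 AV NME] Numerics: the error bound of `core`

PROOF. `A, D` as in `Nmd`, `q = p/(1+p)`, `al = alpha p`. Choose `del > 0` with `del <= q`, `2 A del/D <= eps/8`. `w = ceil(d (q - del))`,
`M = (1-p)^w > 0`, `M <= C1 n^(-al + eps/8)`, `C1 = C^(al/2)` (`pow_w`), `s = n^(-eps/16)/M`, so `s M = n^(-eps/16) <= 1`. With
`lam = n^2 (1-p^2)^d <= C`, `kappa <= (1-p^2)^d exp(-(d del^2/2))` (`kappa_le`), `L = n^(al - 1 - eps/4)`: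
`err = n L M n^(eps/16) + lam n^(-eps/16) + 6 n^2 kappa + 2 g lam/n + n M lam + sqrt(n M lam)` (`n^3 M m = n M lam`), and
`n L M n^(eps/16) <= C1 n^(-eps/16)`; `n^2 kappa <= C C^(del^2/(2D)) n^(-del^2/D)` (`exp_neg_d`); `2 g lam/n <= 4 C n^(-eps/4)`;
`n M lam <= C C1 n^(1 - al + eps/8) <= C C1 n^(-7 eps/8)` (as `eps <= al - 1`). So `err <= C2 n^(-c2)`, `c2 = min(eps/16, del^2/D)`, and `absorb`
with `c = c2/2`.
-/

set_option autoImplicit false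

namespace Pool.Agent.H2.AV

private theorem err_num {x M m κ s L g ε al C C1 K e3 c2 : ℝ} (hx : 1 ≤ x) (hM : 0 < M)
    (hM1 : M ≤ C1 * x ^ (-al + ε / 8)) (hC1 : 1 ≤ C1) (hC : 1 ≤ C) (hm : 0 ≤ m)
    (hm1 : x ^ 2 * m ≤ C) (hκ1 : x ^ 2 * κ ≤ K * x ^ (-e3)) (hK : 0 ≤ K)
    (hs : s = x ^ (-(ε / 16)) / M) (hL : L = x ^ (al - 1 - ε / 4))
    (hg1 : g ≤ 2 * x ^ (1 - ε / 4)) (hε : 0 < ε) (hε1 : ε ≤ al - 1)
    (hc1 : c2 ≤ ε / 16) (hc3 : c2 ≤ e3) :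
    x * ((L + x * s ^ 2 * M * m) / s + 2 * x * κ) + g * (2 * x * m) +
      (x ^ 3 * M * m + 2 * x ^ 2 * κ) + (Real.sqrt (x ^ 3 * M * m) + 2 * x ^ 2 * κ) ≤
      (C1 + C + 6 * K + 4 * C + C * C1 + C * C1) * x ^ (-c2) := by
  have hx0 : 0 < x := by linarith
  have hCC : 1 ≤ C * C1 := by nlinarith
  have hu0 : 0 < x ^ (-(ε / 16)) := Real.rpow_pos_of_pos hx0 _
  have hc0 : 0 < x ^ (-c2) := Real.rpow_pos_of_pos hx0 _
  have hs0 : 0 < s := by rw [hs]; positivity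
  have hL0 : 0 < L := by rw [hL]; exact Real.rpow_pos_of_pos hx0 _
  have hmono : ∀ a b : ℝ, a ≤ b → x ^ a ≤ x ^ b := fun a b h =>
    Real.rpow_le_rpow_of_exponent_le hx h
  have hadd : ∀ a b : ℝ, x ^ a * x ^ b = x ^ (a + b) := fun a b => (Real.rpow_add hx0 a b).symm
  have hu1 : x ^ (-(ε / 16)) ≤ x ^ (-c2) := hmono _ _ (by linarith)
  -- first term
  have e1 : x * (L / s) ≤ C1 * x ^ (-c2) := by
    have h2 : L / s = L * M * x ^ (ε / 16) := by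
      rw [hs, Real.rpow_neg hx0.le]
      have h3 : x ^ (ε / 16) ≠ 0 := (Real.rpow_pos_of_pos hx0 _).ne'
      field_simp
    rw [h2]
    have h4 : x * (L * M * x ^ (ε / 16)) ≤ x * (L * (C1 * x ^ (-al + ε / 8)) * x ^ (ε / 16)) := by
      have h5 : 0 < x ^ (ε / 16) := Real.rpow_pos_of_pos hx0 _
      exact mul_le_mul_of_nonneg_left (mul_le_mul_of_nonneg_right
        (mul_le_mul_of_nonneg_left hM1 hL0.le) h5.le) hx0.le
    refine h4.trans ?_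
    have h6 : x * (L * (C1 * x ^ (-al + ε / 8)) * x ^ (ε / 16)) =
        C1 * (x ^ (1 : ℝ) * x ^ (al - 1 - ε / 4) * x ^ (-al + ε / 8) * x ^ (ε / 16)) := by
      rw [hL, Real.rpow_one]; ring
    rw [h6, hadd, hadd, hadd]
    exact mul_le_mul_of_nonneg_left (hmono _ _ (by linarith)) (by linarith)
  -- second term
  have e2 : x * ((x * s ^ 2 * M * m) / s) ≤ C * x ^ (-c2) := by
    have h2 : x * ((x * s ^ 2 * M * m) / s) = x ^ 2 * m * x ^ (-(ε / 16)) := by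
      have h3 : s * M = x ^ (-(ε / 16)) := by
        rw [hs]; field_simp
      rw [← h3]
      field_simp
    rw [h2]
    exact mul_le_mul hm1 hu1 hu0.le (by linarith)
  -- kappa
  have e3' : x ^ 2 * κ ≤ K * x ^ (-c2) :=
    hκ1.trans (mul_le_mul_of_nonneg_left (hmono _ _ (by linarith)) hK)
  -- g
  have e4 : g * (2 * x * m) ≤ 4 * C * x ^ (-c2) := by
    have h2 : g * (2 * x * m) ≤ 2 * x ^ (1 - ε / 4) * (2 * x * m) :=
      mul_le_mul_of_nonneg_right hg1 (by positivity)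
    refine h2.trans ?_
    have h3 : 2 * x ^ (1 - ε / 4) * (2 * x * m) = 4 * (x ^ 2 * m) * x ^ (-(ε / 4)) := by
      have h4 : x ^ (1 - ε / 4) = x * x ^ (-(ε / 4)) := by
        rw [sub_eq_add_neg, Real.rpow_add hx0, Real.rpow_one]
      rw [h4]; ring
    rw [h3]
    have h5 : x ^ (-(ε / 4)) ≤ x ^ (-c2) := hmono _ _ (by linarith)
    exact mul_le_mul (by linarith) h5 (Real.rpow_pos_of_pos hx0 _).le (by linarith)
  -- x^3 M m
  have e5 : x ^ 3 * M * m ≤ C * C1 * x ^ (-(7 * ε / 8)) := by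
    have h2 : x ^ 3 * M * m = x ^ 2 * m * (x * M) := by ring
    rw [h2]
    have h3 : x * M ≤ C1 * x ^ (-(7 * ε / 8)) := by
      have h4 : x * M ≤ x * (C1 * x ^ (-al + ε / 8)) := mul_le_mul_of_nonneg_left hM1 hx0.le
      refine h4.trans ?_
      have h5 : x * (C1 * x ^ (-al + ε / 8)) = C1 * (x ^ (1 : ℝ) * x ^ (-al + ε / 8)) := by
        rw [Real.rpow_one]; ring
      rw [h5, hadd]
      exact mul_le_mul_of_nonneg_left (hmono _ _ (by linarith)) (by linarith)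
    have h6 := mul_le_mul hm1 h3 (by positivity) (by linarith)
    linarith [h6]
  have e6 : x ^ 3 * M * m ≤ C * C1 * x ^ (-c2) :=
    e5.trans (mul_le_mul_of_nonneg_left (hmono _ _ (by linarith)) (by linarith))
  have e7 : Real.sqrt (x ^ 3 * M * m) ≤ C * C1 * x ^ (-c2) := by
    have h2 : Real.sqrt (x ^ 3 * M * m) ≤ C * C1 * x ^ (-(ε / 16)) := by
      rw [Real.sqrt_le_left (by positivity)]
      refine e5.trans ?_
      have h3 : (C * C1 * x ^ (-(ε / 16))) ^ 2 = (C * C1) ^ 2 * x ^ (-(ε / 8)) := by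
        rw [mul_pow, sq (x ^ (-(ε / 16))), hadd]
        congr 2; ring
      rw [h3]
      exact mul_le_mul (by nlinarith) (hmono _ _ (by linarith))
        (Real.rpow_pos_of_pos hx0 _).le (by positivity)
    exact h2.trans (mul_le_mul_of_nonneg_left hu1 (by linarith))
  have h8 : x * ((L + x * s ^ 2 * M * m) / s + 2 * x * κ) =
      x * (L / s) + x * ((x * s ^ 2 * M * m) / s) + 2 * (x ^ 2 * κ) := by
    rw [add_div]; ring
  rw [h8]
  linarith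

theorem err_le {p : ℝ} (h0 : 0 < p) (h1 : p < 1) {C : ℝ} (hC : 1 ≤ C) {ε : ℝ} (hε : 0 < ε)
    (hε1 : ε ≤ alpha p - 1) :
    ∃ c : ℝ, 0 < c ∧ ∃ n₀ : ℕ, ∀ n d : ℕ, n₀ ≤ n → Crit p C n d →
      ∃ (w : ℕ) (s : ℝ), 0 < s ∧ s * (1 - p) ^ w ≤ 1 ∧
        ∀ g : ℝ, 0 ≤ g → g ≤ 2 * (n : ℝ) ^ (1 - ε / 4) →
          err p n d w s ((n : ℝ) ^ (alpha p - 1 - ε / 4)) g ≤ (n : ℝ) ^ (-c) := by
  have hA := A_pos h0 h1
  have hD := D_pos h0 h1
  have hal := one_lt_alpha h0 h1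
  obtain ⟨A, hAe⟩ : ∃ A, A = -Real.log (1 - p) := ⟨_, rfl⟩
  obtain ⟨D, hDe⟩ : ∃ D, D = -Real.log (1 - p ^ 2) := ⟨_, rfl⟩
  obtain ⟨del, hdel⟩ : ∃ del, del = min (p / (1 + p)) (ε * D / (16 * A)) := ⟨_, rfl⟩
  rw [← hAe] at hA
  rw [← hDe] at hD
  have hdel0 : 0 < del := by rw [hdel]; exact lt_min (by positivity) (by positivity)
  have hdelq : del ≤ p / (1 + p) := by rw [hdel]; exact min_le_left _ _
  have hdelA : 2 * (A * del) / D ≤ ε / 8 := by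
    have h2 : del ≤ ε * D / (16 * A) := by rw [hdel]; exact min_le_right _ _
    rw [div_le_iff₀ hD]
    rw [le_div_iff₀ (by positivity)] at h2
    nlinarith
  obtain ⟨c2, hc2⟩ : ∃ c2, c2 = min (ε / 16) (2 * (del ^ 2 / 2) / D) := ⟨_, rfl⟩
  have hc20 : 0 < c2 := by rw [hc2]; exact lt_min (by positivity) (by positivity)
  have hc21 : c2 ≤ ε / 16 := by rw [hc2]; exact min_le_left _ _
  have hc22 : c2 ≤ 2 * (del ^ 2 / 2) / D := by rw [hc2]; exact min_le_right _ _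
  obtain ⟨K, hK⟩ : ∃ K, K = C * C ^ (del ^ 2 / 2 / D) := ⟨_, rfl⟩
  have hC0 : 0 < C := by linarith
  have hK0 : 0 ≤ K := by rw [hK]; positivity
  obtain ⟨C1, hC1⟩ : ∃ C1, C1 = C ^ (alpha p / 2) := ⟨_, rfl⟩
  have hC11 : 1 ≤ C1 := by rw [hC1]; exact Real.one_le_rpow hC (by linarith)
  obtain ⟨n₀, hn₀⟩ := absorb (C1 + C + 6 * K + 4 * C + C * C1 + C * C1) (a := c2) (b := c2 / 2)
    (by linarith)
  refine ⟨c2 / 2, by linarith, max n₀ 1, fun n d hn hc => ?_⟩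
  have hn1 : 1 ≤ n := (le_max_right _ _).trans hn
  have hn2 : n₀ ≤ n := (le_max_left _ _).trans hn
  have hx : (1 : ℝ) ≤ n := by exact_mod_cast hn1
  have hx0 : (0 : ℝ) < n := by linarith
  have h1p : (0 : ℝ) < 1 - p := by linarith
  have hM := pow_w h0 h1 hC hn1 hc hdel0.le hdelq
  have hk := kappa_le h0 h1 hdel0 d
  have hen := exp_neg_d h0 h1 hC hn1 hc (c := del ^ 2 / 2) (by positivity)
  rw [← hAe, ← hDe, ← hC1] at hM
  rw [← hDe] at hen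
  obtain ⟨w, hw⟩ : ∃ w, w = ⌈(d : ℝ) * (p / (1 + p) - del)⌉₊ := ⟨_, rfl⟩
  rw [← hw] at hM hk
  have hMpos : 0 < (1 - p) ^ w := by positivity
  have hp2 : p ^ 2 < 1 := by nlinarith
  have hm0 : 0 < (1 - p ^ 2) ^ d := pow_pos (by linarith) d
  have hM' : (1 - p) ^ w ≤ C1 * (n : ℝ) ^ (-alpha p + ε / 8) :=
    hM.trans (mul_le_mul_of_nonneg_left
      (Real.rpow_le_rpow_of_exponent_le hx (by linarith)) (by linarith))
  have hu0 : 0 < (n : ℝ) ^ (-(ε / 16)) := Real.rpow_pos_of_pos hx0 _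
  refine ⟨w, (n : ℝ) ^ (-(ε / 16)) / (1 - p) ^ w, by positivity, ?_, fun g _ hg1 => ?_⟩
  · rw [div_mul_cancel₀ _ hMpos.ne']
    exact Real.rpow_le_one_of_one_le_of_nonpos hx (by linarith)
  · have hkap : (n : ℝ) ^ 2 * kappa d p w ≤ K * (n : ℝ) ^ (-(2 * (del ^ 2 / 2) / D)) := by
      calc (n : ℝ) ^ 2 * kappa d p w
          ≤ (n : ℝ) ^ 2 * ((1 - p ^ 2) ^ d * Real.exp (-(d * (del ^ 2 / 2)))) :=
            mul_le_mul_of_nonneg_left hk (by positivity)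
        _ = ((n : ℝ) ^ 2 * (1 - p ^ 2) ^ d) * Real.exp (-(d * (del ^ 2 / 2))) := by ring
        _ ≤ C * (C ^ (del ^ 2 / 2 / D) * (n : ℝ) ^ (-(2 * (del ^ 2 / 2) / D))) :=
            mul_le_mul hc.2 hen (Real.exp_pos _).le hC0.le
        _ = K * (n : ℝ) ^ (-(2 * (del ^ 2 / 2) / D)) := by rw [hK]; ring
    have := err_num (x := n) (M := (1 - p) ^ w) (m := (1 - p ^ 2) ^ d) (κ := kappa d p w)
      (s := (n : ℝ) ^ (-(ε / 16)) / (1 - p) ^ w) (L := (n : ℝ) ^ (alpha p - 1 - ε / 4)) (g := g)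
      (ε := ε) (al := alpha p) (C := C) (C1 := C1) (K := K) (e3 := 2 * (del ^ 2 / 2) / D)
      (c2 := c2) hx hMpos hM' hC11 hC hm0.le hc.2 hkap hK0 rfl rfl hg1 hε hε1 hc21 hc22
    refine le_trans ?_ (this.trans (hn₀ n hn2))
    rw [err]

end Pool.Agent.H2.AV
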