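import Pool.Agent.H2.AV.Ex

/-!
# [H2 AV VC] Weight and orthogonality of random vectors

PROOFS. `y ^ wt u = prod_k (if u_k then y else 1)` (`Finset.prod_ite`, `Finset.prod_const`), so `ev_pow` is `ev_prod`
(`p * y + (1 - p)`). `ev_oi`: `oi u v = prod_k f_k(v_k)` with `f_k(true) = (if u_k then 0 else 1)`, `f_k(false) = 1`; the factor is
`1 - p` for `u_k = 1` and `1` otherwise; the product is `(1-p)^wt u` (`Finset.prod_ite`). `ev_gg`: `y = 1 - p`,
`1 - p + p (1 - p) = 1 - p^2`. `oi_eq`: the product is 1 iff no coordinate has both bits 1 iff the sum of the products of the bits is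
0 (`Finset.sum_eq_zero_iff`); so `oi` is 0 or 1. `no_pair`: `HasOrthogonalPair` in terms of `cnt`: `cnt x i >= 0` is positive iff some
`x (false,j)` is orthogonal to `x (true,i)`. `cnt_nat`: sum of zeros and ones. `cnt_mul`: `cnt^2 = sum_j sum_j' oi_j oi_j'`, and the
diagonal is `sum_j oi_j^2 = cnt`. `gg_sq_le`: `gg^2 <= (1-p)^w gg` if `w <= wt u` (`pow_le_pow_of_le_one`), and `ev gg = (1-p^2)^d`.
`kappa_eq`: `gg = gg1 + gg2`.
-/

set_option autoImplicit false

namespace Pool.Agent.H2.AV

variable {n d : ℕ} {p : ℝ}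

private theorem pow_wt (y : ℝ) (u : Vec d) : y ^ wt u = ∏ k, if u k = true then y else 1 := by
  unfold wt
  rw [Finset.prod_ite, Finset.prod_const, Finset.prod_const_one, mul_one]

theorem ev_pow (p y : ℝ) : ev p (fun u : Vec d => y ^ wt u) = (1 - p + p * y) ^ d := by
  simp_rw [pow_wt]
  have h := ev_prod (d := d) p (fun _ b => if b = true then y else 1)
  rw [h]
  simp only [if_true, Bool.false_eq_true, if_false, mul_one, Finset.prod_const, Finset.card_univ,
    Fintype.card_fin]
  congr 1
  ring

theorem oi_comm (u v : Vec d) : oi u v = oi v u := by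
  unfold oi
  apply Finset.prod_congr rfl
  intro k _
  rw [Bool.and_comm]

theorem oi_eq (u v : Vec d) :
    oi u v = if ∑ k : Fin d, (u k).toNat * (v k).toNat = 0 then 1 else 0 := by
  unfold oi
  split_ifs with h
  · rw [Finset.sum_eq_zero_iff] at h
    apply Finset.prod_eq_one
    intro k hk
    have := h k hk
    rw [if_neg]
    intro hc
    rw [Bool.and_eq_true] at hc
    rw [hc.1, hc.2] at this
    simp at this
  · rw [Finset.sum_eq_zero_iff] at h
    push Not at h
    obtain ⟨k, hk, hk'⟩ := h
    apply Finset.prod_eq_zero hk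
    rw [if_pos]
    cases hu : u k <;> cases hv : v k <;> simp_all

private theorem oi_zero_or_one (u v : Vec d) : oi u v = 0 ∨ oi u v = 1 := by
  rw [oi_eq]
  split_ifs
  · right; rfl
  · left; rfl

theorem oi_nonneg (u v : Vec d) : 0 ≤ oi u v := by
  rcases oi_zero_or_one u v with h | h <;> rw [h] <;> norm_num

theorem oi_le_one (u v : Vec d) : oi u v ≤ 1 := by
  rcases oi_zero_or_one u v with h | h <;> rw [h] <;> norm_num

theorem ev_oi (p : ℝ) (u : Vec d) : ev p (fun v => oi u v) = gg p u := by
  unfold oi gg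
  rw [pow_wt]
  have h := ev_prod (d := d) p (fun k b => if (u k && b) = true then 0 else 1)
  rw [h]
  apply Finset.prod_congr rfl
  intro k _
  cases hu : u k
  · simp
  · simp

theorem ev_oi' (p : ℝ) (v : Vec d) : ev p (fun u => oi u v) = gg p v := by
  simp_rw [oi_comm _ v]
  exact ev_oi p v

theorem gg_nonneg (h1 : p ≤ 1) (u : Vec d) : 0 ≤ gg p u := by
  unfold gg
  exact pow_nonneg (by linarith) _

theorem gg_le_one (h0 : 0 ≤ p) (h1 : p ≤ 1) (u : Vec d) : gg p u ≤ 1 := by
  unfold gg
  exact pow_le_one₀ (by linarith) (by linarith)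

theorem ev_gg (p : ℝ) : ev p (fun u : Vec d => gg p u) = (1 - p ^ 2) ^ d := by
  unfold gg
  rw [ev_pow]
  congr 1
  ring

theorem gg_sq_le (h0 : 0 ≤ p) (h1 : p ≤ 1) (w : ℕ) :
    ev p (fun u : Vec d => gg p u ^ 2 * if w ≤ wt u then 1 else 0) ≤
      (1 - p) ^ w * (1 - p ^ 2) ^ d := by
  rw [← ev_gg, ← ev_mul]
  apply ev_mono h0 h1
  intro u
  have hg := gg_nonneg h1 u
  split_ifs with h
  · have : gg p u ≤ (1 - p) ^ w := by
      unfold gg
      exact pow_le_pow_of_le_one (by linarith) (by linarith) h
    nlinarith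
  · rw [mul_zero]
    exact mul_nonneg (pow_nonneg (by linarith) _) hg

theorem kappa_nonneg (h0 : 0 ≤ p) (h1 : p ≤ 1) (w : ℕ) : 0 ≤ kappa d p w := by
  unfold kappa
  apply ev_nonneg h0 h1
  intro u
  apply mul_nonneg (gg_nonneg h1 u)
  split_ifs <;> norm_num

theorem kappa_eq (p : ℝ) (w : ℕ) :
    ev p (fun u : Vec d => gg p u * if w ≤ wt u then 1 else 0) =
      (1 - p ^ 2) ^ d - kappa d p w := by
  unfold kappa
  rw [← ev_gg, ← ev_sub]
  congr 1
  funext u
  by_cases h : w ≤ wt u
  · rw [if_pos h, if_neg (by omega)]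
    ring
  · rw [if_neg h, if_pos (by omega)]
    ring

theorem cnt_nat (x : Input n d) (i : Fin n) : ∃ m : ℕ, cnt x i = m := by
  unfold cnt
  refine ⟨∑ j, if ∑ k : Fin d, (x (false, j) k).toNat * (x (true, i) k).toNat = 0 then 1 else 0,
    ?_⟩
  push_cast
  apply Finset.sum_congr rfl
  intro j _
  rw [oi_eq]

/-- there is no orthogonal pair iff all `cnt` vanish -/
theorem no_pair (x : Input n d) : ¬ HasOrthogonalPair x ↔ ∀ i, cnt x i = 0 := by
  unfold HasOrthogonalPair cnt
  constructor
  · intro h i
    apply Finset.sum_eq_zero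
    intro j _
    rw [oi_eq, if_neg]
    intro hc
    exact h ⟨j, i, hc⟩
  · rintro h ⟨j, i, hji⟩
    have h2 := h i
    rw [Finset.sum_eq_zero_iff_of_nonneg (fun j _ => oi_nonneg _ _)] at h2
    have h3 := h2 j (Finset.mem_univ _)
    rw [oi_eq, if_pos hji] at h3
    exact one_ne_zero h3

theorem cnt_mul (x : Input n d) (i : Fin n) : cnt x i * (cnt x i - 1) =
    ∑ j, ∑ j' ∈ Finset.univ.erase j, oi (x (false, j)) (x (true, i)) *
      oi (x (false, j')) (x (true, i)) := by
  have h : ∀ j : Fin n, ∑ j' ∈ Finset.univ.erase j, oi (x (false, j)) (x (true, i)) *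
      oi (x (false, j')) (x (true, i)) = oi (x (false, j)) (x (true, i)) * (cnt x i - 1) := by
    intro j
    rw [← Finset.mul_sum]
    have e : ∑ j' ∈ Finset.univ.erase j, oi (x (false, j')) (x (true, i)) =
        cnt x i - oi (x (false, j)) (x (true, i)) := by
      unfold cnt
      rw [← Finset.sum_erase_add _ _ (Finset.mem_univ j)]
      ring
    rw [e]
    rcases oi_zero_or_one (x (false, j)) (x (true, i)) with h | h
    · rw [h]; ring
    · rw [h]
  simp_rw [h]
  rw [← Finset.sum_mul]
  rfl

private theorem ex_oi_mul (p : ℝ) (i j : Fin n) (F : Input n d → ℝ)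
    (hF : ∀ x z, F (Function.update x (false, j) z) = F x) :
    ex p (fun x : Input n d => oi (x (false, j)) (x (true, i)) * F x) =
      ex p fun x => gg p (x (true, i)) * F x := by
  rw [ex_resample p (false, j)]
  congr 1
  funext x
  have e : (fun z : Vec d => oi (Function.update x (false, j) z (false, j))
      (Function.update x (false, j) z (true, i)) * F (Function.update x (false, j) z)) =
      fun z => F x * oi z (x (true, i)) := by
    funext z
    rw [hF, Function.update_self, Function.update_of_ne (by simp)]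
    ring
  rw [e, ev_mul, ev_oi']
  ring

/-- PROOF: `cnt` is a sum over `j`; resample `(false,j)` (`ex_resample`, `ev_oi'`), then `ex_marg`. -/
theorem ex_cnt (p : ℝ) (i : Fin n) (f : Vec d → ℝ) :
    ex p (fun x : Input n d => cnt x i * f (x (true, i))) = n * ev p (fun u => gg p u * f u) := by
  have h : ∀ x : Input n d, cnt x i * f (x (true, i)) =
      ∑ j, oi (x (false, j)) (x (true, i)) * f (x (true, i)) := by
    intro x
    unfold cnt
    rw [Finset.sum_mul]
  simp_rw [h]
  rw [ex_sum]
  have h2 : ∀ j : Fin n, ex p (fun x : Input n d =>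
      oi (x (false, j)) (x (true, i)) * f (x (true, i))) = ev p (fun u => gg p u * f u) := by
    intro j
    rw [ex_oi_mul p i j (fun x => f (x (true, i)))
      (fun x z => by rw [Function.update_of_ne (by simp)])]
    exact ex_marg p (true, i) (fun u => gg p u * f u)
  simp_rw [h2]
  rw [Finset.sum_const, Finset.card_univ, Fintype.card_fin, nsmul_eq_mul]

/-- PROOF: `cnt_mul`; for `j <> j'` resample `(false,j)`, then `(false,j')` (`ex_resample`, `ev_oi'`): the term is
`ex (gg^2 f)(x (true,i)) = ev (gg^2 f)`; there are `n (n-1) <= n^2` terms. -/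
theorem ex_cnt_mul (h0 : 0 ≤ p) (h1 : p ≤ 1) (i : Fin n) (f : Vec d → ℝ) (hf : ∀ u, 0 ≤ f u) :
    ex p (fun x : Input n d => cnt x i * (cnt x i - 1) * f (x (true, i))) ≤
      n ^ 2 * ev p (fun u => gg p u ^ 2 * f u) := by
  have h : ∀ x : Input n d, cnt x i * (cnt x i - 1) * f (x (true, i)) =
      ∑ j, ∑ j' ∈ Finset.univ.erase j, oi (x (false, j)) (x (true, i)) *
      (oi (x (false, j')) (x (true, i)) * f (x (true, i))) := by
    intro x
    rw [cnt_mul, Finset.sum_mul]
    apply Finset.sum_congr rfl
    intro j _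
    rw [Finset.sum_mul]
    apply Finset.sum_congr rfl
    intro j' _
    ring
  simp_rw [h]
  rw [ex_sum]
  have h2 : ∀ j j' : Fin n, j' ∈ Finset.univ.erase j → ex p (fun x : Input n d =>
      oi (x (false, j)) (x (true, i)) * (oi (x (false, j')) (x (true, i)) * f (x (true, i)))) =
      ev p (fun u => gg p u ^ 2 * f u) := by
    intro j j' hj
    have hne : j' ≠ j := Finset.ne_of_mem_erase hj
    rw [ex_oi_mul p i j (fun x => oi (x (false, j')) (x (true, i)) * f (x (true, i)))
      (fun x z => by
        rw [Function.update_of_ne (show ((false, j') : Pos n) ≠ (false, j) from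
          fun hc => hne (congrArg Prod.snd hc)), Function.update_of_ne (by simp)])]
    have e : ∀ x : Input n d, gg p (x (true, i)) *
        (oi (x (false, j')) (x (true, i)) * f (x (true, i))) =
        oi (x (false, j')) (x (true, i)) * (gg p (x (true, i)) * f (x (true, i))) := by
      intro x
      ring
    simp_rw [e]
    rw [ex_oi_mul p i j' (fun x => gg p (x (true, i)) * f (x (true, i)))
      (fun x z => by rw [Function.update_of_ne (by simp)])]
    have e2 : ∀ x : Input n d, gg p (x (true, i)) * (gg p (x (true, i)) * f (x (true, i))) =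
        gg p (x (true, i)) ^ 2 * f (x (true, i)) := by
      intro x
      ring
    simp_rw [e2]
    exact ex_marg p (true, i) (fun u => gg p u ^ 2 * f u)
  have hnn : 0 ≤ ev p (fun u : Vec d => gg p u ^ 2 * f u) :=
    ev_nonneg h0 h1 fun u => mul_nonneg (sq_nonneg _) (hf u)
  calc ∑ j, ex p (fun x : Input n d => ∑ j' ∈ Finset.univ.erase j,
        oi (x (false, j)) (x (true, i)) * (oi (x (false, j')) (x (true, i)) * f (x (true, i))))
      = ∑ j : Fin n, ∑ j' ∈ Finset.univ.erase j, ev p (fun u : Vec d => gg p u ^ 2 * f u) := by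
        apply Finset.sum_congr rfl
        intro j _
        rw [ex_sum]
        exact Finset.sum_congr rfl fun j' hj' => h2 j j' hj'
    _ ≤ ∑ _j : Fin n, ∑ _j' : Fin n, ev p (fun u : Vec d => gg p u ^ 2 * f u) := by
        apply Finset.sum_le_sum
        intro j _
        apply Finset.sum_le_sum_of_subset_of_nonneg (Finset.subset_univ _)
        intro j' _ _
        exact hnn
    _ = n ^ 2 * ev p (fun u : Vec d => gg p u ^ 2 * f u) := by
        rw [Finset.sum_const, Finset.sum_const, Finset.card_univ, Fintype.card_fin, nsmul_eq_mul,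
          nsmul_eq_mul]
        ring

end Pool.Agent.H2.AV
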