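import Pool.Agent.H2.AV.Soft
import Pool.Agent.H2.AV.Vc

/-!
# [H2 AV ROW] One row: the number of partners may be replaced by its mean

PROOF. Resample the vector at `(true,i)` (`ex_resample`): the vectors `x (false,j)` do not change, `acc` becomes `h (sg x) z`, `Z` does
not change (`hZ`), `cnt` becomes `sum_j oi (x (false,j)) z`, so the expectation is
`ex (Z x * ev_z (h (sg x) z * (sum_j oi (x (false,j)) z - n gg z)))`. Put `psi_t(v) = ev_z (h t z * oi v z)`. Then
`ev_z(h t z * oi (x_j) z) = psi_t(x_j)` and `ev_v psi_t(v) = ev_z (h t z * gg z)` (`ev_swap`, `ev_oi'`). So it is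
`ex (Z x * sum_j (psi_(sg x)(x_j) - ev psi_(sg x)))`. Split `psi = psi1 + psi2`, `psi1 = psi` for `w <= wt v` (else 0), `psi2 = psi` for
`wt v < w`. `0 <= psi_t(v) <= gg v` (`h <= 1`, `ev_oi`), so `psi1 <= (1-p)^w =: M` (`pow_le_pow_of_le_one`), `ev psi1 <= ev gg = (1-p^2)^d =: m`:
`soft` bounds the first part (`|Z| <= 1`). Second part: `|sum_j (psi2(x_j) - ev psi2)| <= sum_j gg1(x_j) + n ev gg1` with
`gg1 v = gg v * (if wt v < w then 1 else 0)`, expectation `2 n kappa` (`ex_marg`).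
-/

set_option autoImplicit false

namespace Pool.Agent.H2.AV

variable {n d : ℕ} {p : ℝ}

theorem row (h0 : 0 ≤ p) (h1 : p ≤ 1) {S : Type} [Fintype S] [Nonempty S] (i : Fin n) (w : ℕ)
    {s : ℝ} (hs : 0 < s) (hsM : s * (1 - p) ^ w ≤ 1) (h : S → Vec d → ℝ)
    (hh : ∀ t z, 0 ≤ h t z ∧ h t z ≤ 1) (sg : Input n d → S) (acc Z : Input n d → ℝ)
    (hacc : ∀ x z, acc (Function.update x (true, i) z) = h (sg x) z)
    (hZ1 : ∀ x, 0 ≤ Z x ∧ Z x ≤ 1) (hZ : ∀ x z, Z (Function.update x (true, i) z) = Z x) :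
    |ex p (fun x => acc x * Z x * (cnt x i - n * gg p (x (true, i))))| ≤
      (Real.log (2 * Fintype.card S) + n * s ^ 2 * (1 - p) ^ w * (1 - p ^ 2) ^ d) / s +
        2 * n * kappa d p w := by
  set κ : ℝ := kappa d p w with hκ
  have hκ0 : 0 ≤ κ := kappa_nonneg h0 h1 w
  have hn0 : (0 : ℝ) ≤ n := Nat.cast_nonneg _
  -- the averaged functions
  let ψ : S → Vec d → ℝ := fun t v => ev p fun z => h t z * oi v z
  let ψ1 : S → Vec d → ℝ := fun t v => ψ t v * if w ≤ wt v then 1 else 0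
  let ψ2 : S → Vec d → ℝ := fun t v => ψ t v * if wt v < w then 1 else 0
  have hψ0 : ∀ t v, 0 ≤ ψ t v := fun t v =>
    ev_nonneg h0 h1 fun z => mul_nonneg (hh t z).1 (oi_nonneg v z)
  have hψg : ∀ t v, ψ t v ≤ gg p v := by
    intro t v
    rw [← ev_oi p v]
    refine ev_mono h0 h1 fun z => ?_
    calc h t z * oi v z ≤ 1 * oi v z := mul_le_mul_of_nonneg_right (hh t z).2 (oi_nonneg v z)
      _ = oi v z := one_mul _
  have hψs : ∀ t v, ψ t v = ψ1 t v + ψ2 t v := by
    intro t v
    show ψ t v = ψ t v * (if w ≤ wt v then 1 else 0) + ψ t v * (if wt v < w then 1 else 0)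
    by_cases hc : w ≤ wt v
    · rw [if_pos hc, if_neg (by omega)]
      ring
    · rw [if_neg hc, if_pos (by omega)]
      ring
  have hψ1 : ∀ t v, 0 ≤ ψ1 t v ∧ ψ1 t v ≤ (1 - p) ^ w := by
    intro t v
    refine ⟨mul_nonneg (hψ0 t v) (by split_ifs <;> norm_num), ?_⟩
    show ψ t v * (if w ≤ wt v then 1 else 0) ≤ _
    split_ifs with hc
    · rw [mul_one]
      refine (hψg t v).trans ?_
      unfold gg
      exact pow_le_pow_of_le_one (by linarith) (by linarith) hc
    · rw [mul_zero]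
      exact pow_nonneg (by linarith) _
  have hm : ∀ t, ev p (ψ1 t) ≤ (1 - p ^ 2) ^ d := by
    intro t
    rw [← ev_gg]
    refine ev_mono h0 h1 fun v => ?_
    refine le_trans ?_ (hψg t v)
    show ψ t v * (if w ≤ wt v then 1 else 0) ≤ ψ t v
    split_ifs
    · rw [mul_one]
    · rw [mul_zero]
      exact hψ0 t v
  let g2 : Vec d → ℝ := fun v => gg p v * if wt v < w then 1 else 0
  have hg2 : ∀ v, 0 ≤ g2 v := fun v => mul_nonneg (gg_nonneg h1 v) (by split_ifs <;> norm_num)
  have hψ2 : ∀ t v, 0 ≤ ψ2 t v ∧ ψ2 t v ≤ g2 v := fun t v =>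
    ⟨mul_nonneg (hψ0 t v) (by split_ifs <;> norm_num),
      mul_le_mul_of_nonneg_right (hψg t v) (by split_ifs <;> norm_num)⟩
  have hev2 : ∀ t, 0 ≤ ev p (ψ2 t) ∧ ev p (ψ2 t) ≤ κ := fun t =>
    ⟨ev_nonneg h0 h1 fun v => (hψ2 t v).1, ev_mono h0 h1 fun v => (hψ2 t v).2⟩
  -- the mean
  have hmean : ∀ t, ev p (ψ t) = ev p (fun z => h t z * gg p z) := by
    intro t
    show ev p (fun v => ev p fun z => h t z * oi v z) = _
    rw [ev_swap]
    congr 1
    funext z
    rw [ev_mul, ev_oi']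
  -- resampling
  have hres : ex p (fun x => acc x * Z x * (cnt x i - n * gg p (x (true, i)))) =
      ex p fun x => Z x * ((∑ j, (ψ1 (sg x) (x (false, j)) - ev p (ψ1 (sg x)))) +
        ∑ j, (ψ2 (sg x) (x (false, j)) - ev p (ψ2 (sg x)))) := by
    rw [ex_resample p (true, i)]
    congr 1
    funext x
    have e1 : (fun z => acc (Function.update x (true, i) z) * Z (Function.update x (true, i) z) *
        (cnt (Function.update x (true, i) z) i -
          n * gg p (Function.update x (true, i) z (true, i)))) =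
        fun z => Z x * ((∑ j, h (sg x) z * oi (x (false, j)) z) -
          n * (h (sg x) z * gg p z)) := by
      funext z
      rw [hacc, hZ, Function.update_self]
      have e2 : cnt (Function.update x (true, i) z) i = ∑ j, oi (x (false, j)) z := by
        unfold cnt
        refine Finset.sum_congr rfl fun j _ => ?_
        rw [Function.update_self, Function.update_of_ne (by simp)]
      rw [e2, ← Finset.mul_sum]
      ring
    rw [e1, ev_mul, ev_sub, ev_sum, ev_mul, ← hmean]
    congr 1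
    rw [← Finset.sum_add_distrib]
    have e3 : ∀ j : Fin n, ψ1 (sg x) (x (false, j)) - ev p (ψ1 (sg x)) +
        (ψ2 (sg x) (x (false, j)) - ev p (ψ2 (sg x))) =
        ψ (sg x) (x (false, j)) - ev p (ψ (sg x)) := by
      intro j
      have e4 : ev p (ψ (sg x)) = ev p (ψ1 (sg x)) + ev p (ψ2 (sg x)) := by
        rw [← ev_add]
        congr 1
        funext v
        exact hψs _ _
      rw [e4, hψs]
      ring
    simp_rw [e3]
    rw [Finset.sum_sub_distrib, Finset.sum_const, Finset.card_univ, Fintype.card_fin,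
      nsmul_eq_mul]
  rw [hres]
  refine (abs_ex_le h0 h1 _).trans ?_
  have hb : ∀ x : Input n d, |Z x * ((∑ j, (ψ1 (sg x) (x (false, j)) - ev p (ψ1 (sg x)))) +
        ∑ j, (ψ2 (sg x) (x (false, j)) - ev p (ψ2 (sg x))))| ≤
      |∑ j, (ψ1 (sg x) (x (false, j)) - ev p (ψ1 (sg x)))| +
        ∑ j, (g2 (x (false, j)) + κ) := by
    intro x
    rw [abs_mul, abs_of_nonneg (hZ1 x).1]
    have b1 : |∑ j, (ψ2 (sg x) (x (false, j)) - ev p (ψ2 (sg x)))| ≤
        ∑ j, (g2 (x (false, j)) + κ) := by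
      refine (Finset.abs_sum_le_sum_abs _ _).trans (Finset.sum_le_sum fun j _ => ?_)
      refine (abs_sub _ _).trans ?_
      rw [abs_of_nonneg (hψ2 _ _).1, abs_of_nonneg (hev2 _).1]
      exact add_le_add (hψ2 _ _).2 (hev2 _).2
    calc Z x * |(∑ j, (ψ1 (sg x) (x (false, j)) - ev p (ψ1 (sg x)))) +
          ∑ j, (ψ2 (sg x) (x (false, j)) - ev p (ψ2 (sg x)))|
        ≤ 1 * |(∑ j, (ψ1 (sg x) (x (false, j)) - ev p (ψ1 (sg x)))) +
          ∑ j, (ψ2 (sg x) (x (false, j)) - ev p (ψ2 (sg x)))| :=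
          mul_le_mul_of_nonneg_right (hZ1 x).2 (abs_nonneg _)
      _ ≤ _ := by
          rw [one_mul]
          exact (abs_add_le _ _).trans (add_le_add le_rfl b1)
  refine (ex_mono h0 h1 hb).trans ?_
  rw [ex_add]
  refine add_le_add ?_ ?_
  · exact soft h0 h1 hs (pow_nonneg (by linarith) _) hsM ψ1 hψ1 hm sg
  · rw [ex_sum]
    have h3 : ∀ j : Fin n, ex p (fun x : Input n d => g2 (x (false, j)) + κ) = 2 * κ := by
      intro j
      have h4 := ex_marg (n := n) p (false, j) (fun u => g2 u + κ * 1)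
      rw [ev_add, ev_mul, ev_one] at h4
      have h5 : ev p (fun u => g2 u) = κ := rfl
      rw [h5] at h4
      have h6 : (fun x : Input n d => g2 (x (false, j)) + κ) =
          fun x : Input n d => g2 (x (false, j)) + κ * 1 := by
        funext x
        ring
      rw [h6, h4]
      ring
    simp_rw [h3]
    rw [Finset.sum_const, Finset.card_univ, Fintype.card_fin, nsmul_eq_mul]
    apply le_of_eq
    ring

end Pool.Agent.H2.AV
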