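import Pool.Agent.H2.AV.Defs

/-!
# The signature of a machine at one position (copied from `HybridMachines`, helper22)
-/

set_option autoImplicit false

namespace Pool.Agent.H2.AV

variable {n d : ℕ}

/-! ### Computations on a graph and their restriction to some nodes -/

section graph

variable {N L α β : Type} {R : N → ℕ}

/-- One step of a computation with the answers `ans`. -/
def gstep (next : (v : N) → Fin (R v) → N ⊕ L) (ans : (v : N) → Fin (R v)) : N ⊕ L → N ⊕ L
  | Sum.inl v => next v (ans v)
  | Sum.inr e => Sum.inr e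

open Classical in
/-- The step which stops at the labelled nodes. -/
noncomputable def skipStep (next : (v : N) → Fin (R v) → N ⊕ L) (lab : N → Option α)
    (ans : (v : N) → Fin (R v)) : N ⊕ L → N ⊕ L
  | Sum.inl v => if (lab v).isSome then Sum.inl v else next v (ans v)
  | Sum.inr e => Sum.inr e

/-- The label of a labelled node or of an end. -/
def toStop (lab : N → Option α) (labE : L → β) : N ⊕ L → Option (α ⊕ β)
  | Sum.inl v => (lab v).map Sum.inl
  | Sum.inr e => some (Sum.inr (labE e))

open Classical in
/-- Follow the computation until a labelled node or an end is reached. -/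
noncomputable def skip (next : (v : N) → Fin (R v) → N ⊕ L) (lab : N → Option α) (labE : L → β)
    (ans : (v : N) → Fin (R v)) (w : N ⊕ L) : Option (α ⊕ β) :=
  if h : ∃ t, (toStop lab labE ((skipStep next lab ans)^[t] w)).isSome then
    toStop lab labE ((skipStep next lab ans)^[Nat.find h] w) else none

theorem iterate_gstep_inr (next : (v : N) → Fin (R v) → N ⊕ L) (ans : (v : N) → Fin (R v))
    (e : L) (t : ℕ) : (gstep next ans)^[t] (Sum.inr e) = Sum.inr e := by
  induction t with
  | zero => rfl
  | succ t ih => rw [Function.iterate_succ_apply']; rw [ih]; rfl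

theorem toStop_inj (lab : N → Option α) (labE : L → β)
    (hlab : ∀ v v' a, lab v = some a → lab v' = some a → v = v')
    (hlabE : Function.Injective labE) {z z' : N ⊕ L} {σ : α ⊕ β}
    (h : toStop lab labE z = some σ) (h' : toStop lab labE z' = some σ) : z = z' := by
  rcases z with v | b <;> rcases z' with v' | b'
  · simp only [toStop, Option.map_eq_some_iff] at h h'
    obtain ⟨a, ha, ha2⟩ := h
    obtain ⟨a', ha', ha2'⟩ := h'
    rw [← ha2'] at ha2
    have : a = a' := Sum.inl.inj ha2
    subst this
    rw [hlab v v' a ha ha']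
  · simp only [toStop, Option.map_eq_some_iff] at h h'
    obtain ⟨a, ha, ha2⟩ := h
    rw [← ha2] at h'
    simp at h'
  · simp only [toStop, Option.map_eq_some_iff] at h h'
    obtain ⟨a, ha, ha2⟩ := h'
    rw [← ha2] at h
    simp at h
  · simp only [toStop] at h h'
    rw [← h'] at h
    rw [hlabE (Sum.inr.inj (Option.some.inj h))]

theorem skip_congr (next : (v : N) → Fin (R v) → N ⊕ L) (lab : N → Option α) (labE : L → β)
    {ans ans' : (v : N) → Fin (R v)} (h : ∀ v, lab v = none → ans v = ans' v) :
    skip next lab labE ans = skip next lab labE ans' := by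
  have h1 : skipStep next lab ans = skipStep next lab ans' := by
    funext w
    rcases w with v | b
    · by_cases hv : (lab v).isSome
      · simp [skipStep, hv]
      · have h1 : lab v = none := by simpa using hv
        simp [skipStep, h1, h v h1]
    · rfl
  unfold skip
  rw [h1]

theorem iterate_gstep_eq (next : (v : N) → Fin (R v) → N ⊕ L) (lab : N → Option α)
    (labE : L → β) (ans : (v : N) → Fin (R v)) (w : N ⊕ L) (t : ℕ)
    (h : ∀ i < t, ¬ (toStop lab labE ((skipStep next lab ans)^[i] w)).isSome) :
    (gstep next ans)^[t] w = (skipStep next lab ans)^[t] w := by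
  induction t with
  | zero => rfl
  | succ t ih =>
    rw [Function.iterate_succ_apply', Function.iterate_succ_apply', ih (fun i hi => h i (by omega))]
    have hk := h t (by omega)
    generalize (skipStep next lab ans)^[t] w = z at hk
    rcases z with v | b
    · by_cases hv : (lab v).isSome
      · simp [toStop, hv] at hk
      · simp [gstep, skipStep, hv]
    · simp [toStop] at hk

theorem skip_spec (next : (v : N) → Fin (R v) → N ⊕ L) (lab : N → Option α) (labE : L → β)
    (ans : (v : N) → Fin (R v)) (w : N ⊕ L) {σ : α ⊕ β} (h : skip next lab labE ans w = some σ) :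
    ∃ t, toStop lab labE ((gstep next ans)^[t] w) = some σ := by
  classical
  unfold skip at h
  split_ifs at h with hex
  have h1 := iterate_gstep_eq next lab labE ans w (Nat.find hex)
    (fun i hi => Nat.find_min hex hi)
  exact ⟨_, by rw [h1]; exact h⟩

theorem reach_aux (next : (v : N) → Fin (R v) → N ⊕ L) (lab : N → Option α) (labE : L → β)
    (hlab : ∀ v v' a, lab v = some a → lab v' = some a → v = v')
    (hlabE : Function.Injective labE) (ans ans' : (v : N) → Fin (R v))
    (hans : ∀ v, (lab v).isSome → ans v = ans' v)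
    (hnext : ∀ v, (lab v).isSome → ∀ r,
      skip next lab labE ans (next v r) = skip next lab labE ans' (next v r)) (e : L) :
    ∀ (t : ℕ) (w w' : N ⊕ L), skip next lab labE ans w = skip next lab labE ans' w' →
      (gstep next ans)^[t] w = Sum.inr e → ∃ t', (gstep next ans')^[t'] w' = Sum.inr e := by
  classical
  intro t
  induction t using Nat.strong_induction_on with
  | _ t ih =>
    intro w w' hww ht
    have hex : ∃ s, (toStop lab labE ((skipStep next lab ans)^[s] w)).isSome := by
      by_contra hcon
      push Not at hcon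
      have h1 := iterate_gstep_eq next lab labE ans w t (fun i _ => hcon i)
      have h2 := hcon t
      rw [← h1, ht] at h2
      simp [toStop] at h2
    have hkt : Nat.find hex ≤ t := by
      by_contra hcon
      rw [not_le] at hcon
      have h1 := iterate_gstep_eq next lab labE ans w t
        (fun i hi => Nat.find_min hex (hi.trans hcon))
      have h2 := Nat.find_min hex hcon
      rw [← h1, ht] at h2
      simp [toStop] at h2
    have hgk := iterate_gstep_eq next lab labE ans w (Nat.find hex)
      (fun i hi => Nat.find_min hex hi)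
    obtain ⟨σ, hσ⟩ := Option.isSome_iff_exists.1 (Nat.find_spec hex)
    have hskip : skip next lab labE ans w = some σ := by
      unfold skip
      rw [dif_pos hex]
      exact hσ
    rw [hskip] at hww
    obtain ⟨k', hk2⟩ := skip_spec next lab labE ans' w' hww.symm
    set s := Nat.find hex with hs
    rw [← hgk] at hσ
    have hzz := toStop_inj lab labE hlab hlabE hσ hk2
    obtain ⟨u, rfl⟩ := Nat.exists_eq_add_of_le hkt
    rw [add_comm, Function.iterate_add_apply] at ht
    rcases hz : (gstep next ans)^[s] w with v | c
    · -- a labelled node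
      rw [hz] at ht hzz hσ
      have hv : (lab v).isSome := by
        rcases hl : lab v with _ | a
        · simp [toStop, hl] at hσ
        · simp
      rcases u with _ | u
      · simp at ht
      · rw [Function.iterate_succ_apply] at ht
        have hstep : gstep next ans (Sum.inl v) = next v (ans v) := rfl
        rw [hstep] at ht
        obtain ⟨t', ht'⟩ := ih u (by omega) _ _ (hnext v hv (ans v)) ht
        refine ⟨t' + (k' + 1), ?_⟩
        rw [Function.iterate_add_apply, Function.iterate_succ_apply', ← hzz]
        have hstep' : gstep next ans' (Sum.inl v) = next v (ans' v) := rfl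
        rw [hstep', ← hans v hv]
        exact ht'
    · rw [hz, iterate_gstep_inr] at ht
      rw [hz, ht] at hzz
      exact ⟨k', hzz.symm⟩

end graph

theorem Routine.step_eq (P : Routine n d) (x : Input n d) {u : ℕ} (r : Fin u → ℝ) :
    P.step x r = gstep P.next (P.answer x r) := by
  funext w
  rcases w with v | b <;> rfl

/-! ### Step functions with an offset -/

theorem exists_idx {Z α : Type} [Fintype Z] {J : ℕ} (f : Z → ℝ → α) (hf : ∀ z, IsStep J (f z))
    (h : Z → ℝ) : ∃ idx : ℝ → Fin (2 * (J * Fintype.card Z) + 1),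
      ∀ c c', idx c = idx c' → ∀ z, f z (c + h z) = f z (c' + h z) := by
  classical
  choose D hD1 hD2 using hf
  let S : Finset ℝ := Finset.univ.biUnion fun z => (D z).image fun y => y - h z
  have hS : S.card ≤ J * Fintype.card Z := by
    calc S.card ≤ ∑ z : Z, ((D z).image fun y => y - h z).card := Finset.card_biUnion_le
      _ ≤ ∑ _z : Z, J := Finset.sum_le_sum fun z _ => Finset.card_image_le.trans (hD1 z)
      _ = J * Fintype.card Z := by rw [Finset.sum_const, Finset.card_univ, smul_eq_mul, mul_comm]
  let L : ℝ → ℕ := fun c => (S.filter fun y => y < c).card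
  let L' : ℝ → ℕ := fun c => (S.filter fun y => y ≤ c).card
  have hL : ∀ c, L c ≤ S.card := fun c => Finset.card_filter_le _ _
  have hL' : ∀ c, L' c ≤ S.card := fun c => Finset.card_filter_le _ _
  have key : ∀ c c', c ≤ c' → L c + L' c = L c' + L' c' →
      ∀ z, f z (c + h z) = f z (c' + h z) := by
    intro c c' hcc0 hLL z
    rcases hcc0.eq_or_lt with rfl | hlt
    · rfl
    have hcc : c ≤ c' := hlt.le
    have hsub1 : (S.filter fun y => y < c) ⊆ S.filter fun y => y < c' := by
      intro y hy
      simp only [Finset.mem_filter] at hy ⊢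
      exact ⟨hy.1, lt_of_lt_of_le hy.2 hcc⟩
    have hsub2 : (S.filter fun y => y ≤ c) ⊆ S.filter fun y => y ≤ c' := by
      intro y hy
      simp only [Finset.mem_filter] at hy ⊢
      exact ⟨hy.1, hy.2.trans hcc⟩
    have h1 : L c ≤ L c' := Finset.card_le_card hsub1
    have h2 : L' c ≤ L' c' := Finset.card_le_card hsub2
    have e1 := Finset.eq_of_subset_of_card_le hsub1 (by
      show L c' ≤ L c
      omega)
    have e2 := Finset.eq_of_subset_of_card_le hsub2 (by
      show L' c' ≤ L' c
      omega)
    refine hD2 z _ _ (by linarith) ?_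
    intro y hy
    have hyS : y - h z ∈ S :=
      Finset.mem_biUnion.2 ⟨z, Finset.mem_univ _, Finset.mem_image.2 ⟨y, hy, rfl⟩⟩
    by_contra hcon
    rw [not_or, not_lt, not_lt] at hcon
    have h3 : y - h z ≤ c' := by linarith [hcon.2]
    have h4 : c ≤ y - h z := by linarith [hcon.1]
    have h5 : y - h z ∈ S.filter fun y => y ≤ c := by
      rw [e2]
      exact Finset.mem_filter.2 ⟨hyS, h3⟩
    have h6 : y - h z ≤ c := (Finset.mem_filter.1 h5).2
    have h7 : y - h z = c := le_antisymm h6 h4
    have h9 : y - h z ∈ S.filter fun y => y < c := by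
      rw [e1]
      exact Finset.mem_filter.2 ⟨hyS, by linarith⟩
    exact absurd (Finset.mem_filter.1 h9).2 (by linarith)
  refine ⟨fun c => ⟨L c + L' c, by
    have := hL c
    have := hL' c
    omega⟩, ?_⟩
  intro c c' hcc
  have hcc' : L c + L' c = L c' + L' c' := by simpa [Fin.ext_iff] using hcc
  rcases le_total c c' with h1 | h1
  · exact key c c' h1 hcc'
  · intro z
    exact (key c' c h1 hcc'.symm z).symm

open Classical in
/-- A code of the offset `c` which determines `z ↦ f z (c + h z)`. -/
noncomputable def idxOf {Z α : Type} [Fintype Z] (J : ℕ) (f : Z → ℝ → α) (h : Z → ℝ) (c : ℝ) :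
    Fin (2 * (J * Fintype.card Z) + 1) :=
  if hf : ∀ z, IsStep J (f z) then (exists_idx f hf h).choose c else 0

theorem idxOf_spec {Z α : Type} [Fintype Z] {J : ℕ} {f : Z → ℝ → α} (hf : ∀ z, IsStep J (f z))
    (h : Z → ℝ) {c c' : ℝ} (e : idxOf J f h c = idxOf J f h c') (z : Z) :
    f z (c + h z) = f z (c' + h z) := by
  unfold idxOf at e
  rw [dif_pos hf, dif_pos hf] at e
  exact (exists_idx f hf h).choose_spec c c' e z

/-! ### The results depend only on the positions which are seen -/

theorem Machine.result_eq (M : Machine n d) (x : Input n d) (u : ℕ) :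
    M.result x u = (M.routine u).value x fun t : Fin u => M.result x t := by
  rw [Machine.result]

theorem Machine.sees_iff (M : Machine n d) (p : Pos n) (u : ℕ) (V : View n d) :
    M.Sees p u V ↔ (∃ l, V.pos l = p) ∨ (∃ y a a', V.vec p y a ≠ V.vec p y a') ∨
      ∃ t : Fin u, V.weight t ≠ 0 ∧ M.RoutineSees p t := by
  rw [Machine.Sees]
  rfl

theorem Machine.look_congr (M : Machine n d) {x y : Input n d} (u : ℕ) (V : View n d)
    (h : ∀ p, M.Sees p u V → x p = y p) : V.look x = V.look y := by
  funext l
  exact h _ ((M.sees_iff _ u V).2 (Or.inl ⟨l, rfl⟩))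

theorem Machine.real_congr (M : Machine n d) {x y : Input n d} (u : ℕ) (V : View n d)
    (h : ∀ p, M.Sees p u V → x p = y p)
    (ih : ∀ t < u, (∀ p, M.RoutineSees p t → x p = y p) → M.result x t = M.result y t) :
    V.real x (fun t : Fin u => M.result x t) = V.real y (fun t : Fin u => M.result y t) := by
  unfold View.real
  rw [M.look_congr u V h]
  congr 1
  · apply Finset.sum_congr rfl
    intro p _
    by_contra hcon
    apply hcon
    rw [h p ((M.sees_iff p u V).2 (Or.inr (Or.inl ⟨_, _, _, hcon⟩)))]
  · apply Finset.sum_congr rfl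
    intro t _
    by_cases ht : V.weight t = 0
    · rw [ht, zero_mul, zero_mul]
    · show V.weight t * M.result x t = V.weight t * M.result y t
      rw [ih t t.2 fun p hp => h p ((M.sees_iff p u V).2 (Or.inr (Or.inr ⟨t, ht, hp⟩)))]

theorem Routine.value_congr (P : Routine n d) {x y : Input n d} {u : ℕ} {r r' : Fin u → ℝ}
    (h : ∀ e, P.Reaches x r e ↔ P.Reaches y r' e)
    (he : ∀ e, P.act e ((P.endView e).look x) ((P.endView e).real x r) =
      P.act e ((P.endView e).look y) ((P.endView e).real y r')) : P.value x r = P.value y r' := by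
  unfold Routine.value
  apply Finset.sum_congr rfl
  intro e _
  rw [he]
  by_cases hs : P.Reaches x r e
  · rw [if_pos hs, if_pos ((h e).1 hs)]
  · rw [if_neg hs, if_neg fun h3 => hs ((h e).2 h3)]

theorem Machine.result_congr (M : Machine n d) {x y : Input n d} (u : ℕ)
    (h : ∀ p, M.RoutineSees p u → x p = y p) : M.result x u = M.result y u := by
  induction u using Nat.strong_induction_on with
  | _ u ih =>
    rw [M.result_eq, M.result_eq]
    have hans : (M.routine u).answer x (fun t : Fin u => M.result x t) =
        (M.routine u).answer y (fun t : Fin u => M.result y t) := by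
      funext v
      unfold Routine.answer
      rw [M.real_congr u ((M.routine u).view v) (fun p hp => h p (Or.inl ⟨v, hp⟩)) ih,
        M.look_congr u ((M.routine u).view v) (fun p hp => h p (Or.inl ⟨v, hp⟩))]
    apply Routine.value_congr
    · intro e
      unfold Routine.Reaches
      rw [Routine.step_eq, Routine.step_eq, hans]
    · intro e
      rw [M.real_congr u ((M.routine u).endView e) (fun p hp => h p (Or.inr ⟨e, hp⟩)) ih,
        M.look_congr u ((M.routine u).endView e) (fun p hp => h p (Or.inr ⟨e, hp⟩))]

/-! ### The signature of a machine at one position -/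

/-- The inner nodes of the routines `0, ..., last`. -/
abbrev Machine.Node (M : Machine n d) : Type := (u : Fin (M.last + 1)) × Fin (M.routine u).size

/-- The inner nodes whose views see the position `p`. -/
abbrev Machine.NodesAt (M : Machine n d) (p : Pos n) : Type :=
  {v : M.Node // M.Sees p v.1 ((M.routine v.1).view v.2)}

/-- The routines which see the position `p`. -/
abbrev Machine.RoutinesAt (M : Machine n d) (p : Pos n) : Type :=
  {u : Fin (M.last + 1) // M.RoutineSees p u}

/-- The ends of the routines which see the position `p`. -/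
abbrev Machine.EndsAt (M : Machine n d) (p : Pos n) : Type :=
  (u : M.RoutinesAt p) × Fin (M.routine u.1).ends

/-- The relevant views at the position `p`. -/
abbrev Machine.ViewsAt (M : Machine n d) (p : Pos n) : Type := M.NodesAt p ⊕ M.EndsAt p

/-- The view. -/
def Machine.viewOf (M : Machine n d) (p : Pos n) : M.ViewsAt p → View n d
  | Sum.inl v => (M.routine v.1.1).view v.1.2
  | Sum.inr e => (M.routine e.1.1).endView e.2

/-- The routine of a view. -/
def Machine.routOf (M : Machine n d) (p : Pos n) : M.ViewsAt p → Fin (M.last + 1)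
  | Sum.inl v => v.1.1
  | Sum.inr e => e.1.1

/-- Pairs of a relevant view which looks at `p` and a position which it sees. -/
abbrev Machine.PairsAt (M : Machine n d) (p : Pos n) : Type :=
  (a : M.ViewsAt p) × {q : Pos n // (∃ l, (M.viewOf p a).pos l = p) ∧
    M.Sees q (M.routOf p a) (M.viewOf p a)}

section sig

variable (M : Machine n d) (p : Pos n) {B Z : Type} (X : B → Z → Input n d)

open Classical in
/-- The part of the real number of a view which depends on `z`. -/
noncomputable def hpart (b : B) (u : ℕ) (V : View n d) (z : Z) : ℝ :=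
  (if ∃ l, V.pos l = p then
    ∑ q ∈ Finset.univ.erase p, V.vec q (V.look (X b z)) (X b z q) else 0) +
  V.vec p (V.look (X b z)) (X b z p) +
    ∑ t : Fin u, if M.RoutineSees p t then V.weight t * M.result (X b z) t else 0

open Classical in
/-- The part of the real number of a view which does not depend on `z`. -/
noncomputable def offset (z0 : Z) (b : B) (u : ℕ) (V : View n d) : ℝ :=
  (if ∃ l, V.pos l = p then 0 else
    ∑ q ∈ Finset.univ.erase p, V.vec q (V.look (X b z0)) (X b z0 q)) +
    ∑ t : Fin u, if M.RoutineSees p t then 0 else V.weight t * M.result (X b z0) t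

open Classical in
/-- The inner nodes of the routine `u` which see `p` are labelled by themselves. -/
noncomputable def lab (u : Fin (M.last + 1)) (v : Fin (M.routine u).size) :
    Option (M.NodesAt p) :=
  if h : M.Sees p u ((M.routine u).view v) then some ⟨⟨u, v⟩, h⟩ else none

/-- The ends are labelled by themselves. -/
def labE (u : M.RoutinesAt p) (e : Fin (M.routine u.1).ends) : M.EndsAt p := ⟨u, e⟩

/-- The answers of the inner nodes of the routine `u`. -/
noncomputable def ans (b : B) (z : Z) (u : Fin (M.last + 1)) (v : Fin (M.routine u).size) :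
    Fin ((M.routine u).outcomes v) :=
  (M.routine u).answer (X b z) (fun t : Fin u => M.result (X b z) t) v

theorem lab_inj (u : Fin (M.last + 1)) (v v' : Fin (M.routine u).size) (a : M.NodesAt p)
    (h : lab M p u v = some a) (h' : lab M p u v' = some a) : v = v' := by
  unfold lab at h h'
  split_ifs at h h' with h1 h2
  rw [← h'] at h
  simpa using h

theorem labE_inj (u : M.RoutinesAt p) : Function.Injective (labE M p u) := by
  intro e e' h
  unfold labE at h
  simpa using h

variable {M p X}

theorem result_const (h1 : ∀ b z z' q, q ≠ p → X b z q = X b z' q) (b : B) (z z' : Z) (u : ℕ)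
    (hu : ¬ M.RoutineSees p u) : M.result (X b z) u = M.result (X b z') u := by
  apply M.result_congr
  intro q hq
  apply h1
  rintro rfl
  exact hu hq

theorem look_const (h1 : ∀ b z z' q, q ≠ p → X b z q = X b z' q) (b : B) (z z' : Z)
    (V : View n d) (hV : ¬ ∃ l, V.pos l = p) : V.look (X b z) = V.look (X b z') := by
  funext l
  exact h1 b z z' _ fun h => hV ⟨l, h⟩

theorem real_split (h1 : ∀ b z z' q, q ≠ p → X b z q = X b z' q) (z0 : Z) (b : B) (z : Z)
    (u : ℕ) (V : View n d) :
    V.real (X b z) (fun t : Fin u => M.result (X b z) t) =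
      offset M p X z0 b u V + hpart M p X b u V z := by
  classical
  unfold View.real offset hpart
  have e1 : ∑ q, V.vec q (V.look (X b z)) (X b z q) =
      ∑ q ∈ Finset.univ.erase p, V.vec q (V.look (X b z)) (X b z q) +
        V.vec p (V.look (X b z)) (X b z p) := by
    rw [Finset.sum_erase_add _ _ (Finset.mem_univ p)]
  have e2 : ∑ t : Fin u, V.weight t * M.result (X b z) t =
      (∑ t : Fin u, if M.RoutineSees p t then 0 else V.weight t * M.result (X b z0) t) +
      ∑ t : Fin u, if M.RoutineSees p t then V.weight t * M.result (X b z) t else 0 := by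
    rw [← Finset.sum_add_distrib]
    apply Finset.sum_congr rfl
    intro t _
    by_cases ht : M.RoutineSees p t
    · simp [ht]
    · simp only [if_neg ht, add_zero]
      rw [result_const h1 b z z0 t ht]
  rw [e1, e2]
  by_cases hl : ∃ l, V.pos l = p
  · rw [if_pos hl, if_pos hl]
    ring
  · rw [if_neg hl, if_neg hl]
    have e3 : ∑ q ∈ Finset.univ.erase p, V.vec q (V.look (X b z)) (X b z q) =
        ∑ q ∈ Finset.univ.erase p, V.vec q (V.look (X b z0)) (X b z0 q) := by
      apply Finset.sum_congr rfl
      intro q hq
      rw [h1 b z z0 q (Finset.ne_of_mem_erase hq), look_const h1 b z z0 V hl]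
    rw [e3]
    ring

theorem hpart_eq {b b' : B} {u : ℕ} {V : View n d} (h2 : ∀ z, X b z p = X b' z p)
    (hlook : ∀ z, V.look (X b z) = V.look (X b' z))
    (hpair : (∃ l, V.pos l = p) → ∀ q, M.Sees q u V → ∀ z, X b z q = X b' z q)
    (ih : ∀ t < u, M.RoutineSees p t → ∀ z, M.result (X b z) t = M.result (X b' z) t) :
    hpart M p X b u V = hpart M p X b' u V := by
  classical
  funext z
  unfold hpart
  rw [h2 z, hlook z]
  congr 1
  · congr 1
    by_cases hl : ∃ l, V.pos l = p
    · rw [if_pos hl, if_pos hl]
      apply Finset.sum_congr rfl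
      intro q _
      by_contra hcon
      apply hcon
      rw [hpair hl q ((M.sees_iff q u V).2 (Or.inr (Or.inl ⟨_, _, _, hcon⟩))) z]
    · rw [if_neg hl, if_neg hl]
  · apply Finset.sum_congr rfl
    intro t _
    by_cases ht : M.RoutineSees p t
    · rw [if_pos ht, if_pos ht, ih t t.2 ht z]
    · rw [if_neg ht, if_neg ht]

/-- Equal codes give equal values of a function of the view. -/
theorem value_of_code [Fintype Z] {α : Type} {J : ℕ} {z0 : Z} {b b' : B} {u : ℕ} {V : View n d}
    (F : (Fin V.looks → Vec d) → ℝ → α) (hF : ∀ y, IsStep J (F y))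
    (h1 : ∀ b z z' q, q ≠ p → X b z q = X b z' q)
    (hlook : ∀ z, V.look (X b z) = V.look (X b' z))
    (hh : hpart M p X b u V = hpart M p X b' u V)
    (hidx : idxOf J (fun z => F (V.look (X b z))) (hpart M p X b u V) (offset M p X z0 b u V) =
      idxOf J (fun z => F (V.look (X b' z))) (hpart M p X b' u V) (offset M p X z0 b' u V))
    (z : Z) : F (V.look (X b z)) (V.real (X b z) (fun t : Fin u => M.result (X b z) t)) =
      F (V.look (X b' z)) (V.real (X b' z) (fun t : Fin u => M.result (X b' z) t)) := by
  rw [real_split h1 z0, real_split h1 z0]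
  have hfam : (fun z => F (V.look (X b z))) = fun z => F (V.look (X b' z)) := by
    funext z'
    rw [hlook z']
  rw [hh, hfam] at hidx
  rw [hh, hlook z]
  exact idxOf_spec (f := fun z => F (V.look (X b' z))) (fun z => hF _) _ hidx z

theorem ans_const (h1 : ∀ b z z' q, q ≠ p → X b z q = X b z' q) (b : B) (z z' : Z)
    (u : Fin (M.last + 1)) (v : Fin (M.routine u).size) (hv : lab M p u v = none) :
    ans M X b z u v = ans M X b z' u v := by
  have hv' : ¬ M.Sees p u ((M.routine u).view v) := by
    intro h
    unfold lab at hv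
    rw [dif_pos h] at hv
    simp at hv
  have h3 : ∀ q, M.Sees q u ((M.routine u).view v) → X b z q = X b z' q := by
    intro q hq
    apply h1
    rintro rfl
    exact hv' hq
  unfold ans Routine.answer
  rw [M.look_congr u _ h3, M.real_congr u _ h3 fun t _ ht => M.result_congr t ht]

variable (M p X)

/-- The type of the signatures. -/
abbrev Sig (w J N : ℕ) : Type :=
  (((v : M.NodesAt p) × Fin ((M.routine v.1.1).outcomes v.1.2)) → Option (M.ViewsAt p)) ×
  (M.RoutinesAt p → Option (M.ViewsAt p)) ×
  (((a : M.ViewsAt p) × Fin (M.viewOf p a).looks) → Fin w → Bool) ×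
  (M.ViewsAt p → Fin (2 * (J * N) + 1)) ×
  (M.PairsAt p → Fin w → Bool) × Bool

/-- The routine of an inner node which sees `p`. -/
def toRoutine (v : M.NodesAt p) : M.RoutinesAt p := ⟨v.1.1, Or.inl ⟨v.1.2, v.2⟩⟩

/-- The code of the offset of a view. -/
noncomputable def code [Fintype Z] (J : ℕ) (z0 : Z) (b : B) :
    M.ViewsAt p → Fin (2 * (J * Fintype.card Z) + 1)
  | Sum.inl v => idxOf J
      (fun z => (M.routine v.1.1).query v.1.2 (((M.routine v.1.1).view v.1.2).look (X b z)))
      (hpart M p X b v.1.1 ((M.routine v.1.1).view v.1.2))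
      (offset M p X z0 b v.1.1 ((M.routine v.1.1).view v.1.2))
  | Sum.inr e => idxOf J
      (fun z => (M.routine e.1.1).act e.2 (((M.routine e.1.1).endView e.2).look (X b z)))
      (hpart M p X b e.1.1 ((M.routine e.1.1).endView e.2))
      (offset M p X z0 b e.1.1 ((M.routine e.1.1).endView e.2))

/-- Where the computation of the routine `u` on input `X b z0` goes from `w`. -/
noncomputable def goes (z0 : Z) (b : B) (u : M.RoutinesAt p)
    (w : Fin (M.routine u.1).size ⊕ Fin (M.routine u.1).ends) : Option (M.ViewsAt p) :=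
  skip (M.routine u.1).next (lab M p u.1) (labE M p u) (ans M X b z0 u.1) w

/-- The signature of `b` at the position `p`; the bits which determine the vectors are given. -/
noncomputable def sig [Fintype Z] (w J : ℕ) (z0 : Z) (bits : B → Pos n → Fin w → Bool) (b : B) :
    Sig M p w J (Fintype.card Z) :=
  (fun a => goes M p X z0 b (toRoutine M p a.1) ((M.routine a.1.1.1).next a.1.1.2 a.2),
    fun u => goes M p X z0 b u (M.routine u.1).start,
    fun a => bits b ((M.viewOf p a.1).pos a.2),
    code M p X J z0 b,
    fun a => bits b a.2.1,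
    decide (0 < M.result (X b z0) M.last))

variable {M p X}

theorem result_of_sig [Fintype Z] {w J : ℕ} {z0 : Z} {bits : B → Pos n → Fin w → Bool}
    (hM : M.Steps J) (h1 : ∀ b z z' q, q ≠ p → X b z q = X b z' q)
    (h2 : ∀ b b' z, X b z p = X b' z p)
    (h3 : ∀ b b' q, bits b q = bits b' q → ∀ z, X b z q = X b' z q)
    {b b' : B} (hs : sig M p X w J z0 bits b = sig M p X w J z0 bits b') :
    ∀ m, ∀ u : Fin (M.last + 1), u.1 = m → M.RoutineSees p u →
      ∀ z, M.result (X b z) u = M.result (X b' z) u := by
  intro m
  induction m using Nat.strong_induction_on with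
  | _ m ih =>
    intro u hu hsee z
    obtain ⟨s1, s2, s3, s4, s5, -⟩ : _ ∧ _ ∧ _ ∧ _ ∧ _ ∧ _ := by
      simpa only [sig, Prod.mk.injEq] using hs
    have ih' : ∀ t < u.1, M.RoutineSees p t →
        ∀ z, M.result (X b z) t = M.result (X b' z) t := by
      intro t ht hst z'
      exact ih t (by rw [← hu]; exact ht) ⟨t, ht.trans u.2⟩ rfl hst z'
    have hlast : u.1 ≤ M.last := by
      have := u.2
      omega
    have hview : ∀ a : M.ViewsAt p, M.routOf p a = u →
        (∀ z, (M.viewOf p a).look (X b z) = (M.viewOf p a).look (X b' z)) ∧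
        hpart M p X b u (M.viewOf p a) = hpart M p X b' u (M.viewOf p a) := by
      intro a ha
      have hlook : ∀ z, (M.viewOf p a).look (X b z) = (M.viewOf p a).look (X b' z) := by
        intro z'
        funext l
        exact h3 b b' _ (congrFun s3 ⟨a, l⟩) z'
      refine ⟨hlook, hpart_eq (h2 b b') hlook ?_ ih'⟩
      intro hl q hq z'
      rw [← ha] at hq
      exact h3 b b' q (congrFun s5 ⟨a, ⟨q, hl, hq⟩⟩) z'
    -- the answers of the nodes which see `p`
    have hans : ∀ v, (lab M p u v).isSome → ans M X b z u v = ans M X b' z u v := by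
      intro v hv
      have hv' : M.Sees p u ((M.routine u).view v) := by
        by_contra hcon
        unfold lab at hv
        rw [dif_neg hcon] at hv
        simp at hv
      obtain ⟨g1, g2⟩ := hview (Sum.inl ⟨⟨u, v⟩, hv'⟩) rfl
      exact value_of_code ((M.routine u).query v) ((hM u hlast).1 v) h1 g1 g2
        (congrFun s4 (Sum.inl ⟨⟨u, v⟩, hv'⟩)) z
    have hskip : ∀ b w, skip (M.routine u).next (lab M p u) (labE M p ⟨u, hsee⟩)
          (ans M X b z u) w =
        skip (M.routine u).next (lab M p u) (labE M p ⟨u, hsee⟩) (ans M X b z0 u) w := by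
      intro b w
      rw [skip_congr _ _ _ fun v hv => ans_const h1 b z z0 u v hv]
    have hreach : ∀ (b b' : B), (∀ v, (lab M p u v).isSome → ans M X b z u v = ans M X b' z u v) →
        (∀ (a : (v : M.NodesAt p) × Fin ((M.routine v.1.1).outcomes v.1.2)),
          goes M p X z0 b (toRoutine M p a.1) ((M.routine a.1.1.1).next a.1.1.2 a.2) =
          goes M p X z0 b' (toRoutine M p a.1) ((M.routine a.1.1.1).next a.1.1.2 a.2)) →
        goes M p X z0 b ⟨u, hsee⟩ (M.routine u).start =
          goes M p X z0 b' ⟨u, hsee⟩ (M.routine u).start →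
        ∀ e, (M.routine u).Reaches (X b z) (fun t : Fin u => M.result (X b z) t) e →
        (M.routine u).Reaches (X b' z) (fun t : Fin u => M.result (X b' z) t) e := by
      intro b b' hab hnx hst e hsuc
      obtain ⟨t, ht⟩ := hsuc
      rw [(M.routine u).step_eq] at ht
      unfold Routine.Reaches
      rw [(M.routine u).step_eq]
      refine reach_aux (M.routine u).next (lab M p u) (labE M p ⟨u, hsee⟩) (lab_inj M p u)
        (labE_inj M p ⟨u, hsee⟩) (ans M X b z u) (ans M X b' z u) hab ?_ e t _ _ ?_ ht
      · intro v hv r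
        have hv' : M.Sees p u ((M.routine u).view v) := by
          by_contra hcon
          unfold lab at hv
          rw [dif_neg hcon] at hv
          simp at hv
        rw [hskip, hskip]
        exact hnx ⟨⟨⟨u, v⟩, hv'⟩, r⟩
      · rw [hskip, hskip]
        exact hst
    rw [M.result_eq, M.result_eq]
    apply Routine.value_congr
    · intro e
      constructor
      · exact hreach b b' hans (fun a => congrFun s1 a) (congrFun s2 ⟨u, hsee⟩) e
      · exact hreach b' b (fun v hv => (hans v hv).symm) (fun a => (congrFun s1 a).symm)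
          (congrFun s2 ⟨u, hsee⟩).symm e
    · intro e
      obtain ⟨g1, g2⟩ := hview (Sum.inr ⟨⟨u, hsee⟩, e⟩) rfl
      exact value_of_code ((M.routine u).act e) ((hM u hlast).2 e) h1 g1 g2
        (congrFun s4 (Sum.inr ⟨⟨u, hsee⟩, e⟩)) z

/-- Strings with equal signatures have equal answers. -/
theorem accepts_of_sig [Fintype Z] {w J : ℕ} {z0 : Z} {bits : B → Pos n → Fin w → Bool}
    (hM : M.Steps J) (h1 : ∀ b z z' q, q ≠ p → X b z q = X b z' q)
    (h2 : ∀ b b' z, X b z p = X b' z p)
    (h3 : ∀ b b' q, bits b q = bits b' q → ∀ z, X b z q = X b' z q)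
    {b b' : B} (hs : sig M p X w J z0 bits b = sig M p X w J z0 bits b') (z : Z) :
    0 < M.result (X b z) M.last ↔ 0 < M.result (X b' z) M.last := by
  by_cases hl : M.RoutineSees p M.last
  · have := result_of_sig hM h1 h2 h3 hs M.last ⟨M.last, by omega⟩ rfl hl z
    rw [this]
  · rw [result_const h1 b z z0 _ hl, result_const h1 b' z z0 _ hl]
    have : decide (0 < M.result (X b z0) M.last) = decide (0 < M.result (X b' z0) M.last) :=
      congrArg (fun s => s.2.2.2.2.2) hs
    simpa using this

end sig

noncomputable def nOut (M : Machine n d) (p : Pos n) : ℕ :=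
  Nat.card ((v : M.NodesAt p) × Fin ((M.routine v.1.1).outcomes v.1.2))

/-- The number of vectors which are looked at by the relevant views at `p`. -/
noncomputable def nLook (M : Machine n d) (p : Pos n) : ℕ :=
  Nat.card ((a : M.ViewsAt p) × Fin (M.viewOf p a).looks)

theorem card_sig (w J N : ℕ) (M : Machine n d) (p : Pos n) : Nat.card (Sig M p w J N) =
    (Nat.card (M.ViewsAt p) + 1) ^ nOut M p *
    ((Nat.card (M.ViewsAt p) + 1) ^ Nat.card (M.RoutinesAt p) *
    ((2 ^ w) ^ nLook M p *
    ((2 * (J * N) + 1) ^ Nat.card (M.ViewsAt p) *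
    ((2 ^ w) ^ Nat.card (M.PairsAt p) * 2)))) := by
  classical
  unfold Sig nOut nLook
  rw [Nat.card_prod, Nat.card_prod, Nat.card_prod, Nat.card_prod, Nat.card_prod,
    Nat.card_fun, Nat.card_fun, Nat.card_fun, Nat.card_fun, Nat.card_fun, Finite.card_option,
    Nat.card_fun]
  simp only [Nat.card_eq_fintype_card, Fintype.card_bool, Fintype.card_fin, Fintype.card_fun]

theorem finite_sig (w J N : ℕ) (M : Machine n d) (p : Pos n) : Finite (Sig M p w J N) := by
  have i1 : Finite (((v : M.NodesAt p) × Fin ((M.routine v.1.1).outcomes v.1.2)) →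
    Option (M.ViewsAt p)) := inferInstance
  have i2 : Finite (M.RoutinesAt p → Option (M.ViewsAt p)) := inferInstance
  have i3 : Finite (((a : M.ViewsAt p) × Fin (M.viewOf p a).looks) → Fin w → Bool) :=
    inferInstance
  have i4 : Finite (M.ViewsAt p → Fin (2 * (J * N) + 1)) := inferInstance
  have i5 : Finite (M.PairsAt p → Fin w → Bool) := inferInstance
  unfold Sig
  exact Finite.instProd

/-- The cost which is charged to the position `p`, up to a factor. -/
noncomputable def share (M : Machine n d) (K : ℕ) (p : Pos n) : ℕ :=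
  nOut M p + nLook M p + K * Nat.card (M.ViewsAt p) + Nat.card (M.PairsAt p)

theorem sum_subtype_le {I A : Type} [Fintype I] [Fintype A] (P : I → A → Prop)
    [∀ i, Fintype {a // P i a}] (f : I → A → ℕ) (g : A → ℕ) (h : ∀ a, ∑ i, f i a ≤ g a) :
    ∑ i, ∑ a : {a // P i a}, f i a.1 ≤ ∑ a, g a := by
  classical
  calc ∑ i, ∑ a : {a // P i a}, f i a.1 ≤ ∑ i, ∑ a, f i a := by
        apply Finset.sum_le_sum
        intro i _
        have h1 : ∑ a : {a // P i a}, f i a.1 = ∑ a ∈ Finset.univ.filter (P i), f i a := by
          rw [← Finset.sum_subtype (Finset.univ.filter (P i)) (by simp) (f i)]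
        rw [h1]
        exact Finset.sum_le_sum_of_subset (Finset.subset_univ _)
    _ = ∑ a, ∑ i, f i a := Finset.sum_comm
    _ ≤ ∑ a, g a := Finset.sum_le_sum fun a _ => h a

theorem sum_ite_le (P : Pos n → Prop) [∀ i : Fin n, Decidable (P (true, i))] (c s : ℕ)
    (hs : Nat.card {p // P p} ≤ s) : ∑ i : Fin n, (if P (true, i) then c else 0) ≤ c * s := by
  rw [← Finset.sum_filter, Finset.sum_const, smul_eq_mul, mul_comm]
  apply Nat.mul_le_mul_left
  refine le_trans ?_ hs
  rw [← Fintype.card_subtype, ← Nat.card_eq_fintype_card]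
  apply Nat.card_le_card_of_injective
    (fun a : {i : Fin n // P (true, i)} => (⟨(true, a.1), a.2⟩ : {p // P p}))
  intro a a' h
  ext1
  have := congrArg (fun q => q.1.2) h
  exact this

theorem card_looks (V : View n d) : Nat.card {p // ∃ l, V.pos l = p} ≤ V.looks := by
  have h1 : Nat.card (Fin V.looks) = V.looks := by simp
  conv_rhs => rw [← h1]
  apply Nat.card_le_card_of_surjective
    (fun l : Fin V.looks => (⟨V.pos l, l, rfl⟩ : {p // ∃ l, V.pos l = p}))
  rintro ⟨p, l, rfl⟩
  exact ⟨l, rfl⟩

open Classical in
theorem share_eq (M : Machine n d) (K : ℕ) (p : Pos n) : share M K p =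
    ∑ v : M.NodesAt p, ((M.routine v.1.1).outcomes v.1.2 + ((M.routine v.1.1).view v.1.2).looks +
      K + Nat.card {q : Pos n // (∃ l, ((M.routine v.1.1).view v.1.2).pos l = p) ∧
        M.Sees q v.1.1 ((M.routine v.1.1).view v.1.2)}) +
    ∑ u : M.RoutinesAt p, ∑ e, (((M.routine u.1).endView e).looks + K +
      Nat.card {q : Pos n // (∃ l, ((M.routine u.1).endView e).pos l = p) ∧
        M.Sees q u.1 ((M.routine u.1).endView e)}) := by
  have h1 : nOut M p = ∑ v : M.NodesAt p, (M.routine v.1.1).outcomes v.1.2 := by
    unfold nOut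
    rw [Nat.card_sigma]
    simp
  have h2 : nLook M p = ∑ v : M.NodesAt p, ((M.routine v.1.1).view v.1.2).looks +
      ∑ e : M.EndsAt p, ((M.routine e.1.1).endView e.2).looks := by
    unfold nLook
    rw [Nat.card_sigma, Fintype.sum_sum_type]
    simp [Machine.viewOf]
  have h3 : Nat.card (M.ViewsAt p) = ∑ _v : M.NodesAt p, 1 + ∑ _e : M.EndsAt p, 1 := by
    rw [Nat.card_sum, Finset.sum_const, Finset.sum_const, Finset.card_univ, Finset.card_univ,
      Nat.card_eq_fintype_card, Nat.card_eq_fintype_card]
    simp
  have h4 : Nat.card (M.PairsAt p) =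
      ∑ v : M.NodesAt p, Nat.card {q : Pos n // (∃ l, ((M.routine v.1.1).view v.1.2).pos l = p) ∧
        M.Sees q v.1.1 ((M.routine v.1.1).view v.1.2)} +
      ∑ e : M.EndsAt p, Nat.card {q : Pos n //
        (∃ l, ((M.routine e.1.1).endView e.2).pos l = p) ∧
        M.Sees q e.1.1 ((M.routine e.1.1).endView e.2)} := by
    rw [Nat.card_sigma, Fintype.sum_sum_type]
    rfl
  have h5 : ∀ f : M.EndsAt p → ℕ, ∑ e, f e = ∑ u : M.RoutinesAt p, ∑ e, f ⟨u, e⟩ :=
    fun f => Fintype.sum_sigma f
  unfold share
  rw [h1, h2, h3, h4, h5, h5, h5]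
  simp only [Finset.sum_add_distrib, mul_add, Finset.mul_sum, mul_one]
  ring

open Classical in
theorem sum_share (M : Machine n d) (K : ℕ) :
    ∑ i : Fin n, share M K (true, i) ≤ 2 * M.cost K := by
  let c : M.Node → ℕ := fun v => (M.routine v.1).outcomes v.2 + ((M.routine v.1).view v.2).looks + K
  let s : M.Node → ℕ := fun v => Nat.card {q // M.Sees q v.1 ((M.routine v.1).view v.2)}
  let F : Fin n → M.Node → ℕ := fun i v =>
    (if M.Sees (true, i) v.1 ((M.routine v.1).view v.2) then c v else 0) +
    (if ∃ l, ((M.routine v.1).view v.2).pos l = (true, i) then s v else 0)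
  let s' : Fin (M.last + 1) → ℕ := fun u => Nat.card {q // M.RoutineSees q u}
  let G : Fin n → Fin (M.last + 1) → ℕ := fun i u =>
    ∑ e, ((if M.RoutineSees (true, i) u then ((M.routine u).endView e).looks + K else 0) +
      (if ∃ l, ((M.routine u).endView e).pos l = (true, i) then s' u else 0))
  have hF : ∀ v, ∑ i, F i v ≤ 2 * (c v * s v) := by
    intro v
    simp only [F]
    rw [Finset.sum_add_distrib]
    have h1 := sum_ite_le (fun p => M.Sees p v.1 ((M.routine v.1).view v.2)) (c v) (s v) le_rfl
    have h2 := sum_ite_le (fun p => ∃ l, ((M.routine v.1).view v.2).pos l = p) (s v) _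
      (card_looks _)
    have h3 : s v * ((M.routine v.1).view v.2).looks ≤ c v * s v := by
      rw [mul_comm]
      apply Nat.mul_le_mul_right
      simp only [c]
      omega
    omega
  have hG : ∀ u, ∑ i, G i u ≤ 2 * ∑ e, (((M.routine u).endView e).looks + K) * s' u := by
    intro u
    simp only [G]
    rw [Finset.sum_comm, Finset.mul_sum]
    apply Finset.sum_le_sum
    intro e _
    rw [Finset.sum_add_distrib]
    have h1 := sum_ite_le (fun p : Pos n => M.RoutineSees p u) (((M.routine u).endView e).looks + K)
      (s' u) le_rfl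
    have h2 := sum_ite_le (fun p => ∃ l, ((M.routine u).endView e).pos l = p) (s' u) _
      (card_looks _)
    have h3 : s' u * ((M.routine u).endView e).looks ≤
        (((M.routine u).endView e).looks + K) * s' u := by
      rw [mul_comm]
      apply Nat.mul_le_mul_right
      omega
    omega
  have hsh : ∀ i : Fin n, share M K (true, i) ≤
      ∑ v : M.NodesAt (true, i), F i v.1 + ∑ u : M.RoutinesAt (true, i), G i u.1 := by
    intro i
    rw [share_eq]
    apply Nat.add_le_add
    · apply Finset.sum_le_sum
      intro v _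
      simp only [F]
      rw [if_pos v.2]
      apply Nat.add_le_add_left
      by_cases hl : ∃ l, ((M.routine v.1.1).view v.1.2).pos l = (true, i)
      · rw [if_pos hl]
        apply Nat.card_le_card_of_injective
          (fun a : {q : Pos n // (∃ l, ((M.routine v.1.1).view v.1.2).pos l = (true, i)) ∧
            M.Sees q v.1.1 ((M.routine v.1.1).view v.1.2)} =>
            (⟨a.1, a.2.2⟩ : {q // M.Sees q v.1.1 ((M.routine v.1.1).view v.1.2)}))
        intro a a' h
        ext1
        exact congrArg (fun q => q.1) h
      · rw [if_neg hl, Nat.le_zero, Finite.card_eq_zero_iff]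
        exact ⟨fun a => hl a.2.1⟩
    · apply Finset.sum_le_sum
      intro u _
      simp only [G]
      apply Finset.sum_le_sum
      intro e _
      rw [if_pos u.2]
      apply Nat.add_le_add_left
      by_cases hl : ∃ l, ((M.routine u.1).endView e).pos l = (true, i)
      · rw [if_pos hl]
        apply Nat.card_le_card_of_injective
          (fun a : {q : Pos n // (∃ l, ((M.routine u.1).endView e).pos l = (true, i)) ∧
            M.Sees q u.1 ((M.routine u.1).endView e)} =>
            (⟨a.1, Or.inr ⟨e, a.2.2⟩⟩ : {q // M.RoutineSees q u.1}))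
        intro a a' h
        ext1
        exact congrArg (fun q => q.1) h
      · rw [if_neg hl, Nat.le_zero, Finite.card_eq_zero_iff]
        exact ⟨fun a => hl a.2.1⟩
  have hA : ∑ i : Fin n, ∑ v : M.NodesAt (true, i), F i v.1 ≤ ∑ v, 2 * (c v * s v) :=
    sum_subtype_le (fun i (v : M.Node) => M.Sees (true, i) v.1 ((M.routine v.1).view v.2)) F _ hF
  have hB : ∑ i : Fin n, ∑ u : M.RoutinesAt (true, i), G i u.1 ≤ ∑ u : Fin (M.last + 1),
      2 * ∑ e, (((M.routine u).endView e).looks + K) * s' u :=
    sum_subtype_le (fun i (u : Fin (M.last + 1)) => M.RoutineSees (true, i) u) G _ hG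
  have hC : ∑ v, 2 * (c v * s v) + ∑ u : Fin (M.last + 1),
      2 * ∑ e, (((M.routine u).endView e).looks + K) * s' u = 2 * M.cost K := by
    unfold Machine.cost
    rw [Fintype.sum_sigma, ← Finset.sum_add_distrib, Finset.mul_sum]
    apply Finset.sum_congr rfl
    intro u _
    rw [← Finset.mul_sum, mul_add]
    congr 2
    apply Finset.sum_congr rfl
    intro v _
    simp only [c, s]
    congr 1
    ring
  have hD : ∑ i : Fin n, share M K (true, i) ≤ ∑ i : Fin n,
      (∑ v : M.NodesAt (true, i), F i v.1 + ∑ u : M.RoutinesAt (true, i), G i u.1) :=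
    Finset.sum_le_sum fun i _ => hsh i
  rw [Finset.sum_add_distrib] at hD
  rw [← hC]
  exact hD.trans (Nat.add_le_add hA hB)

open Classical in
/-- The average-case lower bound for deterministic machines, in combinatorial form. -/
theorem card_routinesAt_le (M : Machine n d) (p : Pos n) :
    Nat.card (M.RoutinesAt p) ≤ Nat.card (M.ViewsAt p) := by
  classical
  have h : ∀ u : M.RoutinesAt p, ∃ a : M.ViewsAt p, M.routOf p a = u.1 := by
    intro u
    by_cases hv : ∃ v, M.Sees p u.1 ((M.routine u.1).view v)
    · obtain ⟨v, hv⟩ := hv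
      exact ⟨Sum.inl ⟨⟨u.1, v⟩, hv⟩, rfl⟩
    · obtain ⟨e, _⟩ := u.2.resolve_left hv
      exact ⟨Sum.inr ⟨u, e⟩, rfl⟩
  choose f hf using h
  apply Nat.card_le_card_of_injective f
  intro u u' huu
  ext1
  rw [← hf u, ← hf u', huu]

end Pool.Agent.H2.AV
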