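import Pool.Agent.H2.AV.Acc
import Pool.Agent.H2.AV.Vc

/-!
# [H2 AV SND] Soundness and completeness of the machine

PROOFS, by `acc_iff`. `up_sound`: let `i`, `j` be the unique low vectors of group `a` of `A` and of group `b` of `B`. If both have the
bit `k`, then the positions `(false,i)` and `(true,j)` are counted in `nBit`, so it is at least 2. `up_complete`: `a = i/h`, `b = j/h`
(`< q` as `i < n <= q h`, `Nat.div_lt_of_lt_mul`); only `i` is counted in `nLow .. a`, only `j` in `nLow .. b`; in `nBit` at most
`(false,i)` (if `x_i k`) and `(true,j)` (if `x_j k`) are counted, and not both as `oi = 1` (`oi_eq`).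
-/

set_option autoImplicit false

namespace Pool.Agent.H2.AV

variable {n d : ℕ}

theorem up_sound (low : Vec d → Prop) (h q : ℕ) (x : Input n d)
    (hacc : 0 < (up n low h q).result x (up n low h q).last) : HasOrthogonalPair x := by
  classical
  obtain ⟨a, b, _, _, hA, hB, hk⟩ := (acc_iff low h q x).1 hacc
  unfold nLow at hA hB
  obtain ⟨i, hi⟩ := Finset.card_eq_one.1 hA
  obtain ⟨j, hj⟩ := Finset.card_eq_one.1 hB
  have hi2 := (Finset.ext_iff.1 hi i).2 (Finset.mem_singleton_self i)
  have hj2 := (Finset.ext_iff.1 hj j).2 (Finset.mem_singleton_self j)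
  rw [Finset.mem_filter] at hi2 hj2
  refine ⟨i, j, ?_⟩
  apply Finset.sum_eq_zero
  intro k _
  by_contra hcon
  have hik : x (false, i) k = true := by
    by_contra hc
    rw [Bool.not_eq_true] at hc
    rw [hc] at hcon
    simp at hcon
  have hjk : x (true, j) k = true := by
    by_contra hc
    rw [Bool.not_eq_true] at hc
    rw [hc] at hcon
    simp at hcon
  have h1 := hk k
  unfold nBit at h1
  rw [Finset.card_le_one] at h1
  have h2 := h1 (false, i) (by
    rw [Finset.mem_filter]
    refine ⟨Finset.mem_univ _, ?_, hi2.2.2, hik⟩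
    simpa using hi2.2.1) (true, j) (by
    rw [Finset.mem_filter]
    refine ⟨Finset.mem_univ _, ?_, hj2.2.2, hjk⟩
    simpa using hj2.2.1)
  exact absurd (congrArg Prod.fst h2) (by simp)

theorem up_complete (low : Vec d → Prop) {h q : ℕ} (hh : 1 ≤ h) (hn : n ≤ q * h) (x : Input n d)
    (i j : Fin n) (ho : oi (x (false, i)) (x (true, j)) ≠ 0) (hi : low (x (false, i)))
    (hj : low (x (true, j)))
    (hi' : ∀ i' : Fin n, i' ≠ i → (i' : ℕ) / h = i / h → ¬ low (x (false, i')))
    (hj' : ∀ j' : Fin n, j' ≠ j → (j' : ℕ) / h = j / h → ¬ low (x (true, j'))) :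
    0 < (up n low h q).result x (up n low h q).last := by
  classical
  rw [acc_iff]
  have hdiv : ∀ i : Fin n, (i : ℕ) / h < q := by
    intro i
    apply Nat.div_lt_of_lt_mul
    rw [mul_comm]
    exact lt_of_lt_of_le i.2 hn
  refine ⟨i / h, j / h, hdiv i, hdiv j, ?_, ?_, ?_⟩
  · unfold nLow
    rw [Finset.card_eq_one]
    refine ⟨i, ?_⟩
    ext i'
    rw [Finset.mem_filter, Finset.mem_singleton]
    constructor
    · rintro ⟨_, h1, h2⟩
      by_contra hne
      exact hi' i' hne h1 h2
    · rintro rfl
      exact ⟨Finset.mem_univ _, rfl, hi⟩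
  · unfold nLow
    rw [Finset.card_eq_one]
    refine ⟨j, ?_⟩
    ext j'
    rw [Finset.mem_filter, Finset.mem_singleton]
    constructor
    · rintro ⟨_, h1, h2⟩
      by_contra hne
      exact hj' j' hne h1 h2
    · rintro rfl
      exact ⟨Finset.mem_univ _, rfl, hj⟩
  · intro k
    unfold nBit
    rw [Finset.card_le_one]
    have hsum : (x (false, i) k).toNat * (x (true, j) k).toNat = 0 := by
      rw [oi_eq] at ho
      by_contra hcon
      apply ho
      rw [if_neg]
      intro hs
      rw [Finset.sum_eq_zero_iff] at hs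
      exact hcon (hs k (Finset.mem_univ k))
    have key : ∀ z : Pos n, z ∈ (Finset.univ.filter fun z : Pos n =>
        ((z.2 : ℕ) / h = if z.1 then (j : ℕ) / h else (i : ℕ) / h) ∧ low (x z) ∧ x z k = true) →
        (z = (false, i) ∧ x (false, i) k = true) ∨ (z = (true, j) ∧ x (true, j) k = true) := by
      rintro ⟨s, r⟩ hz
      rw [Finset.mem_filter] at hz
      obtain ⟨_, h1, h2, h3⟩ := hz
      cases s
      · left
        have hr : r = i := by
          by_contra hne
          exact hi' r hne (by simpa using h1) h2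
        subst hr
        exact ⟨rfl, h3⟩
      · right
        have hr : r = j := by
          by_contra hne
          exact hj' r hne (by simpa using h1) h2
        subst hr
        exact ⟨rfl, h3⟩
    intro z hz z' hz'
    rcases key z hz with ⟨e, e'⟩ | ⟨e, e'⟩ <;> rcases key z' hz' with ⟨g, g'⟩ | ⟨g, g'⟩
    · rw [e, g]
    · rw [e', g'] at hsum
      simp at hsum
    · rw [e', g'] at hsum
      simp at hsum
    · rw [e, g]

end Pool.Agent.H2.AV
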