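import Pool.Agent.H2.AV.Mgf

/-!
# [H2 AV SOF] The maximum over a finite family (soft maximum)

PROOF. Let `D_t(x) = sum_j (psi_t(x (false,j)) - ev psi_t)` for `t : S`, `Y = D_(sig x)(x)`. Then
`exp(s |Y|) <= exp(s Y) + exp(-s Y) <= sum_t (exp(s D_t) + exp(-s D_t))` and `ex` of `exp(+-s D_t) = prod_j exp(+-s(psi_t(x_j) - m_t))`
is `prod_j ev(..) <= exp(s^2 M m_t)^n <= exp(n s^2 M m)` (`ex_prod`, `mgf_pos`, `mgf_neg`). So
`ex exp(s |Y|) <= exp(a)`, `a = log(2 card S) + n s^2 M m`. Finally `s |Y| - a + 1 <= exp(s |Y| - a)` (`Real.add_one_le_exp`),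
so `s ex|Y| <= a - 1 + exp(-a) ex exp(s|Y|) <= a`.
-/

set_option autoImplicit false

namespace Pool.Agent.H2.AV

variable {n d : ℕ} {p : ℝ}

private theorem prod_bd (h0 : 0 ≤ p) (h1 : p ≤ 1) {s M m : ℝ} (hs : 0 ≤ s) (hM : 0 ≤ M)
    (hsM : s * M ≤ 1) (ψ : Vec d → ℝ) (hψ : ∀ v, 0 ≤ ψ v ∧ ψ v ≤ M) (hm : ev p ψ ≤ m) {r : ℝ}
    (hr : r = 1 ∨ r = -1) :
    ex p (fun x : Input n d => Real.exp (r * (s * ∑ j, (ψ (x (false, j)) - ev p ψ)))) ≤
      Real.exp (n * s ^ 2 * M * m) := by
  have e1 : ∀ x : Input n d, Real.exp (r * (s * ∑ j, (ψ (x (false, j)) - ev p ψ))) =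
      ∏ j : Fin n, Real.exp (r * (s * (ψ (x (false, j)) - ev p ψ))) := by
    intro x
    rw [← Real.exp_sum, Finset.mul_sum, Finset.mul_sum]
  simp_rw [e1]
  rw [ex_prod p false (fun _ v => Real.exp (r * (s * (ψ v - ev p ψ))))]
  rw [Finset.prod_const, Finset.card_univ, Fintype.card_fin]
  have h2 : ev p (fun v => Real.exp (r * (s * (ψ v - ev p ψ)))) ≤ Real.exp (s ^ 2 * M * m) := by
    have h3 : ev p (fun v => Real.exp (r * (s * (ψ v - ev p ψ)))) ≤
        Real.exp (s ^ 2 * M * ev p ψ) := by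
      rcases hr with rfl | rfl
      · simpa using mgf_pos h0 h1 hs hM hsM ψ hψ
      · simpa using mgf_neg h0 h1 hs hM hsM ψ hψ
    refine h3.trans (Real.exp_le_exp.2 ?_)
    exact mul_le_mul_of_nonneg_left hm (by positivity)
  calc (ev p fun v => Real.exp (r * (s * (ψ v - ev p ψ)))) ^ n
      ≤ (Real.exp (s ^ 2 * M * m)) ^ n := by
        apply pow_le_pow_left₀ _ h2
        exact ev_nonneg h0 h1 fun v => (Real.exp_pos _).le
    _ = Real.exp (n * s ^ 2 * M * m) := by
        rw [← Real.exp_nat_mul]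
        congr 1
        ring

theorem soft (h0 : 0 ≤ p) (h1 : p ≤ 1) {S : Type} [Fintype S] [Nonempty S] {s M m : ℝ}
    (hs : 0 < s) (hM : 0 ≤ M) (hsM : s * M ≤ 1) (ψ : S → Vec d → ℝ)
    (hψ : ∀ t v, 0 ≤ ψ t v ∧ ψ t v ≤ M) (hm : ∀ t, ev p (ψ t) ≤ m) (sg : Input n d → S) :
    ex p (fun x => |∑ j, (ψ (sg x) (x (false, j)) - ev p (ψ (sg x)))|) ≤
      (Real.log (2 * Fintype.card S) + n * s ^ 2 * M * m) / s := by
  set D : S → Input n d → ℝ := fun t x => ∑ j, (ψ t (x (false, j)) - ev p (ψ t)) with hD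
  have hcard : (0 : ℝ) < 2 * Fintype.card S := by
    have : 0 < Fintype.card S := Fintype.card_pos
    have h : (0 : ℝ) < Fintype.card S := by exact_mod_cast this
    linarith
  set a := Real.log (2 * Fintype.card S) + n * s ^ 2 * M * m with ha
  have hexp : ex p (fun x => Real.exp (s * |D (sg x) x|)) ≤ Real.exp a := by
    have h2 : ex p (fun x => Real.exp (s * |D (sg x) x|)) ≤
        ex p (fun x => ∑ t : S, (Real.exp (1 * (s * D t x)) + Real.exp (-1 * (s * D t x)))) := by
      apply ex_mono h0 h1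
      intro x
      have h3 : Real.exp (s * |D (sg x) x|) ≤
          Real.exp (1 * (s * D (sg x) x)) + Real.exp (-1 * (s * D (sg x) x)) := by
        rcases abs_cases (D (sg x) x) with ⟨h, _⟩ | ⟨h, _⟩
        · rw [h, one_mul]
          have := Real.exp_pos (-1 * (s * D (sg x) x))
          linarith
        · rw [h]
          have e : s * -D (sg x) x = -1 * (s * D (sg x) x) := by ring
          rw [e]
          have := Real.exp_pos (1 * (s * D (sg x) x))
          linarith
      refine h3.trans ?_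
      exact Finset.single_le_sum (f := fun t : S => Real.exp (1 * (s * D t x)) +
        Real.exp (-1 * (s * D t x))) (fun t _ => by positivity) (Finset.mem_univ (sg x))
    refine h2.trans ?_
    rw [ex_sum]
    have h4 : ∀ t : S, ex p (fun x => Real.exp (1 * (s * D t x)) + Real.exp (-1 * (s * D t x))) ≤
        2 * Real.exp (n * s ^ 2 * M * m) := by
      intro t
      rw [ex_add]
      have b1 := prod_bd (n := n) h0 h1 hs.le hM hsM (ψ t) (hψ t) (hm t) (Or.inl rfl)
      have b2 := prod_bd (n := n) h0 h1 hs.le hM hsM (ψ t) (hψ t) (hm t) (Or.inr rfl)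
      simp only [hD]
      linarith
    calc ∑ t : S, ex p (fun x => Real.exp (1 * (s * D t x)) + Real.exp (-1 * (s * D t x)))
        ≤ ∑ _t : S, 2 * Real.exp (n * s ^ 2 * M * m) := Finset.sum_le_sum fun t _ => h4 t
      _ = Real.exp a := by
          rw [Finset.sum_const, Finset.card_univ, nsmul_eq_mul, ha, Real.exp_add,
            Real.exp_log hcard]
          ring
  have h5 : ex p (fun x => s * |D (sg x) x|) ≤ a := by
    have h6 : ex p (fun x => s * |D (sg x) x|) ≤
        ex p (fun x => (a - 1) * 1 + Real.exp (-a) * Real.exp (s * |D (sg x) x|)) := by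
      apply ex_mono h0 h1
      intro x
      have h7 := Real.add_one_le_exp (s * |D (sg x) x| - a)
      rw [← Real.exp_add]
      have e : -a + s * |D (sg x) x| = s * |D (sg x) x| - a := by ring
      rw [e]
      linarith
    refine h6.trans ?_
    rw [ex_add, ex_mul, ex_mul, ex_one]
    have h8 : Real.exp (-a) * ex p (fun x => Real.exp (s * |D (sg x) x|)) ≤ 1 := by
      calc Real.exp (-a) * ex p (fun x => Real.exp (s * |D (sg x) x|))
          ≤ Real.exp (-a) * Real.exp a := mul_le_mul_of_nonneg_left hexp (Real.exp_pos _).le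
        _ = 1 := by rw [← Real.exp_add]; simp
    linarith
  rw [ex_mul] at h5
  rw [le_div_iff₀ hs]
  linarith

end Pool.Agent.H2.AV
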